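import Pool.Agent.Run7.h568.DG.Defs

/-!
# Dense Thurston geodesics on punctured surfaces: the pieces

Every `S_...` is a closed proposition; its proof is described in its docstring.
A piece `S_foo` is delivered as `theorem foo : S_foo` in a file of its own.
-/

open Real Matrix Filter Topology

noncomputable section

namespace Run7.h568.DG

/-! ## Part 1: the scaling lines are Thurston geodesics -/

/-- PROOF. (a) `2 cosh (k r) = (e^r)^k + (e^-r)^k <= (2 cosh r)^k` (`Real.add_rpow_le_rpow_add`)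
and `(2 sinh (l/2))^k + (e^(-l/2))^k <= (e^(l/2))^k`, hence `(2 sinh (l/2))^k <= 2 sinh (k l/2)`.
(b) Induction on `n`: `a (n+1) = e^(n l/2) + e^(-l/2) a n` for `a n = sinh (n l/2) / sinh (l/2)`,
superadditivity of `u ↦ u^k`, and `a 0 = 0`. -/
def S_ineq : Prop := ∀ k : ℝ, 1 ≤ k → ∀ l : ℝ, 0 < l →
  (∀ r : ℝ, cosh (k * r) / sinh (k * l / 2) ≤ (cosh r / sinh (l / 2)) ^ k) ∧
  (∀ n : ℕ, sinh (n * (k * l) / 2) / sinh (k * l / 2) ≤ (sinh (n * l / 2) / sinh (l / 2)) ^ k)

/-- PROOF. With `a = ae l th`, `b = af l th`, `s = sinh (l/2)`, `C = cosh (th/2)`,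
`V = cosh ((th+l)/2)`: `e^(a/2) = s/C`, `e^(b/2) = V/s`, `e^((a+b)/2) = V/C`.  Induction on `m`
(multiply from the left inside, or from the right before the last factor) with
`sinh` and `cosh` addition formulas; the last diagonal factor is a square root, write
`Del (-(a+b)/2) = diag ((V/C)^(1/2), (C/V)^(1/2))`.  Checked numerically.  Only `m = 0`
and one recursion step per family are needed: e.g. the matrices without the outer `Del` satisfy
`M (m+1) = M m * (U b)⁻¹ * (step b ..) * ...`. -/
def S_exc : Prop := ∀ l : ℝ, 0 < l → ∀ th : ℝ, ∀ m : ℕ,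
  let a := ae l th
  let b := af l th
  let G := Del (-(a + b) / 2)
  let c : ℝ → ℝ := fun j => cosh ((th + j * l) / 2) / sinh (l / 2)
  let s : ℝ → ℝ := fun j => sinh (j * l / 2) / sinh (l / 2)
  (G * step false a * (step false b * step true a) ^ m * U true * G).1
      = !![c (1 - m), c (-m); c (-m), c (-m - 1)] ∧
  (G * step false a * (step false b * step true a) ^ m * step false b * U false * G).1
      = !![s (m + 1), s m; s (m + 2), s (m + 1)] ∧
  (G * step true b * (step true a * step false b) ^ m * U false * G).1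
      = !![c (m + 2), c (m + 1); c (m + 1), c m] ∧
  (G * step true b * (step true a * step false b) ^ m * step true a * U true * G).1
      = !![s (m + 1), s (m + 2); s m, s (m + 1)]

/-- Facts about `K`: PROOF. The six darts are pairwise distinct (`io_ne`, `sg_ne`, `sg3`,
injectivity); `mu` vanishes at the four inner darts; `ue`, `uf` lie in `Teich`: they are invariant
under `io`, and around a puncture the number of ends of `e` (or of `f`) equals half the sum of
`mu`; slickest: `Teich` contains every `x` with `x (io d) = x d` and `x d = q (sg d) - q (io d)`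
for some `q : D → ℝ` (then `x d = x (io d) = q (rho⁻¹ d) - q d` telescopes; state this as a
lemma, it is `S_cob`), and `ue`, `uf` come from such `q` (half the corner numbers of a suitable
family of arcs: solve for `q` supported on the six darts). -/
def S_K : Prop := ∀ {D : Type} [Fintype D] [DecidableEq D] (T : Tri D) (A : Annulus T),
  A.ue ∈ T.Teich ∧ A.uf ∈ T.Teich ∧
  A.ue A.e1 = 1 ∧ A.ue A.e2 = 1 ∧ A.ue A.f1 = 0 ∧ A.ue A.f2 = 0 ∧
  A.uf A.f1 = 1 ∧ A.uf A.f2 = 1 ∧ A.uf A.e1 = 0 ∧ A.uf A.e2 = 0 ∧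
  (∀ l th : ℝ, ∀ y ∈ T.Teich, A.K l th y ∈ T.Teich) ∧
  (∀ l th : ℝ, ∀ y ∈ T.Teich, A.K l th y A.e1 = ae l th ∧ A.K l th y A.e2 = ae l th ∧
    A.K l th y A.f1 = af l th ∧ A.K l th y A.f2 = af l th) ∧
  (∀ l th : ℝ, ∀ y : D → ℝ, ∀ d, A.Outer d →
    A.K l th y d = y d + A.mu d * (y A.e1 + y A.f1) / 2 - A.mu d * (ae l th + af l th) / 2) ∧
  A.Outer A.b1 ∧ A.Outer A.b2 ∧ A.b1 ≠ A.b2 ∧ (∀ d, A.Outer d → A.Outer (T.io d))

/-- Coboundaries.  PROOF. (<=) telescoping over the period of `rho`: `x d = q (rho⁻¹ d) - q d`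
where `rho⁻¹ d = sg (io d)`.  (=>) `q d = -(1/p) * ∑ j < p, j * x (rho^[j+1] d)`,
`p = minimalPeriod rho d` (the same along the orbit), satisfies `q (sg (io d)) - q d = x d`. -/
def S_cob : Prop := ∀ {D : Type} [Fintype D] [DecidableEq D] (T : Tri D) (x : D → ℝ),
  x ∈ T.Teich ↔ ((∀ d, x (T.io d) = x d) ∧ ∃ q : D → ℝ, ∀ d, x d = q (T.sg d) - q (T.io d))

/-- THE WORD INEQUALITY.  PROOF. Strong induction on the length of `w`, together with the
statements for the four inner darts: e.g. for the dart `e2` reached from `b1` after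
`false, (false, true)^m`, the entries of `G * step false a * (step false b * step true a)^m *
hol w e2 * gam⁻¹` (`G = Del (-(a+b)/2)`) satisfy the inequality for all `m` and all `w` from `e2`
to an outer dart.
Every step leaves the annulus (use `S_exc`, `S_ineq` and the induction hypothesis for the rest
of the word) or stays inside (raises the power).  Table of the moves (`true`/`false`):
`b1`: f2 / e2, `b2`: f1 / e1, `f1`: e2 / io b1, `e2`: io b2 / f1, `f2`: e1 / io b2,
`e1`: io b1 / f2 (where `io b1` is the dart outside).  Families of `S_exc`: from `b1` through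
`e2, f1`: exits to `io b2` (1st) and `io b1` (2nd); from `b1` through `f2, e1`: `io b2` (3rd),
`io b1` (4th); from `b2` through `f1, e2` : the 3rd and 4th with exits `io b1`, `io b2`; from `b2`
through `e1, f2`: the 1st and 2nd with exits `io b1`, `io b2`.
The crossing of an outer edge `t` contributes `Del (K t) * (gam (io t))⁻¹` =
(`G` if we come from the annulus) `* Del X`, `X = y t + mu t * (y e1 + y f1)/2`
(`S_K`; it scales linearly), because `mu t` counts the sides of `t` belonging to the annulus.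
Entries of `U b` are 0 or 1, of `Del X` are `0` or `e^(±X/2)`, and products of nonnegative
matrices: `(u v + u' v') ↦` use `∑ a_i^k ≤ (∑ a_i)^k`. -/
def S_word : Prop := ∀ {D : Type} [Fintype D] [DecidableEq D] (T : Tri D) (A : Annulus T)
  (y : D → ℝ), y ∈ T.Teich → ∀ l : ℝ, 0 < l → ∀ th k : ℝ, 1 ≤ k → ∀ (w : List Bool) (d : D),
  A.Outer d → A.Outer (T.endp w d) → ∀ i j,
    0 ≤ (A.hat l th y w d).1 i j ∧ 0 ≤ (A.hat (k * l) (k * th) (k • y) w d).1 i j ∧
    (A.hat (k * l) (k * th) (k • y) w d).1 i j ≤ ((A.hat l th y w d).1 i j) ^ k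

/-- PROOF. If no prefix of `w` ends at an outer dart then all darts passed are inner, and by
the table of moves (see `S_word`) the word is a power of `[true, false]` from `f1` or `f2`, or of
`[false, true]` from `e1` or `e2`; `hol` is the power of `step true (ae) * step false (af)` or of
the product in the other order, whose trace is `2 cosh (l/2)`; trace of a power. -/
def S_inner : Prop := ∀ {D : Type} [Fintype D] [DecidableEq D] (T : Tri D) (A : Annulus T)
  (w : List Bool) (d : D), T.Closed w d →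
  (∃ u v, w = u ++ v ∧ A.Outer (T.endp u d)) ∨
  ∃ n : ℕ, ∀ l th : ℝ, 0 < l → ∀ y ∈ T.Teich, tr (T.hol (A.K l th y) w d) = 2 * cosh (n * l / 2)

/-- PROOF. The product of the matrices `U b * Del s` along `w` has nonnegative entries, the
diagonal ones are `≥ e^(-S/2)` and `≥ e^(S/2)`, `S` the sum of the shears passed, and when both
letters occur the off-diagonal pairs contribute something positive (or: all entries positive,
`M 0 0 > e^(-S/2)` or `M 1 1 > e^(S/2)`). -/
def S_tr : Prop := ∀ {D : Type} [Fintype D] [DecidableEq D] (T : Tri D) (x : D → ℝ)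
  (w : List Bool) (d : D), T.Closed w d → 2 < tr (T.hol x w d)

/-- SCALING.  PROOF from `S_word`, `S_inner`, `S_tr`.  In the second case of `S_inner` both lengths
are explicit (equality).  Otherwise rotate the word (trace is cyclic: `hol (u ++ v) d =
hol u d * hol v (endp u d)`) to start at an outer dart; `hat` of the word repeated `n` times is
`hat^n`, so for the traces `t n`, `t' n` of the `n`-th powers (before and after scaling)
`t' n ≤ (t n)^k` (diagonal entries, superadditivity).  `t n = 2 cosh (n len / 2)`; take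
logarithms, divide by `n`, let `n → ∞`. -/
def S_scal : Prop := ∀ {D : Type} [Fintype D] [DecidableEq D] (T : Tri D) (A : Annulus T)
  (y : D → ℝ), y ∈ T.Teich → ∀ l : ℝ, 0 < l → ∀ th k : ℝ, 1 ≤ k → ∀ (w : List Bool) (d : D),
  T.Closed w d →
  T.len (A.K (k * l) (k * th) (k • y)) w d ≤ k * T.len (A.K l th y) w d

/-- THE CORE.  PROOF. `c` = indicator of `{e1, e2}`, `i = 0`, `n = 2`; the trace of
`step true (ae) * step false (af)` is `2 cosh (l/2)`. -/
def S_core : Prop := ∀ {D : Type} [Fintype D] [DecidableEq D] (T : Tri D) (A : Annulus T),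
  T.Closed [true, false] A.f1 ∧ T.Simple [true, false] A.f1 ∧
  ∀ l : ℝ, 0 < l → ∀ th : ℝ, ∀ y ∈ T.Teich, T.len (A.K l th y) [true, false] A.f1 = l

/-- THE LINES ARE GEODESICS.  PROOF from `S_scal`, `S_core`, `S_tr` (lengths are positive). -/
def S_geo : Prop := ∀ {D : Type} [Fintype D] [DecidableEq D] (T : Tri D) (A : Annulus T)
  (y : D → ℝ), y ∈ T.Teich → ∀ th s t : ℝ, s ≤ t →
  T.dTh (A.K (exp s) (exp s * th) (exp s • y)) (A.K (exp t) (exp t * th) (exp t • y)) = t - s

/-! ## Part 2: length and twist coordinates -/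

/-- PROOF. `2 cosh (l/2) = e^((a+b)/2) + e^(-(a+b)/2) + e^((a-b)/2) > 2` gives `l`; then
`cosh ((th+l)/2) / cosh (th/2) = cosh (l/2) + tanh (th/2) sinh (l/2)` takes the value
`e^((a+b)/2)`, which lies between `e^(-l/2)` and `e^(l/2)` (strictly) for some `th`; finally
`C^2 + V^2 + s^2 = 2 C V cosh (l/2)` (`C = cosh (th/2)`, `V = cosh ((th+l)/2)`, `s = sinh (l/2)`)
shows `s^2/(C V) = e^((a-b)/2)`. -/
def S_Ksurj : Prop := ∀ a b : ℝ, ∃ l th : ℝ, 0 < l ∧ ae l th = a ∧ af l th = b

/-- PROOF. `2 cosh (l n/2) = e^((a+b)/2) + e^(-(a+b)/2) + e^((a-b)/2)` with `a = ae`, `b = af`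
gives `l n / r n → max (|p+q|) (p-q) = 1` for `p = 1 - |th0|`, `q = |th0+1| - 1`.  Then
`|ae l th - (l - |th|)|` and `|af l th - (|th+l| - l)|` are bounded for `l ≥ 1`, so
`|th n|/r n → |th0|` and `|th n + l n|/r n → |th0 + 1|`, hence `th n / r n → th0`
(from `(th+l)^2 - th^2 = 2 th l + l^2`). -/
def S_Kasymp : Prop := ∀ (l th r : ℕ → ℝ) (th0 : ℝ), (∀ n, 0 < l n) → Tendsto r atTop atTop →
  Tendsto (fun n => ae (l n) (th n) / r n) atTop (𝓝 (1 - |th0|)) →
  Tendsto (fun n => af (l n) (th n) / r n) atTop (𝓝 (|th0 + 1| - 1)) →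
  Tendsto (fun n => l n / r n) atTop (𝓝 1) ∧ Tendsto (fun n => th n / r n) atTop (𝓝 th0)

/-! ## Part 3: families of strands are dense -/

/-- PROOF. By `S_cob` there is `q` with `y d = q (sg d) - q (io d)`; put `N d = q d + q (sg d)`
(invariant under `io`).  Approximate `N` by `N' / (2 M)` with even integers `N'` invariant under
`io`; `c' d = (N' d + N' (sg (sg d)) - N' (sg d)) / 2` is an integer function with
`c' d + c' (sg d) = N' d`, and `c d = c' d - min (c' along the rho-orbit of d)` is in `ℕ`,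
`Match` and `Normal` (`rho (sg d) = io d`, `rho (sg (io d)) = d`: the minima cancel);
`dirc T c d = c (sg d) - c (io d) = c' (sg d) - c' (io d)`. -/
def S_dir : Prop := ∀ {D : Type} [Fintype D] [DecidableEq D] (T : Tri D) (y : D → ℝ),
  y ∈ T.Teich → ∀ ε : ℝ, 0 < ε → ∃ c : D → ℕ, T.Match c ∧ T.Normal c ∧ ∃ M : ℝ, 0 < M ∧
    ∀ d, |dirc T c d / M - y d| < ε

/-! ## Part 4: twists along families of strands -/

/-- Strands.  PROOF. (b) `str v * step = hol (itin (P+1) v) = step * str (snext v)` since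
`snext^[P] v = v`.  (c) Put `rev (d, i) = (io d, num c d - 1 - i)`; `rev (snext v)` has dart
`turn b d`, `snext (rev (snext v)) = rev v`, its turn is the opposite one, and
`step_v * E * step_(rev (snext v)) = E (x d)` with `E = E (x (turn b d))`
(as `step true s = W * E s`, `step false s = W * W * E s`, `E s * E s = -1`, `W^3 = -1`);
telescope over `P` steps.  (d) from (b) and (c): `str v = step * str (snext v) * step⁻¹`,
`rev (snext v) = (sg d, num c d - 1 - i)`. -/
def S_str : Prop := ∀ {D : Type} [Fintype D] [DecidableEq D] (T : Tri D) (t : TD T)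
  (x : D → ℝ), (∀ d, x (T.io d) = x d) → ∀ d i, i < T.num t.c d →
  (T.snext t.c (d, i)).2 < T.num t.c (T.snext t.c (d, i)).1 ∧
  t.str x (d, i) * step (Tri.sbit t.c (d, i)) (x (T.turn (Tri.sbit t.c (d, i)) d)) =
    step (Tri.sbit t.c (d, i)) (x (T.turn (Tri.sbit t.c (d, i)) d)) *
      t.str x (T.snext t.c (d, i)) ∧
  t.str x (T.io d, T.num t.c d - 1 - i) = (E (x d))⁻¹ * (t.str x (d, i))⁻¹ * E (x d) ∧
  (t.c d ≤ i → t.str x (d, i) = W * (t.str x (T.sg d, T.num t.c d - 1 - i))⁻¹ * W⁻¹ ∧
    t.m (d, i) = t.m (T.sg d, T.num t.c d - 1 - i))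

/-- PROOF. The itinerary of length `P` of a closed strand contains both letters: if it were all
`false`, the strand would turn around one puncture, `i < c (rho^[j] d)` for all `j`, against
`Normal`; if all `true`, then its reverse (see `S_str`) would be all `false`.  A product of
matrices `U b * Del s` with both letters has positive entries. -/
def S_pos : Prop := ∀ {D : Type} [Fintype D] [DecidableEq D] (T : Tri D) (t : TD T)
  (x : D → ℝ) (d : D) (i : ℕ), i < T.num t.c d →
  true ∈ T.itin t.c t.P (d, i) ∧ false ∈ T.itin t.c t.P (d, i) ∧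
  ∀ a b, 0 < (t.str x (d, i)).1 a b

/-- PROOF from `S_str` (reversal of an ordered product of the `h_i ^ m_i`). -/
def S_H : Prop := ∀ {D : Type} [Fintype D] [DecidableEq D] (T : Tri D) (t : TD T)
  (x : D → ℝ), (∀ d, x (T.io d) = x d) → ∀ d,
  t.H x d = t.Pd x d (t.c d) * (W * (t.Pd x (T.sg d) (t.c (T.sg d)))⁻¹ * W⁻¹) ∧
  t.H x (T.io d) = (E (x d))⁻¹ * (t.H x d)⁻¹ * E (x d)

/-- PROOF. First: for `m ≥ 0` a product of positive matrices (or 1); for `m ≤ 0` a product of
inverses of positive matrices of determinant 1, conjugate by `diag (1, -1)` to positive ones.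
Second: the `0 0` entry of `(E s)⁻¹ * g⁻¹ * E s` is the `0 0` entry of `g` (`S_H`). -/
def S_H00 : Prop := ∀ {D : Type} [Fintype D] [DecidableEq D] (T : Tri D) (t : TD T)
  (x : D → ℝ), (∀ d, x (T.io d) = x d) → ∀ d,
  0 < (t.H x d).1 0 0 ∧ (t.H x (T.io d)).1 0 0 = (t.H x d).1 0 0

/-- THE GAUGE.  PROOF from `S_H`, `S_H00`.  Put `L d = (H d) 0 0`,
`a d = √(L d * L (sg (sg d)) / L (sg d))` (so `a d * a (sg d) = L d`) and
`g d = [[a d, 0], [(H d) 1 0 / a (sg d), 1 / a d]]`.  By `S_H`,
`(H d * W) * (H (sg d) * W) * (H (sg (sg d)) * W) = W^3 = -1` and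
`H d * E * H (io d) = E`.  Both sides of the two matrix identities have determinant 1 and agree
on `(0,1)`; compare the first entry of the images of `(1,0)`.
Last: `(g⁻¹ M g) 0 0 = M 0 0 + M 0 1 * g 1 0 / g 0 0` for lower triangular `g`. -/
def S_gauge : Prop := ∀ {D : Type} [Fintype D] [DecidableEq D] (T : Tri D) (t : TD T)
  (x : D → ℝ), (∀ d, x (T.io d) = x d) → ∃ g : D → SL, ∀ d,
  t.H x d * W * g (T.sg d) = g d * W ∧
  t.H x d * E (x d) * g (T.io d) = g d * E (t.tw x d) ∧
  ((g d)⁻¹ * (t.H x d)⁻¹ * g d).1 0 0 = ((t.H x d).1 0 0)⁻¹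

/-- TELESCOPING.  PROOF from `S_str`, `S_H`.  `true`: `H d * W * H (sg d) * E =
Pd d (c d) * W * (W * Pd (sg (sg d)) (c ..)⁻¹ * W⁻¹) * E`, where the bracket is
`∏_{c (sg d) ≤ j < num} str (sg d, j)^m`, and conjugation by `E (x (sg d))` turns it into
the inverse of `Pd (io (sg d)) (c (sg (sg d)))`; this is the case `i = c d`; for larger `i` use
`str v * step = step * str (snext v)`.  `false`: `H d * W * H (sg d) * W * H (sg (sg d)) * E =
W * W * E = step false` is the case `i = 0`; larger `i` in the same way. -/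
def S_tele : Prop := ∀ {D : Type} [Fintype D] [DecidableEq D] (T : Tri D) (t : TD T)
  (x : D → ℝ), (∀ d, x (T.io d) = x d) → ∀ d i, i < T.num t.c d →
  (t.c d ≤ i → t.H x d * W * (t.H x (T.sg d) * E (x (T.sg d))) =
    t.Pd x d i * step true (x (T.sg d)) *
      (t.Pd x (T.snext t.c (d, i)).1 (T.snext t.c (d, i)).2)⁻¹) ∧
  (i < t.c d → t.H x d * W * (t.H x (T.sg d) * W) *
      (t.H x (T.sg (T.sg d)) * E (x (T.sg (T.sg d)))) =
    t.Pd x d i * step false (x (T.sg (T.sg d))) *
      (t.Pd x (T.snext t.c (d, i)).1 (T.snext t.c (d, i)).2)⁻¹)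

/-- Loops of strands in the twisted surface.  PROOF. `S_tele` telescoped over the `P` steps of the
strand `(d, i)`, read with the gauge `g` of `S_gauge` (any `g` with its first two properties):
the holonomy of the strand in the shears `tw x` is
`g⁻¹ * Pd d i * str x (d, i) * (Pd d i)⁻¹ * g`. -/
def S_loop : Prop := ∀ {D : Type} [Fintype D] [DecidableEq D] (T : Tri D) (t : TD T)
  (x : D → ℝ), (∀ d, x (T.io d) = x d) → ∀ g : D → SL, (∀ d,
    t.H x d * W * g (T.sg d) = g d * W ∧ t.H x d * E (x d) * g (T.io d) = g d * E (t.tw x d)) →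
  ∀ d i, i < T.num t.c d →
  t.str (t.tw x) (d, i) = (g d)⁻¹ * t.Pd x d i * t.str x (d, i) * (t.Pd x d i)⁻¹ * g d

/-- THE TWISTED SURFACE IS THE SAME SURFACE.  PROOF from `S_gauge`, `S_loop`.
Call `Q d d' k` the groupoid generated like `Path` but with `H d' * W` and `H d' * E (x d')`
instead of `W` and `E (x d')`; by the gauge, `Path (tw x) d d' h ↔ Q d d' (g d * h * (g d')⁻¹)`.
`H d` is a product of powers of the `str x (d, i)`, which are loops of `Path x d d` (steps are
`W * E` and `W * W * E`; `Path x d d` is closed under products and inverses), so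
`Q d d' k → Path x d d' k`.  Conversely `k_i = Pd d i * str x (d,i) * (Pd d i)⁻¹` is a loop of `Q`
by `S_loop` (a `str` of `tw x` is a loop of `Path (tw x)`), and
`Pd d (i+1) = k_i ^ m * Pd d i`, so `H d` is a loop of `Q` at `d` and `Path x → Q`. -/
def S_same : Prop := ∀ {D : Type} [Fintype D] [DecidableEq D] (T : Tri D) (t : TD T)
  (x : D → ℝ), (∀ d, x (T.io d) = x d) → T.SameModuli x (t.tw x)

/-- TWISTING BACK.  PROOF from `S_gauge`, `S_loop`: in the surface `tw x` the product of the
`-m`-th powers along `d` is `g⁻¹ * (k_0^(-m) * ... * k_{N-1}^(-m)) * g = g⁻¹ * (H x d)⁻¹ * g`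
(`k_i` as in `S_same`, `H = k_{N-1}^m * ... * k_0^m`), whose `0 0` entry is `1 / (H x d) 0 0`;
so `Lam` changes sign. -/
def S_inv : Prop := ∀ {D : Type} [Fintype D] [DecidableEq D] (T : Tri D) (t : TD T)
  (x : D → ℝ), (∀ d, x (T.io d) = x d) → t.neg.tw (t.tw x) = x

/-- PROOF. `Lam (io d) = Lam d` (`S_H00`), so `tw x` is `io`-invariant; and
`tw x - x` is the coboundary of `q d = Lam d + Lam (sg (sg d)) - Lam (sg d)` (`S_cob`). -/
def S_twT : Prop := ∀ {D : Type} [Fintype D] [DecidableEq D] (T : Tri D) (t : TD T),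
  ∀ x ∈ T.Teich, t.tw x ∈ T.Teich

/-- PROOF. Entries of `hol`, of products, integer powers and inverses in `SL(2)` are continuous
in `x`; the logarithm is taken at positive numbers (`S_H00`). -/
def S_twc : Prop := ∀ {D : Type} [Fintype D] [DecidableEq D] (T : Tri D) (t : TD T),
  Continuous (fun x : T.Teich => t.tw (x : D → ℝ))

/-- Powers of one positive matrix.  PROOF. Eigenvalues `μ = (t + √(t²-4))/2 > 1` and `1/μ`;
`g^m = (μ^m - μ^(-m))/(μ - 1/μ) * g - (μ^(m-1) - μ^(-(m-1)))/(μ - 1/μ) * 1`;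
entries are of the form `A μ^m + B μ^(-m)` with `A > 0`. -/
def S_pow : Prop := ∀ g : SL, (∀ a b, 0 < g.1 a b) → 2 < tr g ∧
  ∃ c C : ℝ, 0 < c ∧ 0 < C ∧ ∀ m : ℕ,
    c * ((tr g + √(tr g ^ 2 - 4)) / 2) ^ m ≤ (g ^ m).1 0 0 ∧
    ∀ a b, 0 ≤ (g ^ m).1 a b ∧ (g ^ m).1 a b ≤ C * ((tr g + √(tr g ^ 2 - 4)) / 2) ^ m

/-- ASYMPTOTICS.  PROOF. A common period `P` exists (`snext` is an injective map of the finite set
of strands to itself; e.g. a factorial).  With
`L v = 2 log ((tr + √(tr²-4))/2)`, `tr` the trace of the holonomy of `v` followed `P` steps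
(`> 2` by `S_pos`, `S_pow`; invariant under `snext` and reversal by `S_str`, which may be applied
with the exponents `m = 0`), put `m v = ⌊n / L v⌋₊`.
Then `Lam x d / n → num c d / 2`: lower bound `∏ (h_i^(m_i)) 0 0`, upper bound by entries, from
`S_pow`, and `m_i L_i` in `[n - L_i, n]`. -/
def S_asym : Prop := ∀ {D : Type} [Fintype D] [DecidableEq D] (T : Tri D)
  (x : D → ℝ), (∀ d, x (T.io d) = x d) → ∀ c : D → ℕ, T.Match c → T.Normal c →
  ∃ t : ℕ → TD T, (∀ n, (t n).c = c) ∧ (∀ n v, 0 ≤ (t n).m v) ∧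
    ∀ d, Tendsto (fun n : ℕ => (t n).tw x d / n) atTop (𝓝 (dirc T c d))

/-! ## The result -/

/-- There is a Thurston geodesic which is dense in moduli space.  PROOF: lead. -/
def S_main : Prop := ∀ {D : Type} [Fintype D] [DecidableEq D] (T : Tri D), Nonempty (Annulus T) →
  ∃ G : ℝ → T.Teich, (∀ s t, s ≤ t → T.dTh (G s) (G t) = t - s) ∧
    ∀ O : Set T.Teich, IsOpen O → O.Nonempty → ∃ t, ∃ x ∈ O, T.SameModuli (G t) x

end Run7.h568.DG
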