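import Pool.Agent.Run7.h568.DG.CDefs
import Pool.Agent.Run7.h568.DG.Iface

/-!
# Closed surfaces: the pieces

Every `C_...` is a closed proposition with its proof in the docstring; deliver
`theorem foo : C_foo` (with the other `C_`, `S_` as hypotheses).  All statements were checked
numerically with 100 digits on three surfaces, for both signs of the exponents.
-/

open Real Matrix Filter Topology

noncomputable section

namespace Run7.h568.DG

/-- `g` maps the vector `(-s, 1)` to `r * (-s', 1)`. -/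
def Act (g : SL) (s s' r : ℝ) : Prop :=
  -(g.1 0 0) * s + g.1 0 1 = -(r * s') ∧ -(g.1 1 0) * s + g.1 1 1 = r

/-! ## Part 1: the scaling lines are Thurston geodesics -/

/-- PROOF. (1), (2) induction on the number of turns: `step false s = [[e^(-s/2), 0],
[e^(-s/2), e^(s/2)]]`, and the darts passed are `sg (sg (rho^[j] d)) = io (rho^[j+1] d)`, so the
shears are `x (rho^[j+1] d)`, a cyclic shift of those in `cyc` (`x` is `io`-invariant).
(3) lower triangular 2x2 matrices with `cyc u = -l`, `cyc v = l`; the entry `1 0` of `J` was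
chosen for this.  (5) `g = rot^n * J` satisfies `rot u * g = g * (rot v)⁻¹` and its diagonal
is explicit; the relation determines the entry `1 0` since `sinh (l/2) ≠ 0`. -/
def C_J : Prop := ∀ {D : Type} [Fintype D] [DecidableEq D] (T : Tri D) (P : Portal T),
  ∀ p ∈ P.Teich, (∀ d j, (Portal.turns (T := T) p.1 d j).1 0 1 = 0 ∧
      0 < (Portal.turns (T := T) p.1 d j).1 0 0 ∧ 0 < (Portal.turns (T := T) p.1 d j).1 1 1 ∧
      0 ≤ (Portal.turns (T := T) p.1 d j).1 1 0 ∧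
      (0 < j → 0 < (Portal.turns (T := T) p.1 d j).1 1 0)) ∧
    (∀ d, (Portal.rot (T := T) p.1 d).1 0 0 = exp (-(T.cyc p.1 d) / 2) ∧
      (Portal.rot (T := T) p.1 d).1 1 1 = exp (T.cyc p.1 d / 2) ∧
      0 < (Portal.rot (T := T) p.1 d).1 1 0) ∧
    Portal.rot (T := T) p.1 P.u * P.J p = P.J p * (Portal.rot (T := T) p.1 P.v)⁻¹ ∧
    0 < (P.J p).1 1 0 ∧
    ∀ n : ℤ, let z := n * T.cyc p.1 P.v + p.2
      (Portal.rot (T := T) p.1 P.u ^ n * P.J p).1 = !![exp (z / 2), 0;
        ((Portal.rot (T := T) p.1 P.u).1 1 0 * exp (z / 2) +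
          (Portal.rot (T := T) p.1 P.v).1 1 0 * exp (-z / 2)) / (2 * sinh (T.cyc p.1 P.v / 2)),
        exp (-z / 2)]

/-- PROOF. `Teich` is a cone.  Entries of `step b s` are `0`, `e^(±s/2)`.  Entries of
`turns`, `rot` are bounded by the `k`-th powers (products of such matrices,
`∑ a_i^k ≤ (∑ a_i)^k`); with `C_J` (5) and `(2 sinh (l/2))^k ≤ 2 sinh (k l/2)`
the entries of `cf n`; those of `ct n` are
`E s * [[a, 0], [b, 1/a]]⁻¹ * (E s')⁻¹ = [[a e^((s-s')/2), b e^((s+s')/2)], [0, e^((s'-s)/2)/a]]`.-/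
def C_mat : Prop := ∀ {D : Type} [Fintype D] [DecidableEq D] (T : Tri D) (P : Portal T),
  ∀ p ∈ P.Teich, (∀ k : ℝ, 0 < k → k • p ∈ P.Teich ∧
      T.cyc (k • p).1 P.v = k * T.cyc p.1 P.v) ∧
    ∀ k : ℝ, 1 ≤ k → ∀ (d : D) (l : Letter), P.ok d l → ∀ i j,
      0 ≤ (P.mat p d l).1 i j ∧ (P.mat (k • p) d l).1 i j ≤ ((P.mat p d l).1 i j) ^ k

/-- PROOF. Letters of type `isT` are upper triangular, of type `isF` lower triangular, with
positive diagonal, nonnegative entries and positive off-diagonal entry (`C_J`); a product of such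
matrices with both types has positive entries, and
then the trace is `> 2` (determinant 1 with positive entries: `a d > 1`). -/
def C_tr : Prop := ∀ {D : Type} [Fintype D] [DecidableEq D] (T : Tri D) (P : Portal T),
  ∀ p ∈ P.Teich, ∀ (w : List Letter) (d : D), P.Valid w d → (∃ l ∈ w, l.isT) →
    (∃ l ∈ w, l.isF) → (∀ i j, 0 < (P.hol p w d).1 i j) ∧ 2 < tr (P.hol p w d)

/-- PROOF as `S_scal`, simpler: `hol (k • p) w d ≤ (hol p w d)^k` entrywise by `C_mat`; apply
it to the `n`-th power of the word: `2 cosh (n len'/2) ≤ (2 cosh (n len/2))^k`, `n → ∞`. -/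
def C_scal : Prop := ∀ {D : Type} [Fintype D] [DecidableEq D] (T : Tri D) (P : Portal T),
  ∀ p ∈ P.Teich, ∀ k : ℝ, 1 ≤ k → ∀ (w : List Letter) (d : D), P.Closed w d →
    P.len (k • p) w d ≤ k * P.len p w d

/-- PROOF from `C_scal`, `C_tr`, `C_mat`: all ratios are at most `e^(t-s)`, and that of `α`
is equal to it. -/
def C_geo : Prop := ∀ {D : Type} [Fintype D] [DecidableEq D] (T : Tri D) (P : Portal T),
  ∀ p ∈ P.Teich, ∀ s t : ℝ, s ≤ t → P.dTh (exp s • p) (exp t • p) = t - s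

/-! ## Part 2: strands -/

/-- Combinatorics of strands.  PROOF: case distinctions, `omega`; the darts `u, io u, v, io v` are
distinct (`huv`, `hne`, `io_io`, `io_ne`). -/
def C_comb : Prop := ∀ {D : Type} [Fintype D] [DecidableEq D] (T : Tri D) (P : Portal T)
  (c : D → ℕ) (a : ℕ), P.Match c a → ∀ w : D × ℕ, w.2 < T.num c w.1 →
    (Portal.out (T := T) c w).2 < T.num c (Portal.out (T := T) c w).1 ∧
    Portal.out (T := T) c (Portal.out (T := T) c w) = w ∧
    Tri.sbit c (Portal.out (T := T) c w) = !(Tri.sbit c w) ∧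
    (P.cross c a w).2 < T.num c (P.cross c a w).1 ∧ P.cross c a (P.cross c a w) = w ∧
    (P.snext c a w).2 < T.num c (P.snext c a w).1

/-- Letters of strands.  PROOF. `step true s = W * E s`, `step false s = W * W * E s`,
`E s * E s = -1`, `(E s)⁻¹ = - E s`; `xm s * xm (cross s) = -1`. -/
def C_let : Prop := ∀ {D : Type} [Fintype D] [DecidableEq D] (T : Tri D) (P : Portal T)
  (c : D → ℕ) (a : ℕ), P.Match c a → ∀ p : (D → ℝ) × ℝ, (∀ d, p.1 (T.io d) = p.1 d) →
  ∀ w : D × ℕ, w.2 < T.num c w.1 →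
    P.Valid (P.sletters c a w) w.1 ∧ P.endp (P.sletters c a w) w.1 = (P.snext c a w).1 ∧
    P.hol p (P.sletters c a w) w.1 =
      (if Tri.sbit c w then W else W * W) * P.xm p c a (Portal.out (T := T) c w) ∧
    P.xm p c a w * P.xm p c a (P.cross c a w) = -1

/-- PROOF as `S_str` (`C_comb`, `C_let`): (a) the word of `Q + 1` steps; (b) `rev = cross`:
`cross (snext w) = out w`, `snext (out w) = cross w`, telescope
`hol (step w) * xm (snext w) * hol (step (cross (snext w))) = ± xm w` over `Q` steps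
(the sign cancels in the end, check: it is `+`); (c) from (a), (b).
Note `out c (d, i) = (sg d, num c d - 1 - i)` when `c d ≤ i`. -/
def C_str : Prop := ∀ {D : Type} [Fintype D] [DecidableEq D] (T : Tri D) (P : Portal T)
  (t : PTD P) (p : (D → ℝ) × ℝ), (∀ d, p.1 (T.io d) = p.1 d) → ∀ d i, i < T.num t.c d →
    t.str p (d, i) * P.hol p (P.sletters t.c t.a (d, i)) d =
      P.hol p (P.sletters t.c t.a (d, i)) d * t.str p (P.snext t.c t.a (d, i)) ∧
    t.str p (P.cross t.c t.a (d, i)) =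
      (P.xm p t.c t.a (d, i))⁻¹ * (t.str p (d, i))⁻¹ * P.xm p t.c t.a (d, i) ∧
    (t.c d ≤ i → t.str p (d, i) = W * (t.str p (T.sg d, T.num t.c d - 1 - i))⁻¹ * W⁻¹ ∧
      t.m (d, i) = t.m (T.sg d, T.num t.c d - 1 - i))

/-- PROOF. Valid words by `C_let`.  Both types of letters occur in the word of a closed
strand: suppose only letters `isF` (turn `false`, `cf`); the strand turns around the tail of its
darts; if it never crosses `α`, then the index is constant around a puncture other than the two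
(against `hn`), decreases by `a > 0` at every passage of the edge of `io u` (tail of `u`), or
increases by `a` at every passage of `io v` (tail of `v`): never closed; if it crosses `α` by a
`cf`, it is afterwards among the darts with the tail of `v`, and the next crossing would be
`ct`.  Only letters `isT`: reverse the strand (`C_comb`) or the same with heads.
Positivity from `C_tr`. -/
def C_pos : Prop := ∀ {D : Type} [Fintype D] [DecidableEq D] (T : Tri D) (P : Portal T)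
  (t : PTD P), ∀ p ∈ P.Teich, ∀ d i, i < T.num t.c d →
    P.Valid (P.itin t.c t.a t.Q (d, i)) d ∧ P.endp (P.itin t.c t.a t.Q (d, i)) d = d ∧
    (∃ l ∈ P.itin t.c t.a t.Q (d, i), l.isT) ∧ (∃ l ∈ P.itin t.c t.a t.Q (d, i), l.isF) ∧
    ∀ i' j', 0 < (t.str p (d, i)).1 i' j'

/-- PROOF as `S_H` from `C_str` (reversal of ordered products). -/
def C_H : Prop := ∀ {D : Type} [Fintype D] [DecidableEq D] (T : Tri D) (P : Portal T)
  (t : PTD P) (p : (D → ℝ) × ℝ), (∀ d, p.1 (T.io d) = p.1 d) →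
    (∀ d, t.H p d = t.Pd p d (t.c d) * (W * (t.Pd p (T.sg d) (t.c (T.sg d)))⁻¹ * W⁻¹)) ∧
    (∀ d, ¬ P.Special d → t.H p (T.io d) = (E (p.1 d))⁻¹ * (t.H p d)⁻¹ * E (p.1 d)) ∧
    t.H p (T.io P.u) = ((E (p.1 P.u))⁻¹ * (t.H p P.u)⁻¹ * E (p.1 P.u)) *
      (((P.J p)⁻¹ * E (p.1 P.u))⁻¹ * (t.B p)⁻¹ * ((P.J p)⁻¹ * E (p.1 P.u))) ∧
    t.H p P.v = t.B p * (E (p.1 P.v) * (t.H p (T.io P.v))⁻¹ * (E (p.1 P.v))⁻¹)

/-- Twisted transports.  PROOF from `C_H`, group identities (`W^3 = -1`, `E^2 = -1`). -/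
def C_R : Prop := ∀ {D : Type} [Fintype D] [DecidableEq D] (T : Tri D) (P : Portal T)
  (t : PTD P) (p : (D → ℝ) × ℝ), (∀ d, p.1 (T.io d) = p.1 d) →
    (∀ d, t.Rs p d * t.Rs p (T.sg d) * t.Rs p (T.sg (T.sg d)) = -1) ∧
    (∀ d, t.Ri p d * t.Ri p (T.io d) = -1) ∧
    (∀ d, T.sg (T.sg d) ≠ T.io P.u → T.sg (T.sg d) ≠ T.io P.v →
      t.Rs p d * t.Rs p (T.sg d) * t.Ri p (T.sg (T.sg d)) = step false (p.1 (T.sg (T.sg d)))) ∧
    (∀ d, T.sg (T.sg d) = T.io P.u →
      t.Rs p d * t.Rs p (T.sg d) * t.Ri p (T.sg (T.sg d)) =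
        step false (p.1 (T.sg (T.sg d))) * (P.J p * t.B p * (P.J p)⁻¹)) ∧
    (∀ d, T.sg (T.sg d) = T.io P.v →
      t.Rs p d * t.Rs p (T.sg d) * t.Ri p (T.sg (T.sg d)) =
        step false (p.1 (T.sg (T.sg d))) * (t.B p)⁻¹)

/-- Telescoping.  PROOF as `S_tele` (four cases: turn `true`/`false`, portal or not), from
`C_str`, `C_H`, `C_R`: `false`: start from the case `i = 0` (`C_R`) and use
`str w * step = step * str (snext w)`; likewise `true` starting from `i = c d`.  For the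
portal steps the indices of `snext w` start at `0` on `v`, and at `num u` on `io u`. -/
def C_tele : Prop := ∀ {D : Type} [Fintype D] [DecidableEq D] (T : Tri D) (P : Portal T)
  (t : PTD P) (p : (D → ℝ) × ℝ), (∀ d, p.1 (T.io d) = p.1 d) → ∀ d i, i < T.num t.c d →
    (if Tri.sbit t.c (d, i) then t.Rs p d else t.Rs p d * t.Rs p (T.sg d)) *
        t.xR p (Portal.out (T := T) t.c (d, i)) =
      t.Pd p d i * P.hol p (P.sletters t.c t.a (d, i)) d *
        (t.Pd p (P.snext t.c t.a (d, i)).1 (P.snext t.c t.a (d, i)).2)⁻¹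

/-! ## Part 3: the twisted surface -/

/-- The eigenvector.  PROOF. `Mp = rot u * (J * B * J⁻¹)` and `rot u * J = J * (rot v)⁻¹`.
Every strand `(v, k)`, `k < a`, ends its word (after `Q` steps) with `cf 0`, so
`str (v, k) = Y_k * J` with `Y_k` a product of letters, and `J * str * J⁻¹ = J * Y_k`.
CASE `m ≥ 0`: `J * B * J⁻¹ = ∏ (J * Y_k)^m` is `1` or positive, `rot u` is lower triangular with
diagonal `(e^(l/2), e^(-l/2))` and positive entry `1 0`, so `Mp` has trace `> 2`, entries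
`0 0 > 1/kap`, `0 1 ≥ 0`, `1 0 > 0`; `xiu ≥ 0`, and everything is positive.
CASE `m ≤ 0`: `Mp⁻¹ = J * (B⁻¹ * rot v) * J⁻¹` with `B⁻¹` and `rot v` nonnegative, let `η > 0` be
the eigenvector of `B⁻¹ * rot v` for the large eigenvalue; `(-xiu, 1)` is proportional to
`J η`, and to `rot u * J * rot v * η`; the tails at the other darts are the images of `η` (or
`J η`) under products of matrices beginning with `step false`, which maps positive vectors to
vectors with second entry larger than the first; so `-1 < xi ≤ 0`.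
Relation (6) is (5) for `sg d` (note `io d = rho (sg d)`), written out. -/
def C_eig : Prop := ∀ {D : Type} [Fintype D] [DecidableEq D] (T : Tri D) (P : Portal T)
  (t : PTD P), ∀ p ∈ P.Teich,
    2 < tr (t.Mp p) ∧ 1 < t.kap p ∧ (t.Mp p).1 0 0 - (t.kap p)⁻¹ ≠ 0 ∧
    t.xi p P.u = t.xiu p ∧ t.xi p P.v = t.xiv p ∧
    (∀ d, -1 < t.xi p d) ∧ ((∀ w, 0 ≤ t.m w) → ∀ d, 0 ≤ t.xi p d) ∧
    ((∀ w, t.m w ≤ 0) → ∀ d, t.xi p d ≤ 0) ∧
    0 < t.om p ∧
    Act (t.Mp p) (t.xi p P.u) (t.xi p P.u) (t.kap p)⁻¹ ∧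
    Act (t.RJ p) (t.xi p P.v) (t.xi p P.u) (t.om p) ∧
    (∀ d, ∃ r, 0 < r ∧ Act (t.Rs p d * t.Rs p (T.sg d) * t.Ri p (T.sg (T.sg d)))
      (t.xi p (T.rho d)) (t.xi p d) r) ∧
    (∀ d, d ≠ T.io P.u → d ≠ T.io P.v →
      t.xi p (T.io d) * exp (-(p.1 d)) * (1 + t.xi p (T.sg d)) = t.xi p (T.sg d)) ∧
    (∀ d, (∀ j, T.rho^[j] d ≠ P.u) → (∀ j, T.rho^[j] d ≠ P.v) → t.xi p d = 0) ∧
    0 < (Portal.rot (T := T) p.1 P.u * P.J p).1 0 0 +
      (Portal.rot (T := T) p.1 P.u * P.J p).1 1 0 * t.xiu p ∧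
    (∀ j < Function.minimalPeriod T.rho P.u, 0 < (Portal.turns (T := T) p.1 P.u j).1 0 0 +
      (Portal.turns (T := T) p.1 P.u j).1 1 0 * t.xiu p) ∧
    (∀ j < Function.minimalPeriod T.rho P.v, 0 < (Portal.turns (T := T) p.1 P.v j).1 0 0 +
      (Portal.turns (T := T) p.1 P.v j).1 1 0 * t.xiv p)

/-- PROOF. `la = det ((h0, h1), (-xi d, 1))`.  `m ≥ 0`: `H d` is a product of positive
matrices or 1, `xi ≥ 0`.  `m ≤ 0`: `H d` has the signs `(+,-;-,+)` (or is 1), `-1 < xi ≤ 0`: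
`h0 > 0`, `h1 ≤ 0`. -/
def C_la : Prop := ∀ {D : Type} [Fintype D] [DecidableEq D] (T : Tri D) (P : Portal T)
  (t : PTD P), ∀ p ∈ P.Teich, ∀ d, 0 < t.la p d

/-- THE GAUGE.  PROOF as `S_gauge` from `C_R`, `C_eig`, `C_la`.  `a d = e^(al d / 2)`, so that
`a d * a (sg d) = la d`; the columns of `g d` are `(h0 d, h1 d) * a d / la d` and
`(-xi d, 1) / a d`.  `Rs d * (-xi (sg d), 1) = -(h0 d, h1 d)`.
`Ri d * (-xi (io d), 1) = e^(x d / 2) / (1 + xi (sg d)) * (h0 d, h1 d)` for `d ≠ io u, io v`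
(`C_eig`).  Both sides of each matrix identity have determinant 1 and agree on `(0, 1)`; compare
in addition one coordinate (third vertex: `Rs^3 = -1`; `Ri d * Ri (io d) = -1`).
For `io u`, `io v` take inverses.  Last: `RJ * (-xi v, 1) = om * (-xi u, 1)` (`C_eig`). -/
def C_gauge : Prop := ∀ {D : Type} [Fintype D] [DecidableEq D] (T : Tri D) (P : Portal T)
  (t : PTD P), ∀ p ∈ P.Teich, ∃ g : D → SL, (∀ d,
    t.Rs p d * g (T.sg d) = g d * W ∧ t.Ri p d * g (T.io d) = g d * E ((t.tw p).1 d) ∧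
    (g d).1 0 1 = -(t.xi p d) * (g d).1 1 1 ∧ 0 < (g d).1 1 1) ∧
    ((g P.u)⁻¹ * t.RJ p * g P.v).1 0 1 = 0 ∧
    ((g P.u)⁻¹ * t.RJ p * g P.v).1 1 1 = exp (-(t.tw p).2 / 2)

/-- PROOF from `C_gauge`, `C_R`, `C_eig`, `C_J`.  `E ((tw p).1 d) * E ((tw p).1 (io d)) = -1` by the
gauge and `C_R`, so `tw p` is `io`-invariant.  Let `S` be the sum of the new shears around the tail
of `d`: `rot (tw p).1 d = (g d)⁻¹ * (twisted rotation) * g d`, and `(0, 1)` is an eigenvector with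
eigenvalue `e^(S/2)`; the twisted rotation at `u` is `Mp` (`C_R`: the darts from `u` are passed
before the edge of `io u`), with `(-xi u, 1)` as eigenvector of eigenvalue `1/kap`; so
`S = -2 log kap`; at `v` it is `rot v * B⁻¹ = RJ⁻¹ * Mp⁻¹ * RJ`, so `S = 2 log kap`; at the other
punctures nothing changes.  The relation `rot' u * L = L * (rot' v)⁻¹` for
`L = (g u)⁻¹ * RJ * g v` and its diagonal give `L = J (tw p)`. -/
def C_twT : Prop := ∀ {D : Type} [Fintype D] [DecidableEq D] (T : Tri D) (P : Portal T)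
  (t : PTD P), ∀ p ∈ P.Teich, t.tw p ∈ P.Teich ∧ T.cyc (t.tw p).1 P.v = 2 * log (t.kap p) ∧
    ∀ g : D → SL, (∀ d,
      t.Rs p d * g (T.sg d) = g d * W ∧ t.Ri p d * g (T.io d) = g d * E ((t.tw p).1 d) ∧
      (g d).1 0 1 = -(t.xi p d) * (g d).1 1 1 ∧ 0 < (g d).1 1 1) →
      ((g P.u)⁻¹ * t.RJ p * g P.v).1 0 1 = 0 →
      ((g P.u)⁻¹ * t.RJ p * g P.v).1 1 1 = exp (-(t.tw p).2 / 2) →
      t.RJ p * g P.v = g P.u * P.J (t.tw p)

/-- PROOF. `C_tele` telescoped over the `Q` steps, as `S_loop`; here `hol (tw p)` of the letters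
of one step is, by the gauge, `(g d)⁻¹ * (Rs ..) * xR * g`. -/
def C_loop : Prop := ∀ {D : Type} [Fintype D] [DecidableEq D] (T : Tri D) (P : Portal T)
  (t : PTD P), ∀ p ∈ P.Teich, ∀ g : D → SL, (∀ d,
    t.Rs p d * g (T.sg d) = g d * W ∧ t.Ri p d * g (T.io d) = g d * E ((t.tw p).1 d)) →
    t.RJ p * g P.v = g P.u * P.J (t.tw p) → (∀ d, (t.tw p).1 (T.io d) = (t.tw p).1 d) →
    ∀ d i, i < T.num t.c d →
      t.str (t.tw p) (d, i) = (g d)⁻¹ * t.Pd p d i * t.str p (d, i) * (t.Pd p d i)⁻¹ * g d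

/-- PROOF as `S_same` (`C_gauge`, `C_twT`, `C_loop`); the groupoid has the additional generator
`RJ = J * B⁻¹`, and `B` is a product of powers of loops at `v`; `Ri (io u)`, `Ri (io v)` are
inverses up to sign of `Ri u`, `Ri v`. -/
def C_same : Prop := ∀ {D : Type} [Fintype D] [DecidableEq D] (T : Tri D) (P : Portal T)
  (t : PTD P), ∀ p ∈ P.Teich, P.SameModuli p (t.tw p)

/-- PROOF. `W * k (sg d) = k d * W` with all `k d` lower triangular forces
`k d = ± 1` (look at `(0,1)`, `(1,0)`, `(1,1)`); then `E s = ± E s'` gives `s = s'`, and `J` gives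
the twist. -/
def C_uniq : Prop := ∀ {D : Type} [Fintype D] [DecidableEq D] (T : Tri D) (P : Portal T),
  ∀ p q : (D → ℝ) × ℝ, ∀ k : D → SL, (∀ d, W * k (T.sg d) = k d * W ∧
    E (p.1 d) * k (T.io d) = k d * E (q.1 d) ∧ (k d).1 0 1 = 0) →
    P.J p * k P.v = k P.u * P.J q → p = q

/-- TWISTING BACK.  PROOF. Let `g` be the gauge of `t` at `p`, `q = tw p`, `g'` that of `t.neg` at
`q`.  By `C_loop` `t.neg.H q d = (g d)⁻¹ * (t.H p d)⁻¹ * g d`, `t.neg.B q = (g v)⁻¹ * (t.B p)⁻¹ * g v`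
(`k_i = Pd i * str * (Pd i)⁻¹`, `H = k_(N-1)^m ⋯ k_0^m`), so `t.neg.Rs q d = (g d)⁻¹ * W * g (sg d)`,
`t.neg.Ri q d = (g d)⁻¹ * E * g (io d)`, `t.neg.RJ q = (g u)⁻¹ * J p * g v`,
`t.neg.Mp q = (g u)⁻¹ * rot u * g u`.  `k d = g d * g' d` satisfies the hypotheses of `C_uniq`:
`g' u` maps `(0,1)` to the eigenvector of `t.neg.Mp q` for the small eigenvalue, which is
`(g u)⁻¹ (0,1)`; at the other darts by the rotation relations of `C_eig` (also `v` by `RJ`), and
at the punctures `xi = 0`. -/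
def C_inv : Prop := ∀ {D : Type} [Fintype D] [DecidableEq D] (T : Tri D) (P : Portal T)
  (t : PTD P), ∀ p ∈ P.Teich, t.neg.tw (t.tw p) = p

/-- PROOF. All formulas are continuous where the denominators and logarithms are taken at nonzero
and positive numbers (`C_eig`, `C_la`). -/
def C_twc : Prop := ∀ {D : Type} [Fintype D] [DecidableEq D] (T : Tri D) (P : Portal T)
  (t : PTD P), Continuous (fun p : P.Teich => t.tw (p : (D → ℝ) × ℝ))

/-! ## Part 4: directions and asymptotics -/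

/-- PROOF. Put `l = cyc p.1 v`.  As in `S_cob` (apply it around every puncture to `y` corrected by
the jump) there is `q : D → ℝ` with `q (sg d) - q (io d) = p.1 d` for `d ≠ io u, io v`,
`q (sg (io u)) - q u = p.1 u + l`, `q (sg (io v)) - q v = p.1 v - l` (around the tail of `u`:
`q (rho⁻¹ d) = q d + p.1 d (+ l if d = u) (- l if d = v)`); add a constant around the tail of `v`
so that `q v - q u - l = p.2`.  `N d = q d + q (sg d)` satisfies the conditions of `Match` with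
`l` for `a`.  Approximate `N`, `l` by even integers divided by `2 M`, with the same conditions;
`c' d = (N' d + N' (sg (sg d)) - N' (sg d))/2` is an integer; subtract the minimum around every
puncture other than the two, and add one large constant around the tails of `u` and `v`. -/
def C_dir : Prop := ∀ {D : Type} [Fintype D] [DecidableEq D] (T : Tri D) (P : Portal T),
  ∀ p ∈ P.Teich, ∀ ε : ℝ, 0 < ε → ∃ (c : D → ℕ) (a : ℕ), 0 < a ∧ P.Match c a ∧
    (∀ d, (∀ j, T.rho^[j] d ≠ P.u) → (∀ j, T.rho^[j] d ≠ P.v) →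
      ∃ j, c (T.rho^[j] d) = 0) ∧
    ∃ M : ℝ, 0 < M ∧ (∀ d, |(P.dirc c a).1 d / M - p.1 d| < ε) ∧
      |(P.dirc c a).2 / M - p.2| < ε

/-- Bound for the new tails.  PROOF. In the case `m ≥ 0` with `m ≥ 1` on the strands `(v, k)`:
`Mp = rot u * ∏ (J Y_k)^m` (see `C_eig`) ends with the fixed positive matrix `Z = J Y_(a-1)`, so
`Mp 1 1 / Mp 1 0 ≤ max (Z 0 1 / Z 0 0, Z 1 1 / Z 1 0)`, and `xiu < Mp 1 1 / Mp 1 0` as
`Mp 1 1 - Mp 1 0 * xiu = 1/kap > 0`; the other `xi d` are `mob` of it,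
`mob g s ≤ s / (g 0 0)^2`.  The word of `(v, k)` does not depend on `m`. -/
def C_bd : Prop := ∀ {D : Type} [Fintype D] [DecidableEq D] (T : Tri D) (P : Portal T),
  ∀ p ∈ P.Teich, ∀ (c : D → ℕ) (a Q : ℕ), ∃ C : ℝ, ∀ t : PTD P, t.c = c → t.a = a → t.Q = Q →
    (∀ w, 0 ≤ t.m w) → (∀ k < a, 0 < t.m (P.v, k)) → ∀ d, t.xi p d ≤ C

/-- ASYMPTOTICS.  PROOF as `S_asym`, `m w = ⌊n / L w⌋`, `L w` the length of the strand `w`.
`log (entries of H d) / n → num c d / 2` (`C_pos`, `S_pow`), `0 ≤ xi ≤ C` (`C_bd`, `C_eig`), so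
`Lam d / n → num c d / 2`, `al d / n → c d`, `log kap / n → a / 2` (trace of `Mp`, in which
`J * B * J⁻¹ = ∏ (J Y_k)^m`), `log om / n → a / 2`. -/
def C_asym : Prop := ∀ {D : Type} [Fintype D] [DecidableEq D] (T : Tri D) (P : Portal T),
  ∀ p ∈ P.Teich, ∀ (c : D → ℕ) (a : ℕ), 0 < a → P.Match c a →
    (∀ d, (∀ j, T.rho^[j] d ≠ P.u) → (∀ j, T.rho^[j] d ≠ P.v) →
      ∃ j, c (T.rho^[j] d) = 0) →
    ∃ t : ℕ → PTD P, (∀ d, Tendsto (fun n : ℕ => ((t n).tw p).1 d / n) atTop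
      (𝓝 ((P.dirc c a).1 d))) ∧
      Tendsto (fun n : ℕ => ((t n).tw p).2 / n) atTop (𝓝 (P.dirc c a).2)

/-- PROOF. Take `N d = 1`, except `N (io u) = N v = 2`, `c d = (N d + N (sg (sg d)) - N (sg d))/2`
(real numbers), `x d = c (sg d) - c (io d)` for `d ≠ io u, io v`, `x (io u) = x u`,
`x (io v) = x v`; then `cyc x v = 1`, `cyc x u = -1`, the others vanish: telescoping with a jump
(`x d = c (rho⁻¹ d) - c d`, plus `1` for `d = v`, minus `1` for `d = u`). -/
def C_ne : Prop := ∀ {D : Type} [Fintype D] [DecidableEq D] (T : Tri D) (P : Portal T),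
  P.Teich.Nonempty

/-! ## The result -/

/-- A dense Thurston geodesic on every surface with a nonseparating curve `α` such that the
complement is `T`.  PROOF: helper568, as `DG/Main.lean`. -/
def C_main : Prop := ∀ {D : Type} [Fintype D] [DecidableEq D] (T : Tri D) (P : Portal T),
  ∃ G : ℝ → P.Teich, (∀ s t, s ≤ t → P.dTh (G s) (G t) = t - s) ∧
    ∀ O : Set P.Teich, IsOpen O → O.Nonempty → ∃ t, ∃ x ∈ O, P.SameModuli (G t) x

end Run7.h568.DG
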