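import Pool.Agent.Run7.h568.DG.Defs

/-!
# Dense Thurston geodesics: surfaces cut along a nonseparating curve (definitions)

The surface is obtained from the triangulated punctured surface `T` by gluing two of its punctures
(the tails of `u` and `v`): these are the two sides of a simple closed curve `α`.
-/

open Real Matrix

noncomputable section

namespace Run7.h568.DG

variable {D : Type} [Fintype D] [DecidableEq D]

/-- Sum of the shears around the tail of `d`. -/
def Tri.cyc (T : Tri D) (x : D → ℝ) (d : D) : ℝ :=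
  ∑ j ∈ Finset.range (Function.minimalPeriod T.rho d), x (T.rho^[j] d)

/-- Two darts with different tails (and lying on different edges): the two tails become the two
sides of the curve `α`. -/
structure Portal (T : Tri D) where
  u : D
  v : D
  huv : ∀ j, T.rho^[j] u ≠ v
  hne : v ≠ T.io u

/-- One letter of a path: a turn in a triangle, or a crossing of `α` with winding number `n`, from
the dart `u` to the dart `v` (`cf n`) or from `io v` to `io u` (`ct n`). -/
inductive Letter : Type
  | turn (b : Bool) : Letter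
  | cf (n : ℤ) : Letter
  | ct (n : ℤ) : Letter

/-- Letters which turn around the head of the dart. -/
def Letter.isT : Letter → Prop
  | .turn b => b = true
  | .cf _ => False
  | .ct _ => True

/-- Letters which turn around the tail of the dart. -/
def Letter.isF : Letter → Prop
  | .turn b => b = false
  | .cf _ => True
  | .ct _ => False

namespace Portal

variable {T : Tri D} (P : Portal T)

/-- The dart lies on the edge of `u` or of `v`. -/
def Special (d : D) : Prop := d = P.u ∨ d = T.io P.u ∨ d = P.v ∨ d = T.io P.v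

/-- Teichmueller space: shears `p.1` and a twist parameter `p.2`.  The length of `α` is the sum
of the shears around the tail of `v`, and minus the sum around the tail of `u`; the sum around
every other puncture is zero. -/
def Teich : Set ((D → ℝ) × ℝ) :=
  {p | (∀ d, p.1 (T.io d) = p.1 d) ∧ 0 < T.cyc p.1 P.v ∧ T.cyc p.1 P.u = - T.cyc p.1 P.v ∧
    ∀ d, (∀ j, T.rho^[j] d ≠ P.u) → (∀ j, T.rho^[j] d ≠ P.v) → T.cyc p.1 d = 0}

/-- Holonomy of `j` turns around the tail of `d`. -/
def turns (x : D → ℝ) (d : D) (j : ℕ) : SL := T.hol x (List.replicate j false) d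

/-- Holonomy of one full turn around the tail of `d`. -/
def rot (x : D → ℝ) (d : D) : SL := turns (T := T) x d (Function.minimalPeriod T.rho d)

/-- Crossing of `α` from the dart `u` to the dart `v`. -/
def J (p : (D → ℝ) × ℝ) : SL :=
  ⟨!![exp (p.2 / 2), 0;
      ((rot (T := T) p.1 P.u).1 1 0 * exp (p.2 / 2) +
        (rot (T := T) p.1 P.v).1 1 0 * exp (-p.2 / 2)) / (2 * sinh (T.cyc p.1 P.v / 2)),
      exp (-p.2 / 2)], by
    rw [Matrix.det_fin_two]; simp [← exp_add]; try ring_nf; try simp⟩

/-- Is the letter allowed at the dart `d`? -/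
def ok (d : D) : Letter → Prop
  | .turn _ => True
  | .cf _ => d = P.u
  | .ct _ => d = T.io P.v

/-- The next dart. -/
def nxt (d : D) : Letter → D
  | .turn b => T.nxt b d
  | .cf _ => P.v
  | .ct _ => T.io P.u

/-- The holonomy of a letter at the dart `d`. -/
def mat (p : (D → ℝ) × ℝ) (d : D) : Letter → SL
  | .turn b => step b (p.1 (T.turn b d))
  | .cf n => rot (T := T) p.1 P.u ^ n * P.J p
  | .ct n => E (p.1 P.v) * (rot (T := T) p.1 P.u ^ n * P.J p)⁻¹ * (E (p.1 P.u))⁻¹

/-- A word of letters can be followed from the dart `d`. -/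
def Valid : List Letter → D → Prop
  | [], _ => True
  | l :: w, d => P.ok d l ∧ Valid w (P.nxt d l)

/-- End of the path. -/
def endp : List Letter → D → D
  | [], d => d
  | l :: w, d => endp w (P.nxt d l)

/-- Holonomy of the path. -/
def hol (p : (D → ℝ) × ℝ) : List Letter → D → SL
  | [], _ => 1
  | l :: w, d => P.mat p d l * hol p w (P.nxt d l)

/-- Closed words with letters of both types: the cutting sequences of the closed geodesics of
the surface other than the powers of `α`. -/
def Closed (w : List Letter) (d : D) : Prop :=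
  P.Valid w d ∧ P.endp w d = d ∧ (∃ l ∈ w, l.isT) ∧ ∃ l ∈ w, l.isF

/-- Length of a closed geodesic. -/
def len (p : (D → ℝ) × ℝ) (w : List Letter) (d : D) : ℝ :=
  2 * log ((tr (P.hol p w d) + √(tr (P.hol p w d) ^ 2 - 4)) / 2)

/-- Matching of a family of strands with `a` strands crossing `α`; these cross the edge of `io u`
next to its head and the edge of `v` next to its tail. -/
def Match (c : D → ℕ) (a : ℕ) : Prop :=
  (∀ d, ¬ P.Special d → T.num c (T.io d) = T.num c d) ∧
  T.num c (T.io P.u) = T.num c P.u + a ∧ T.num c P.v = T.num c (T.io P.v) + a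

/-- A strand leaves a triangle through its side `s.1` at the position `s.2`, counted from the tail
of `s.1`: the dart and the position at which it enters the next triangle.  The last `a`
positions of `io u` are joined with the first `a` positions of `v`, across `α`. -/
def cross (c : D → ℕ) (a : ℕ) (s : D × ℕ) : D × ℕ :=
  if s.1 = T.io P.u then
    (if T.num c P.u ≤ s.2 then (P.v, T.num c (T.io P.u) - 1 - s.2)
      else (P.u, T.num c P.u - 1 - s.2))
  else if s.1 = P.v then
    (if s.2 < a then (T.io P.u, T.num c (T.io P.u) - 1 - s.2)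
      else (T.io P.v, T.num c P.v - 1 - s.2))
  else if s.1 = T.io P.v then (P.v, T.num c P.v - 1 - s.2)
  else (T.io s.1, T.num c s.1 - 1 - s.2)

/-- Side and position at which the strand `w` leaves the triangle which it enters through the
dart `w.1` at the position `w.2` (both counted from the tail). -/
def out (c : D → ℕ) (w : D × ℕ) : D × ℕ :=
  if w.2 < c w.1 then (T.sg (T.sg w.1), T.num c (T.sg (T.sg w.1)) - 1 - w.2)
  else (T.sg w.1, T.num c w.1 - 1 - w.2)

/-- One step of a strand. -/
def snext (c : D → ℕ) (a : ℕ) (w : D × ℕ) : D × ℕ := P.cross c a (out (T := T) c w)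

/-- The letters of one step of a strand. -/
def sletters (c : D → ℕ) (a : ℕ) (w : D × ℕ) : List Letter :=
  Letter.turn (Tri.sbit c w) ::
    (if (out (T := T) c w).1 = T.io P.u ∧ T.num c P.u ≤ (out (T := T) c w).2 then [Letter.cf 0]
     else if (out (T := T) c w).1 = P.v ∧ (out (T := T) c w).2 < a then [Letter.ct 0] else [])

/-- The letters of `n` steps of a strand. -/
def itin (c : D → ℕ) (a : ℕ) : ℕ → D × ℕ → List Letter
  | 0, _ => []
  | n + 1, w => P.sletters c a w ++ itin c a n (P.snext c a w)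

/-- Transport from the dart `s.1` to the dart of `cross c a s`. -/
def xm (p : (D → ℝ) × ℝ) (c : D → ℕ) (a : ℕ) (s : D × ℕ) : SL :=
  if s.1 = T.io P.u ∧ T.num c P.u ≤ s.2 then E (p.1 P.u) * P.J p
  else if s.1 = P.v ∧ s.2 < a then (P.J p)⁻¹ * E (p.1 P.u)
  else E (p.1 s.1)

/-- Simple closed curves other than `α`: the closed strands of the families of disjoint strands. -/
def Simple (w : List Letter) (d : D) : Prop :=
  ∃ (c : D → ℕ) (a : ℕ), P.Match c a ∧ ∃ i, i < T.num c d ∧ ∃ n, 0 < n ∧
    (P.snext c a)^[n] (d, i) = (d, i) ∧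
    (∀ k, 0 < k → k < n → (P.snext c a)^[k] (d, i) ≠ (d, i)) ∧ w = P.itin c a n (d, i)

/-- Thurston's distance: supremum over the essential simple closed curves, `α` included. -/
def dTh (p q : (D → ℝ) × ℝ) : ℝ :=
  log (sSup {r : ℝ | (∃ w d, P.Closed w d ∧ P.Simple w d ∧ r = P.len q w d / P.len p w d) ∨
    r = T.cyc q.1 P.v / T.cyc p.1 P.v})

/-- Transport of frames, up to sign, along the paths of the surface. -/
inductive Path (p : (D → ℝ) × ℝ) (d : D) : D → SL → Prop
  | one : Path p d d 1
  | neg {d' : D} {g : SL} : Path p d d' g → Path p d d' (-g)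
  | sg {d' : D} {g : SL} : Path p d d' g → Path p d (T.sg d') (g * W)
  | io {d' : D} {g : SL} : Path p d d' g → Path p d (T.io d') (g * E (p.1 d'))
  | cr {g : SL} : Path p d P.u g → Path p d P.v (g * P.J p)
  | ri {g : SL} : Path p d P.v g → Path p d P.u (g * (P.J p)⁻¹)

/-- Conjugate Fuchsian groups: the same point of moduli space. -/
def SameModuli (p q : (D → ℝ) × ℝ) : Prop :=
  ∀ d, ∃ g : SL, ∀ h : SL, P.Path q d d h ↔ P.Path p d d (g * h * g⁻¹)

end Portal

/-! ### Twists -/

/-- A family of strands crossing `α`, a common period, and exponents. -/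
structure PTD {T : Tri D} (P : Portal T) where
  c : D → ℕ
  a : ℕ
  ha : 0 < a
  hc : P.Match c a
  hn : ∀ d, (∀ j, T.rho^[j] d ≠ P.u) → (∀ j, T.rho^[j] d ≠ P.v) → ∃ j, c (T.rho^[j] d) = 0
  Q : ℕ
  hQ : 0 < Q
  per : ∀ d i, i < T.num c d → (P.snext c a)^[Q] (d, i) = (d, i)
  m : D × ℕ → ℤ
  m_next : ∀ d i, i < T.num c d → m (P.snext c a (d, i)) = m (d, i)
  m_rev : ∀ d i, i < T.num c d → m (P.cross c a (d, i)) = m (d, i)
  sgn : (∀ w, 0 ≤ m w) ∨ (∀ w, m w ≤ 0)

namespace PTD

variable {T : Tri D} {P : Portal T} (t : PTD P)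

/-- Opposite exponents. -/
def neg : PTD P where
  c := t.c
  a := t.a
  ha := t.ha
  hc := t.hc
  hn := t.hn
  Q := t.Q
  hQ := t.hQ
  per := t.per
  m := fun w => - t.m w
  m_next := fun d i h => by simp [t.m_next d i h]
  m_rev := fun d i h => by simp [t.m_rev d i h]
  sgn := by
    rcases t.sgn with h | h
    · exact Or.inr fun w => by simpa using h w
    · exact Or.inl fun w => by simpa using h w

/-- Holonomy of the strand `w`, followed `Q` steps. -/
def str (p : (D → ℝ) × ℝ) (w : D × ℕ) : SL := P.hol p (P.itin t.c t.a t.Q w) w.1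

/-- Product of the first `n` strand powers along the dart `d`. -/
def Pd (p : (D → ℝ) × ℝ) (d : D) (n : ℕ) : SL :=
  ((List.range n).map (fun i => t.str p (d, i) ^ t.m (d, i))).prod

/-- Product of all strand powers along the dart `d`. -/
def H (p : (D → ℝ) × ℝ) (d : D) : SL := t.Pd p d (T.num t.c d)

/-- Product of the powers of the strands crossing `α`. -/
def B (p : (D → ℝ) × ℝ) : SL := t.Pd p P.v t.a

/-- The twisted transports: rotation of a triangle. -/
def Rs (p : (D → ℝ) × ℝ) (d : D) : SL := t.H p d * W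

/-- The twisted transports: crossing an edge. -/
def Ri (p : (D → ℝ) × ℝ) (d : D) : SL :=
  if d = T.io P.u then -(t.H p P.u * E (p.1 P.u))⁻¹
  else if d = T.io P.v then -(t.H p P.v * E (p.1 P.v))⁻¹
  else t.H p d * E (p.1 d)

/-- The twisted transports: crossing `α`. -/
def RJ (p : (D → ℝ) × ℝ) : SL := P.J p * (t.B p)⁻¹

/-- The twisted transports: from the dart `s.1` to the dart of `cross c a s`. -/
def xR (p : (D → ℝ) × ℝ) (s : D × ℕ) : SL :=
  if s.1 = T.io P.u ∧ T.num t.c P.u ≤ s.2 then t.Ri p (T.io P.u) * t.RJ p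
  else if s.1 = P.v ∧ s.2 < t.a then (t.RJ p)⁻¹ * t.Ri p P.u
  else t.Ri p s.1

/-- Twisted holonomy of the turn around the tail of `u`. -/
def Mp (p : (D → ℝ) × ℝ) : SL :=
  Portal.rot (T := T) p.1 P.u * (P.J p * t.B p * (P.J p)⁻¹)

/-- Its large eigenvalue. -/
def kap (p : (D → ℝ) × ℝ) : ℝ := (tr (t.Mp p) + √(tr (t.Mp p) ^ 2 - 4)) / 2

/-- `(-xiu, 1)` is its eigenvector for the eigenvalue `1 / kap`. -/
def xiu (p : (D → ℝ) × ℝ) : ℝ := (t.Mp p).1 0 1 / ((t.Mp p).1 0 0 - (t.kap p)⁻¹)

/-- Action of the inverse of the lower triangular matrix `g` on the vector `(-s, 1)`. -/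
def mob (g : SL) (s : ℝ) : ℝ := s / (g.1 0 0 * (g.1 0 0 + g.1 1 0 * s))

/-- The same eigenvector in the frame of `v`. -/
def xiv (p : (D → ℝ) × ℝ) : ℝ := mob (Portal.rot (T := T) p.1 P.u * P.J p) (t.xiu p)

/-- Its scale. -/
def om (p : (D → ℝ) × ℝ) : ℝ :=
  t.kap p / ((Portal.rot (T := T) p.1 P.u * P.J p).1 0 0 +
    (Portal.rot (T := T) p.1 P.u * P.J p).1 1 0 * t.xiu p)

open Classical in
/-- `(-xi d, 1)` is the new tail of the dart `d`, in its frame. -/
def xi (p : (D → ℝ) × ℝ) (d : D) : ℝ :=
  if h : ∃ j, T.rho^[j] P.u = d then mob (Portal.turns (T := T) p.1 P.u (Nat.find h)) (t.xiu p)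
  else if h : ∃ j, T.rho^[j] P.v = d then
    mob (Portal.turns (T := T) p.1 P.v (Nat.find h)) (t.xiv p)
  else 0

/-- `(h0, h1)` is the new head of the dart `d`, in its frame. -/
def h0 (p : (D → ℝ) × ℝ) (d : D) : ℝ :=
  (t.H p d).1 0 0 * (1 + t.xi p (T.sg d)) + (t.H p d).1 0 1 * t.xi p (T.sg d)

def h1 (p : (D → ℝ) × ℝ) (d : D) : ℝ :=
  (t.H p d).1 1 0 * (1 + t.xi p (T.sg d)) + (t.H p d).1 1 1 * t.xi p (T.sg d)

/-- The change of the lambda length of the edge of `d`: the determinant of head and tail. -/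
def la (p : (D → ℝ) × ℝ) (d : D) : ℝ := t.h0 p d + t.xi p d * t.h1 p d

/-- Logarithm of `la`. -/
def Lam (p : (D → ℝ) × ℝ) (d : D) : ℝ := log (t.la p d)

/-- Twice the logarithm of the scale of the frame of `d`. -/
def al (p : (D → ℝ) × ℝ) (d : D) : ℝ := t.Lam p d + t.Lam p (T.sg (T.sg d)) - t.Lam p (T.sg d)

/-- New shear of a dart other than `io u`, `io v`. -/
def tw1 (p : (D → ℝ) × ℝ) (d : D) : ℝ :=
  p.1 d + t.al p (T.sg d) - t.al p (T.io d) - 2 * log (1 + t.xi p (T.sg d))

/-- The twisted surface. -/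
def tw (p : (D → ℝ) × ℝ) : (D → ℝ) × ℝ :=
  (fun d => if d = T.io P.u then t.tw1 p P.u else if d = T.io P.v then t.tw1 p P.v
    else t.tw1 p d,
   t.al p P.v - t.al p P.u - 2 * log (t.om p))

end PTD

/-- Asymptotic direction of the twists along the family `c`, `a`. -/
def Portal.dirc {T : Tri D} (P : Portal T) (c : D → ℕ) (a : ℕ) : (D → ℝ) × ℝ :=
  (fun d => if d = T.io P.u then (c (T.sg P.u) : ℝ) - c (T.io P.u)
    else if d = T.io P.v then (c (T.sg P.v) : ℝ) - c (T.io P.v)
    else (c (T.sg d) : ℝ) - c (T.io d),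
   (c P.v : ℝ) - c P.u - a)

end Run7.h568.DG
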