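import Pool.Agent.Run7.h568.DG.CIface

/-!
# Closed surfaces: assembly (Baire category)
-/

open Real Matrix Filter Topology

noncomputable section

namespace Run7.h568.DG

variable {D : Type} [Fintype D] [DecidableEq D]

theorem cyc_cont (T : Tri D) (d : D) : Continuous fun p : (D → ℝ) × ℝ => T.cyc p.1 d := by
  unfold Tri.cyc
  exact continuous_finsetSum _ fun j _ => (continuous_apply _).comp continuous_fst

theorem Teich_lc (T : Tri D) (P : Portal T) : IsLocallyClosed P.Teich := by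
  have e : P.Teich = {p | 0 < T.cyc p.1 P.v} ∩ ({p | ∀ d, p.1 (T.io d) = p.1 d} ∩
      ({p | T.cyc p.1 P.u = - T.cyc p.1 P.v} ∩
      {p | ∀ d, (∀ j, T.rho^[j] d ≠ P.u) → (∀ j, T.rho^[j] d ≠ P.v) → T.cyc p.1 d = 0})) := by
    ext p
    simp only [Portal.Teich, Set.mem_setOf_eq, Set.mem_inter_iff]
    tauto
  rw [e]
  refine IsLocallyClosed.inter (IsOpen.isLocallyClosed ?_) (IsClosed.isLocallyClosed ?_)
  · exact isOpen_lt continuous_const (cyc_cont T _)
  · refine IsClosed.inter ?_ (IsClosed.inter ?_ ?_)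
    · simp only [Set.setOf_forall]
      refine isClosed_iInter fun d => isClosed_eq ?_ ?_
      · exact (continuous_apply _).comp continuous_fst
      · exact (continuous_apply _).comp continuous_fst
    · exact isClosed_eq (cyc_cont T _) (cyc_cont T _).neg
    · simp only [Set.setOf_forall]
      refine isClosed_iInter fun d => isClosed_iInter fun _ => isClosed_iInter fun _ =>
        isClosed_eq (cyc_cont T _) continuous_const

/-- Transitivity. -/
theorem Ctransitive (hmat : C_mat) (hdir : C_dir) (hasym : C_asym) (hinv : C_inv)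
    (htwT : C_twT) (T : Tri D) (P : Portal T) (Z p : P.Teich) (ε : ℝ) (hε : 0 < ε) :
    ∃ p' : P.Teich, dist p' p < ε ∧ ∃ s : ℝ, ∃ t : PTD P,
      t.neg.tw (exp s • (p' : (D → ℝ) × ℝ)) = Z := by
  obtain ⟨c, a, ha, hc, hn, M, hM, hM1, hM2⟩ := hdir T P p p.2 (ε / 4) (by linarith)
  obtain ⟨t, ht1, ht2⟩ := hasym T P Z Z.2 c a ha hc hn
  set X : ℕ → (D → ℝ) × ℝ := fun n => (t n).tw (Z : (D → ℝ) × ℝ) with hX
  have h1 : ∀ᶠ n : ℕ in atTop, ∀ d, |(X n).1 d / (n * M) - (P.dirc c a).1 d / M| < ε / 4 := by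
    rw [eventually_all]
    intro d
    have h : Tendsto (fun n : ℕ => (X n).1 d / (n * M)) atTop (𝓝 ((P.dirc c a).1 d / M)) := by
      refine ((ht1 d).div_const M).congr fun n => ?_
      rw [div_div]
    have := Metric.tendsto_nhds.1 h (ε / 4) (by linarith)
    filter_upwards [this] with n hn
    rwa [Real.dist_eq] at hn
  have h2 : ∀ᶠ n : ℕ in atTop, |(X n).2 / (n * M) - (P.dirc c a).2 / M| < ε / 4 := by
    have h : Tendsto (fun n : ℕ => (X n).2 / (n * M)) atTop (𝓝 ((P.dirc c a).2 / M)) := by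
      refine (ht2.div_const M).congr fun n => ?_
      rw [div_div]
    have := Metric.tendsto_nhds.1 h (ε / 4) (by linarith)
    filter_upwards [this] with n hn
    rwa [Real.dist_eq] at hn
  have h3 : ∀ᶠ n : ℕ in atTop, (0 : ℝ) < (n : ℝ) * M := by
    have : Tendsto (fun n : ℕ => (n : ℝ) * M) atTop atTop :=
      (tendsto_natCast_atTop_atTop).atTop_mul_const hM
    exact this.eventually_gt_atTop _
  obtain ⟨n, hn1, hn2, hn3⟩ := (h1.and (h2.and h3)).exists
  set r : ℝ := n * M with hr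
  have hmem : r⁻¹ • X n ∈ P.Teich :=
    ((hmat T P (X n) (htwT T P (t n) Z Z.2).1).1 r⁻¹ (inv_pos.2 hn3)).1
  refine ⟨⟨r⁻¹ • X n, hmem⟩, ?_, log r, t n, ?_⟩
  · rw [Subtype.dist_eq, Prod.dist_eq]
    refine max_lt ?_ ?_
    · refine lt_of_le_of_lt ?_ (show ε / 2 < ε by linarith)
      rw [dist_pi_le_iff (by linarith)]
      intro d
      rw [Real.dist_eq]
      have e1 := abs_lt.1 (hn1 d)
      have e2 := abs_lt.1 (hM1 d)
      have e3 : (r⁻¹ • X n).1 d = (X n).1 d / r := by
        simp only [Prod.smul_fst, Pi.smul_apply, smul_eq_mul]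
        rw [div_eq_inv_mul]
      simp only [e3]
      rw [abs_le]
      constructor <;> linarith [e1.1, e1.2, e2.1, e2.2]
    · rw [Real.dist_eq]
      have e1 := abs_lt.1 hn2
      have e2 := abs_lt.1 hM2
      have e3 : (r⁻¹ • X n).2 = (X n).2 / r := by
        simp only [Prod.smul_snd, smul_eq_mul]
        rw [div_eq_inv_mul]
      simp only [e3]
      rw [abs_lt]
      constructor <;> linarith [e1.1, e1.2, e2.1, e2.2]
  · rw [exp_log hn3]
    simp only
    rw [smul_smul, mul_inv_cancel₀ hn3.ne', one_smul]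
    exact hinv T P (t n) Z Z.2

theorem Cmain (hne : C_ne) (hmat : C_mat) (hgeo : C_geo) (hdir : C_dir) (hasym : C_asym)
    (hsame : C_same) (hinv : C_inv) (htwT : C_twT) (htwc : C_twc) : C_main := by
  intro D _ _ T P
  have hlc : LocallyCompactSpace P.Teich := (Teich_lc T P).locallyCompactSpace
  obtain ⟨p0, hp0⟩ := hne T P
  have hnonempty : Nonempty P.Teich := ⟨⟨p0, hp0⟩⟩
  let line : P.Teich → ℝ → P.Teich := fun p s =>
    ⟨exp s • (p : (D → ℝ) × ℝ), ((hmat T P p p.2).1 (exp s) (exp_pos s)).1⟩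
  have hline : ∀ s, Continuous fun p => line p s := fun s =>
    Continuous.subtype_mk (continuous_subtype_val.const_smul (exp s)) _
  let Φ : ℝ → PTD P → P.Teich → P.Teich := fun s t p =>
    ⟨t.neg.tw (line p s : (D → ℝ) × ℝ), (htwT T P t.neg _ (line p s).2).1⟩
  have hΦ : ∀ s t, Continuous (Φ s t) := by
    intro s t
    exact Continuous.subtype_mk ((htwc T P t.neg).comp (hline s)) _
  let B := TopologicalSpace.countableBasis P.Teich
  have hB := TopologicalSpace.isBasis_countableBasis P.Teich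
  have hBc : B.Countable := TopologicalSpace.countable_countableBasis P.Teich
  let O : Set P.Teich → Set P.Teich := fun b => ⋃ s : ℝ, ⋃ t : PTD P, Φ s t ⁻¹' b
  have hO : ∀ b ∈ B, IsOpen (O b) := fun b hb =>
    isOpen_iUnion fun s => isOpen_iUnion fun t => (hB.isOpen hb).preimage (hΦ s t)
  have hOd : ∀ b ∈ B, Dense (O b) := by
    intro b hb
    obtain ⟨Z, hZ⟩ := TopologicalSpace.nonempty_of_mem_countableBasis hb
    rw [Metric.dense_iff]
    intro p ε hε
    obtain ⟨p', hp', s, t, h⟩ := Ctransitive hmat hdir hasym hinv htwT T P Z p ε hε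
    refine ⟨p', hp', ?_⟩
    refine Set.mem_iUnion.2 ⟨s, Set.mem_iUnion.2 ⟨t, ?_⟩⟩
    have : Φ s t p' = Z := Subtype.ext h
    simpa [this] using hZ
  have hd : Dense (⋂ b ∈ B, O b) := dense_biInter_of_isOpen hO hBc hOd
  obtain ⟨p, hp⟩ := hd.nonempty
  refine ⟨fun s => line p s, fun s t hst => ?_, fun U hU hUn => ?_⟩
  · exact hgeo T P p p.2 s t hst
  · obtain ⟨u, hu⟩ := hUn
    obtain ⟨b, hb, hub, hbU⟩ := hB.exists_subset_of_mem_open hu hU
    have := Set.mem_iInter₂.1 hp b hb
    obtain ⟨s, hs⟩ := Set.mem_iUnion.1 this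
    obtain ⟨t, ht⟩ := Set.mem_iUnion.1 hs
    refine ⟨s, Φ s t p, hbU ht, ?_⟩
    exact hsame T P t.neg _ (line p s).2

end Run7.h568.DG
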