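import Pool.Agent.Run7.h568.DG.Iface

open Real Matrix Filter Topology

noncomputable section

namespace Run7.h568.DG

variable {D : Type} [Fintype D] [DecidableEq D]

theorem rho_sgio (T : Tri D) (d : D) : T.rho (T.sg (T.io d)) = d := by
  simp [Tri.rho, T.sg3, T.io_io]

theorem sgio_rho (T : Tri D) (d : D) : T.sg (T.io (T.rho d)) = d := by
  simp [Tri.rho, T.sg3, T.io_io]

theorem rho_inj (T : Tri D) : Function.Injective T.rho := by
  intro a b h
  rw [← sgio_rho T a, h, sgio_rho T b]

theorem rho_per (T : Tri D) (d : D) : d ∈ Function.periodicPts T.rho := by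
  exact (rho_inj T).mem_periodicPts d

theorem rho_pos (T : Tri D) (d : D) : 0 < Function.minimalPeriod T.rho d :=
  Function.minimalPeriod_pos_of_mem_periodicPts (rho_per T d)

theorem sum_shift (g : ℕ → ℝ) (p : ℕ) (h : g p = g 0) :
    ∑ j ∈ Finset.range p, g (j + 1) = ∑ j ∈ Finset.range p, g j := by
  have h1 := Finset.sum_range_succ g p
  have h2 := Finset.sum_range_succ' g p
  linarith

theorem cob : S_cob := by
  intro D _ _ T x
  constructor
  · rintro ⟨h1, h2⟩
    refine ⟨h1, fun d => -(1 / (Function.minimalPeriod T.rho d : ℝ)) *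
      ∑ j ∈ Finset.range (Function.minimalPeriod T.rho d), (j : ℝ) * x (T.rho^[j + 1] d), ?_⟩
    have key : ∀ u, -(1 / (Function.minimalPeriod T.rho u : ℝ)) *
        ∑ j ∈ Finset.range (Function.minimalPeriod T.rho u), (j : ℝ) * x (T.rho^[j + 1] u) -
        -(1 / (Function.minimalPeriod T.rho (T.rho u) : ℝ)) *
        ∑ j ∈ Finset.range (Function.minimalPeriod T.rho (T.rho u)),
          (j : ℝ) * x (T.rho^[j + 1] (T.rho u)) = x (T.rho u) := by
      intro u
      rw [Function.minimalPeriod_apply (rho_per T u)]
      set p := Function.minimalPeriod T.rho u with hp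
      have hpp : (0 : ℝ) < p := by exact_mod_cast rho_pos T u
      have hp' : Function.minimalPeriod T.rho (T.rho u) = p := by
        rw [Function.minimalPeriod_apply (rho_per T u)]
      set g : ℕ → ℝ := fun j => x (T.rho^[j] (T.rho u)) with hg
      have hgp : g p = g 0 := by
        simp only [hg]
        rw [← hp', Function.iterate_minimalPeriod]
        simp
      have e1 : ∀ j, x (T.rho^[j + 1] u) = g j := by
        intro j; simp only [hg, Function.iterate_succ_apply]
      have e2 : ∀ j, x (T.rho^[j + 1] (T.rho u)) = g (j + 1) := by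
        intro j; rfl
      have h0 : ∑ j ∈ Finset.range p, g j = 0 := by
        have := h2 (T.rho u)
        rw [hp'] at this
        exact this
      have h0' : ∑ j ∈ Finset.range p, g (j + 1) = 0 := by rw [sum_shift g p hgp, h0]
      have e3 : ∑ j ∈ Finset.range p, (j : ℝ) * g (j + 1)
          = ∑ j ∈ Finset.range p, (j : ℝ) * g j + p * g p := by
        have a1 := Finset.sum_range_succ (fun j => (j : ℝ) * g j) p
        have a2 := Finset.sum_range_succ' (fun j => (j : ℝ) * g j) p
        have a3 : ∑ j ∈ Finset.range p, ((j + 1 : ℕ) : ℝ) * g (j + 1)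
            = ∑ j ∈ Finset.range p, (j : ℝ) * g (j + 1) + ∑ j ∈ Finset.range p, g (j + 1) := by
          rw [← Finset.sum_add_distrib]
          refine Finset.sum_congr rfl fun j _ => ?_
          push_cast; ring
        simp only [Nat.cast_zero, zero_mul, add_zero] at a2
        linarith
      simp only [e1, e2]
      rw [e3, hgp]
      have : g 0 = x (T.rho u) := rfl
      rw [this]
      field_simp
      ring
    intro d
    have h := key (T.sg (T.io (T.io d)))
    rw [rho_sgio, T.io_io] at h
    rw [← h1 d]
    linarith
  · rintro ⟨h1, q, h2⟩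
    refine ⟨h1, fun d => ?_⟩
    have e : ∀ u, x (T.rho u) = q u - q (T.rho u) := by
      intro u
      rw [← h1 (T.rho u), h2, sgio_rho, T.io_io]
    set p := Function.minimalPeriod T.rho d
    have hgp : x (T.rho^[p] d) = x (T.rho^[0] d) := by
      rw [Function.iterate_minimalPeriod]; rfl
    rw [← sum_shift (fun j => x (T.rho^[j] d)) p hgp]
    have : ∀ j, x (T.rho^[j + 1] d) = q (T.rho^[j] d) - q (T.rho^[j + 1] d) := by
      intro j
      rw [Function.iterate_succ_apply', e]
    rw [Finset.sum_congr rfl fun j _ => this j, Finset.sum_range_sub' (fun j => q (T.rho^[j] d))]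
    rw [Function.iterate_minimalPeriod]
    simp

end Run7.h568.DG
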