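import Mathlib

/-!
# Dense Thurston geodesics: definitions

Punctured hyperbolic surfaces in shear coordinates on an ideal triangulation.
-/

open Real Matrix

noncomputable section

namespace Run7.h568.DG

/-- An ideal triangulation of an oriented punctured surface.  `D` is the set of darts = sides of
the triangles (a dart is an edge directed so that its triangle lies on its left); `io d` is the
same edge seen from the other side, `sg d` is the next side of the triangle of `d`,
anticlockwise. -/
structure Tri (D : Type) [Fintype D] [DecidableEq D] where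
  io : Equiv.Perm D
  sg : Equiv.Perm D
  io_io : ∀ d, io (io d) = d
  io_ne : ∀ d, io d ≠ d
  sg3 : ∀ d, sg (sg (sg d)) = d
  sg_ne : ∀ d, sg d ≠ d
  conn : ∀ d d', ∃ g ∈ Subgroup.closure ({io, sg} : Set (Equiv.Perm D)), g d = d'

variable {D : Type} [Fintype D] [DecidableEq D]

namespace Tri

/-- The next dart with the same tail (rotation around a puncture). -/
def rho (T : Tri D) (d : D) : D := T.io (T.sg (T.sg d))

/-- Teichmueller space in shear coordinates: one real number for every edge, with sum zero around
every puncture. -/
def Teich (T : Tri D) : Submodule ℝ (D → ℝ) where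
  carrier := {x | (∀ d, x (T.io d) = x d) ∧
    ∀ d, ∑ j ∈ Finset.range (Function.minimalPeriod T.rho d), x (T.rho^[j] d) = 0}
  add_mem' := by
    rintro x y ⟨hx, hx'⟩ ⟨hy, hy'⟩
    refine ⟨fun d => by simp [hx d, hy d], fun d => ?_⟩
    simp only [Pi.add_apply, Finset.sum_add_distrib, hx' d, hy' d, add_zero]
  zero_mem' := ⟨fun _ => rfl, fun _ => by simp⟩
  smul_mem' := by
    rintro r x ⟨hx, hx'⟩
    refine ⟨fun d => by simp [hx d], fun d => ?_⟩
    simp only [Pi.smul_apply, smul_eq_mul, ← Finset.mul_sum, hx' d, mul_zero]

end Tri

/-- The group `SL(2, ℝ)`. -/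
abbrev SL := Matrix.SpecialLinearGroup (Fin 2) ℝ

/-- Rotation of a triangle: from the frame of the next side to the frame of the side. -/
def W : SL := ⟨!![1, -1; 1, 0], by simp [Matrix.det_fin_two]⟩

/-- Crossing an edge of shear `s`. -/
def E (s : ℝ) : SL := ⟨!![0, exp (s / 2); -exp (-s / 2), 0], by
  rw [Matrix.det_fin_two]; simp [← exp_add]; try ring_nf; try simp⟩

/-- The unipotent matrix of a turn: `true` goes out through `sg d`, `false` through
`sg (sg d)`. -/
def U (b : Bool) : SL := if b then ⟨!![1, 1; 0, 1], by simp [Matrix.det_fin_two]⟩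
  else ⟨!![1, 0; 1, 1], by simp [Matrix.det_fin_two]⟩

/-- Diagonal matrices. -/
def Del (s : ℝ) : SL := ⟨!![exp (-s / 2), 0; 0, exp (s / 2)], by
  rw [Matrix.det_fin_two]; simp [← exp_add]; try ring_nf; try simp⟩

/-- One step of a path: a turn and the crossing of the edge of shear `s`. -/
def step (b : Bool) (s : ℝ) : SL := U b * Del s

/-- Trace. -/
def tr (g : SL) : ℝ := g.1 0 0 + g.1 1 1

namespace Tri

variable (T : Tri D)

/-- The side through which a path that has entered the triangle of `d` through `d` leaves it. -/
def turn (b : Bool) (d : D) : D := if b then T.sg d else T.sg (T.sg d)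

/-- The dart through which the path enters the next triangle. -/
def nxt (b : Bool) (d : D) : D := T.io (T.turn b d)

/-- End of the path with turns `w` which starts by entering the triangle of `d` through `d`. -/
def endp : List Bool → D → D
  | [], d => d
  | b :: w, d => endp w (T.nxt b d)

/-- Holonomy of the path with turns `w` from `d`. -/
def hol (x : D → ℝ) : List Bool → D → SL
  | [], _ => 1
  | b :: w, d => step b (x (T.turn b d)) * hol x w (T.nxt b d)

/-- The path closes up and takes both kinds of turns: these are the free homotopy classes of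
closed curves of the surface that are neither trivial nor peripheral. -/
def Closed (w : List Bool) (d : D) : Prop := T.endp w d = d ∧ true ∈ w ∧ false ∈ w

/-- Hyperbolic length of the closed geodesic: `tr = 2 cosh (len / 2)`. -/
def len (x : D → ℝ) (w : List Bool) (d : D) : ℝ :=
  2 * log ((tr (T.hol x w d) + √(tr (T.hol x w d) ^ 2 - 4)) / 2)

/-- Number of strands crossing the edge `d` when `c d` strands cut the corner at the tail of `d`
in its triangle. -/
def num (c : D → ℕ) (d : D) : ℕ := c d + c (T.sg d)

/-- The strands match along the edges. -/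
def Match (c : D → ℕ) : Prop := ∀ d, T.num c (T.io d) = T.num c d

/-- Every puncture has a corner without strands. -/
def Normal (c : D → ℕ) : Prop := ∀ d, ∃ j, c (T.rho^[j] d) = 0

/-- The turn of the strand which enters the triangle of `v.1` at the `v.2`-th position. -/
def sbit (c : D → ℕ) (v : D × ℕ) : Bool := decide (c v.1 ≤ v.2)

/-- The strand which enters the triangle of `v.1` at the `v.2`-th position (counted from the tail,
from 0) enters the next triangle at this dart and position. -/
def snext (c : D → ℕ) (v : D × ℕ) : D × ℕ :=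
  if v.2 < c v.1 then (T.io (T.sg (T.sg v.1)), v.2)
  else (T.io (T.sg v.1), v.2 - c v.1 + c (T.sg (T.sg v.1)))

/-- The turns of a strand during `n` steps. -/
def itin (c : D → ℕ) : ℕ → D × ℕ → List Bool
  | 0, _ => []
  | n + 1, v => sbit c v :: itin c n (T.snext c v)

/-- Simple closed curves: a closed strand of a family of disjoint strands, followed once. -/
def Simple (w : List Bool) (d : D) : Prop :=
  ∃ c : D → ℕ, T.Match c ∧ ∃ i, i < T.num c d ∧ ∃ n, 0 < n ∧ (T.snext c)^[n] (d, i) = (d, i) ∧
    (∀ k, 0 < k → k < n → (T.snext c)^[k] (d, i) ≠ (d, i)) ∧ w = T.itin c n (d, i)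

/-- Thurston's (Lipschitz) distance: logarithm of the supremum over essential simple closed curves
of the ratio of lengths. -/
def dTh (x y : D → ℝ) : ℝ :=
  log (sSup {r : ℝ | ∃ w d, T.Closed w d ∧ T.Simple w d ∧ r = T.len y w d / T.len x w d})

/-- `Path x d d' g`: `g` is, up to sign, the transport of frames along some path of the
triangulated surface from the dart `d` to the dart `d'`. -/
inductive Path (x : D → ℝ) (d : D) : D → SL → Prop
  | one : Path x d d 1
  | neg {d' : D} {g : SL} : Path x d d' g → Path x d d' (-g)
  | sg {d' : D} {g : SL} : Path x d d' g → Path x d (T.sg d') (g * W)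
  | io {d' : D} {g : SL} : Path x d d' g → Path x d (T.io d') (g * E (x d'))

/-- The two points of Teichmueller space lie over the same point of moduli space: their Fuchsian
groups (the groups of holonomies of loops) are conjugate in `SL(2, ℝ)`. -/
def SameModuli (x y : D → ℝ) : Prop :=
  ∀ d, ∃ g : SL, ∀ h : SL, T.Path y d d h ↔ T.Path x d d (g * h * g⁻¹)

end Tri

/-- An annulus formed by two triangles `f1 e1 b1` and `f2 e2 b2`; its core crosses the edges `e`
and `f` once each. -/
structure Annulus (T : Tri D) where
  f1 : D
  e1 : D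
  b1 : D
  f2 : D
  e2 : D
  b2 : D
  sf1 : T.sg f1 = e1
  se1 : T.sg e1 = b1
  sb1 : T.sg b1 = f1
  sf2 : T.sg f2 = e2
  se2 : T.sg e2 = b2
  sb2 : T.sg b2 = f2
  iof : T.io f1 = f2
  ioe : T.io e1 = e2

/-! ### Length and twist coordinates of the annulus, and the scaling lines -/

/-- Shear of the edge `e` of the annulus when its core has length `l` and twist `th`. -/
def ae (l th : ℝ) : ℝ := 2 * log (sinh (l / 2) / cosh (th / 2))

/-- Shear of the edge `f`. -/
def af (l th : ℝ) : ℝ := 2 * log (cosh ((th + l) / 2) / sinh (l / 2))

namespace Annulus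

variable {T : Tri D} (A : Annulus T)

/-- Number of boundary darts of the annulus on the edge of `d`. -/
def mu (d : D) : ℝ := (if d = A.b1 then 1 else 0) + (if d = A.b2 then 1 else 0) +
  (if T.io d = A.b1 then 1 else 0) + (if T.io d = A.b2 then 1 else 0)

def ue (d : D) : ℝ := (if d = A.e1 ∨ d = A.e2 then 1 else 0) - A.mu d / 2

def uf (d : D) : ℝ := (if d = A.f1 ∨ d = A.f2 then 1 else 0) - A.mu d / 2

/-- The point of Teichmueller space with length `l` and twist `th` at the core of the annulus and
with the remaining coordinates of `y`. -/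
def K (l th : ℝ) (y : D → ℝ) (d : D) : ℝ :=
  y d + (ae l th - y A.e1) * A.ue d + (af l th - y A.f1) * A.uf d

/-- Darts which are not inner sides of the annulus. -/
def Outer (d : D) : Prop := d ≠ A.e1 ∧ d ≠ A.e2 ∧ d ≠ A.f1 ∧ d ≠ A.f2

/-- Gauge at the darts: the frames of `b1` and `b2` are moved along these edges. -/
def gam (q : ℝ) (d : D) : SL := if d = A.b1 ∨ d = A.b2 then Del (-q / 2) else 1

/-- Holonomy in the new gauge. -/
def hat (l th : ℝ) (y : D → ℝ) (w : List Bool) (d : D) : SL :=
  A.gam (ae l th + af l th) d * T.hol (A.K l th y) w d *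
    (A.gam (ae l th + af l th) (T.endp w d))⁻¹

end Annulus

/-! ### Twists along multicurves -/

/-- A normal family of strands `c`, a common period `P` of the strands, and an exponent `m` for
every closed strand (independent of the direction). -/
structure TD (T : Tri D) where
  c : D → ℕ
  hc : T.Match c
  hn : T.Normal c
  P : ℕ
  hP : 0 < P
  per : ∀ d i, i < T.num c d → (T.snext c)^[P] (d, i) = (d, i)
  m : D × ℕ → ℤ
  m_next : ∀ d i, i < T.num c d → m (T.snext c (d, i)) = m (d, i)
  m_rev : ∀ d i, i < T.num c d → m (T.io d, T.num c d - 1 - i) = m (d, i)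
  sgn : (∀ v, 0 ≤ m v) ∨ (∀ v, m v ≤ 0)

namespace TD

variable {T : Tri D} (t : TD T)

/-- Opposite exponents. -/
def neg : TD T where
  c := t.c
  hc := t.hc
  hn := t.hn
  P := t.P
  hP := t.hP
  per := t.per
  m := fun v => - t.m v
  m_next := fun d i h => by simp [t.m_next d i h]
  m_rev := fun d i h => by simp [t.m_rev d i h]
  sgn := by
    rcases t.sgn with h | h
    · exact Or.inr fun v => by simpa using h v
    · exact Or.inl fun v => by simpa using h v

/-- Holonomy of the strand `v`, followed `P` steps. -/
def str (x : D → ℝ) (v : D × ℕ) : SL := T.hol x (T.itin t.c t.P v) v.1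

/-- Product of the first `n` strand powers along the dart `d`. -/
def Pd (x : D → ℝ) (d : D) (n : ℕ) : SL :=
  ((List.range n).map (fun i => t.str x (d, i) ^ t.m (d, i))).prod

/-- Product of all strand powers along the dart `d`. -/
def H (x : D → ℝ) (d : D) : SL := t.Pd x d (T.num t.c d)

/-- Logarithm of the change of the lambda length of the edge `d`. -/
def Lam (x : D → ℝ) (d : D) : ℝ := log ((t.H x d).1 0 0)

/-- Shear coordinates of the twisted surface. -/
def tw (x : D → ℝ) (d : D) : ℝ :=
  x d + t.Lam x (T.sg d) - t.Lam x (T.sg (T.sg d)) + t.Lam x (T.sg (T.io d))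
    - t.Lam x (T.sg (T.sg (T.io d)))

end TD

/-- Shear coordinates of the family of strands `c`. -/
def dirc (T : Tri D) (c : D → ℕ) (d : D) : ℝ :=
  ((T.num c (T.sg d) : ℝ) - T.num c (T.sg (T.sg d)) + T.num c (T.sg (T.io d))
    - T.num c (T.sg (T.sg (T.io d)))) / 2

end Run7.h568.DG
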