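import Pool.Agent.Run7.h568.DG.CIface
import Pool.Agent.Run7.h99.DG.Bd

/-! Project DG, closed surfaces, piece C_eig (independent copy, helper811) -/

set_option autoImplicit false

open Real Matrix Filter Topology

noncomputable section

namespace Run7.h568.DG.EigOf811

open Run7.h568.DG Run7.h568.DG.PTD

/-! ### 2 x 2 matrices -/

theorem mul00 (g h : SL) : (g * h).1 0 0 = g.1 0 0 * h.1 0 0 + g.1 0 1 * h.1 1 0 := by
  simp [Matrix.SpecialLinearGroup.coe_mul, Matrix.mul_apply, Fin.sum_univ_two]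
theorem mul01 (g h : SL) : (g * h).1 0 1 = g.1 0 0 * h.1 0 1 + g.1 0 1 * h.1 1 1 := by
  simp [Matrix.SpecialLinearGroup.coe_mul, Matrix.mul_apply, Fin.sum_univ_two]
theorem mul10 (g h : SL) : (g * h).1 1 0 = g.1 1 0 * h.1 0 0 + g.1 1 1 * h.1 1 0 := by
  simp [Matrix.SpecialLinearGroup.coe_mul, Matrix.mul_apply, Fin.sum_univ_two]
theorem mul11 (g h : SL) : (g * h).1 1 1 = g.1 1 0 * h.1 0 1 + g.1 1 1 * h.1 1 1 := by
  simp [Matrix.SpecialLinearGroup.coe_mul, Matrix.mul_apply, Fin.sum_univ_two]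

theorem inv00 (g : SL) : (g⁻¹).1 0 0 = g.1 1 1 := by
  simp [Matrix.SpecialLinearGroup.coe_inv, Matrix.adjugate_fin_two]
theorem inv01 (g : SL) : (g⁻¹).1 0 1 = -g.1 0 1 := by
  simp [Matrix.SpecialLinearGroup.coe_inv, Matrix.adjugate_fin_two]
theorem inv10 (g : SL) : (g⁻¹).1 1 0 = -g.1 1 0 := by
  simp [Matrix.SpecialLinearGroup.coe_inv, Matrix.adjugate_fin_two]
theorem inv11 (g : SL) : (g⁻¹).1 1 1 = g.1 0 0 := by
  simp [Matrix.SpecialLinearGroup.coe_inv, Matrix.adjugate_fin_two]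

theorem one00 : (1 : SL).1 0 0 = 1 := by simp
theorem one01 : (1 : SL).1 0 1 = 0 := by simp
theorem one10 : (1 : SL).1 1 0 = 0 := by simp
theorem one11 : (1 : SL).1 1 1 = 1 := by simp

theorem det1 (g : SL) : g.1 0 0 * g.1 1 1 - g.1 0 1 * g.1 1 0 = 1 := by
  have := g.2
  rwa [Matrix.det_fin_two] at this

theorem tr_inv (g : SL) : tr g⁻¹ = tr g := by
  unfold tr; rw [inv00, inv11]; ring

theorem tr_conj (J g : SL) : tr (J * g * J⁻¹) = tr g := by
  unfold tr
  have h := det1 J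
  simp only [mul00, mul01, mul10, mul11, inv00, inv01, inv10, inv11]
  linear_combination (g.1 0 0 + g.1 1 1) * h

/-! ### Action on the vectors `(-s, 1)` -/

theorem Act_mul {g h : SL} {s s' s'' r r' : ℝ} (h1 : Act h s s' r) (h2 : Act g s' s'' r') :
    Act (g * h) s s'' (r' * r) := by
  obtain ⟨a1, a2⟩ := h1
  obtain ⟨b1, b2⟩ := h2
  refine ⟨?_, ?_⟩
  · rw [mul00, mul01]
    linear_combination g.1 0 0 * a1 + g.1 0 1 * a2 + r * b1
  · rw [mul10, mul11]
    linear_combination g.1 1 0 * a1 + g.1 1 1 * a2 + r * b2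

theorem Act_inv {g : SL} {s s' r : ℝ} (h : Act g s s' r) (hr : r ≠ 0) : Act g⁻¹ s' s r⁻¹ := by
  obtain ⟨a1, a2⟩ := h
  have hd := det1 g
  have k1 : r * (-(g.1 1 1) * s' + -(g.1 0 1)) = -s := by
    linear_combination (-g.1 1 1) * a1 + g.1 0 1 * a2 - s * hd
  have k2 : r * (g.1 1 0 * s' + g.1 0 0) = 1 := by
    linear_combination g.1 1 0 * a1 - g.1 0 0 * a2 + hd
  refine ⟨?_, ?_⟩
  · rw [inv00, inv01]
    field_simp
    linear_combination k1
  · rw [inv10, inv11]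
    field_simp
    linear_combination k2

theorem Act_tri {g : SL} {s : ℝ} (h01 : g.1 0 1 = 0) (h00 : g.1 0 0 ≠ 0)
    (hp : g.1 0 0 + g.1 1 0 * s ≠ 0) : Act g (mob g s) s (g.1 0 0 + g.1 1 0 * s)⁻¹ := by
  have hd := det1 g
  rw [h01] at hd
  have hd' : g.1 0 0 * g.1 1 1 = 1 := by linarith
  refine ⟨?_, ?_⟩
  · rw [h01]; unfold mob
    field_simp
    ring
  · unfold mob
    field_simp
    linear_combination (g.1 0 0 + g.1 1 0 * s) * hd'

theorem mob_one (s : ℝ) : mob (1 : SL) s = s := by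
  unfold mob; rw [one00, one10]; simp

/-- The large eigenvalue. -/
theorem kap_facts {M : SL} (h : 2 < tr M) :
    1 < (tr M + √(tr M ^ 2 - 4)) / 2 ∧
      (tr M + √(tr M ^ 2 - 4)) / 2 + ((tr M + √(tr M ^ 2 - 4)) / 2)⁻¹ = tr M := by
  have h0 : 0 ≤ tr M ^ 2 - 4 := by nlinarith
  have h1 := Real.sqrt_nonneg (tr M ^ 2 - 4)
  have h2 := Real.sq_sqrt h0
  have h3 : 1 < (tr M + √(tr M ^ 2 - 4)) / 2 := by linarith
  refine ⟨h3, ?_⟩
  have h4 : (tr M + √(tr M ^ 2 - 4)) / 2 ≠ 0 := by linarith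
  have h5 : ((tr M + √(tr M ^ 2 - 4)) / 2) * ((tr M - √(tr M ^ 2 - 4)) / 2) = 1 := by
    nlinarith
  have h6 : ((tr M + √(tr M ^ 2 - 4)) / 2)⁻¹ = (tr M - √(tr M ^ 2 - 4)) / 2 :=
    inv_eq_of_mul_eq_one_right h5
  rw [h6]; ring

/-- The eigenvector for the small eigenvalue. -/
theorem Act_eig {M : SL} {κ : ℝ} (hk : 1 < κ) (ht : κ + κ⁻¹ = tr M)
    (hne : M.1 0 0 - κ⁻¹ ≠ 0) :
    Act M (M.1 0 1 / (M.1 0 0 - κ⁻¹)) (M.1 0 1 / (M.1 0 0 - κ⁻¹)) κ⁻¹ := by
  have hd := det1 M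
  have hκ : κ ≠ 0 := by linarith
  have hi : κ * κ⁻¹ = 1 := mul_inv_cancel₀ hκ
  unfold tr at ht
  generalize κ⁻¹ = q at *
  have hc : (M.1 0 0 - q) * (M.1 1 1 - q) = M.1 0 1 * M.1 1 0 := by
    have : κ = M.1 0 0 + M.1 1 1 - q := by linarith
    subst this
    linear_combination hd - hi
  refine ⟨?_, ?_⟩
  · field_simp
    ring
  · field_simp
    linear_combination hc

/-! ### Nonnegative matrices -/

/-- nonnegative entries, upper right entry positive -/
def Pp (g : SL) : Prop := 0 ≤ g.1 0 0 ∧ 0 < g.1 0 1 ∧ 0 ≤ g.1 1 0 ∧ 0 ≤ g.1 1 1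

def Qx (g : SL) : Prop := g = 1 ∨ Pp g

theorem pos_of {a b c d : ℝ} (h : a * d - b * c = 1) (ha : 0 ≤ a) (hb : 0 ≤ b) (hc : 0 ≤ c)
    (hd : 0 ≤ d) : 0 < a ∧ 0 < d ∧ 1 ≤ a * d := by
  have hbc : 0 ≤ b * c := mul_nonneg hb hc
  have h1 : 1 ≤ a * d := by linarith
  refine ⟨?_, ?_, h1⟩
  · rcases ha.lt_or_eq with h2 | h2
    · exact h2
    · rw [← h2] at h1; norm_num at h1
  · rcases hd.lt_or_eq with h2 | h2
    · exact h2
    · rw [← h2] at h1; norm_num at h1

theorem Pp.pos {g : SL} (h : Pp g) : 0 < g.1 0 0 ∧ 0 < g.1 1 1 ∧ 1 ≤ g.1 0 0 * g.1 1 1 :=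
  pos_of (det1 g) h.1 h.2.1.le h.2.2.1 h.2.2.2

theorem Pp.mul {g h : SL} (hg : Pp g) (hh : Pp h) : Pp (g * h) := by
  have p1 := hg.pos
  have p2 := hh.pos
  obtain ⟨a1, a2, a3, a4⟩ := hg
  obtain ⟨b1, b2, b3, b4⟩ := hh
  unfold Pp
  rw [mul00, mul01, mul10, mul11]
  have := mul_pos p1.1 b2
  have := mul_pos a2 p2.2.1
  refine ⟨by positivity, by positivity, by positivity, by positivity⟩

theorem Qx.mul {g h : SL} (hg : Qx g) (hh : Qx h) : Qx (g * h) := by
  rcases hg with rfl | hg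
  · rwa [one_mul]
  · rcases hh with rfl | hh
    · rw [mul_one]; exact Or.inr hg
    · exact Or.inr (hg.mul hh)

theorem Qx.pow {g : SL} (hg : Qx g) (n : ℕ) : Qx (g ^ n) := by
  induction n with
  | zero => rw [pow_zero]; exact Or.inl rfl
  | succ n ih => rw [pow_succ]; exact ih.mul hg

theorem Qx.pos {g : SL} (h : Qx g) : 0 < g.1 0 0 ∧ 0 < g.1 1 1 ∧ 1 ≤ g.1 0 0 * g.1 1 1 ∧
    0 ≤ g.1 0 1 ∧ 0 ≤ g.1 1 0 := by
  rcases h with rfl | h
  · rw [one00, one11, one01, one10]; norm_num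
  · exact ⟨h.pos.1, h.pos.2.1, h.pos.2.2, h.2.1.le, h.2.2.1⟩

/-- trace of a product -/
theorem trQ {X ρ : SL} (hX : Qx X) (h01 : ρ.1 0 1 = 0) (h00 : 0 < ρ.1 0 0) (h11 : 0 < ρ.1 1 1)
    (h10 : 0 < ρ.1 1 0) (hne : ρ.1 0 0 ≠ ρ.1 1 1) : 2 < tr (ρ * X) := by
  have hd := det1 ρ
  rw [h01] at hd
  have hd' : ρ.1 0 0 * ρ.1 1 1 = 1 := by linarith
  unfold tr
  rw [mul00, mul11, h01]
  rcases hX with rfl | hX
  · rw [one00, one11, one01, one10]
    have : 0 < (ρ.1 0 0 - ρ.1 1 1) ^ 2 := by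
      have : ρ.1 0 0 - ρ.1 1 1 ≠ 0 := sub_ne_zero.2 hne
      positivity
    have h4 : 4 < (ρ.1 0 0 + ρ.1 1 1) ^ 2 := by nlinarith
    have : 2 < ρ.1 0 0 + ρ.1 1 1 := by nlinarith
    linarith
  · obtain ⟨p1, p2, p3⟩ := hX.pos
    have p4 := mul_pos h10 hX.2.1
    have h4 : 1 ≤ (ρ.1 0 0 * X.1 0 0) * (ρ.1 1 1 * X.1 1 1) := by
      have : (ρ.1 0 0 * X.1 0 0) * (ρ.1 1 1 * X.1 1 1) =
        (ρ.1 0 0 * ρ.1 1 1) * (X.1 0 0 * X.1 1 1) := by ring
      rw [this, hd', one_mul]; exact p3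
    have h5 := mul_pos h00 p1
    have h6 := mul_pos h11 p2
    have h7 : 2 ≤ ρ.1 0 0 * X.1 0 0 + ρ.1 1 1 * X.1 1 1 := by
      nlinarith [sq_nonneg (ρ.1 0 0 * X.1 0 0 - ρ.1 1 1 * X.1 1 1)]
    linarith

/-! ### Turns -/

variable {D : Type} [Fintype D] [DecidableEq D] {T : Tri D}

theorem rho_inj (T : Tri D) : Function.Injective T.rho := fun a b h => by
  unfold Tri.rho at h
  exact T.sg.injective (T.sg.injective (T.io.injective h))

theorem turns_zero (x : D → ℝ) (d : D) : Portal.turns (T := T) x d 0 = 1 := rfl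

theorem turns_succ' (x : D → ℝ) (d : D) (j : ℕ) :
    Portal.turns (T := T) x d (j + 1) =
      step false (x (T.sg (T.sg d))) * Portal.turns (T := T) x (T.rho d) j := rfl

theorem turns_add (x : D → ℝ) (j k : ℕ) : ∀ d, Portal.turns (T := T) x d (j + k) =
    Portal.turns (T := T) x d j * Portal.turns (T := T) x (T.rho^[j] d) k := by
  induction j with
  | zero => intro d; rw [turns_zero, one_mul, Nat.zero_add]; rfl
  | succ j ih =>
    intro d
    rw [Nat.succ_add_eq_add_succ, Nat.add_succ, turns_succ', ih, turns_succ', mul_assoc,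
      Function.iterate_succ_apply]

theorem turns_succ (x : D → ℝ) (d : D) (j : ℕ) : Portal.turns (T := T) x d (j + 1) =
    Portal.turns (T := T) x d j * step false (x (T.sg (T.sg (T.rho^[j] d)))) := by
  rw [turns_add, turns_succ', turns_zero, mul_one]

theorem step00 (s : ℝ) : (step false s).1 0 0 = exp (-s / 2) := by
  simp [step, U, Del, Matrix.mul_apply, Fin.sum_univ_two]
theorem step01 (s : ℝ) : (step false s).1 0 1 = 0 := by
  simp [step, U, Del, Matrix.mul_apply, Fin.sum_univ_two]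
theorem step10 (s : ℝ) : (step false s).1 1 0 = exp (-s / 2) := by
  simp [step, U, Del, Matrix.mul_apply, Fin.sum_univ_two]
theorem step11 (s : ℝ) : (step false s).1 1 1 = exp (s / 2) := by
  simp [step, U, Del, Matrix.mul_apply, Fin.sum_univ_two]

theorem mob_vec {g : SL} {y1 y2 w1 w2 s : ℝ} (h01 : g.1 0 1 = 0) (h00 : 0 < g.1 0 0)
    (hw1 : w1 = g.1 0 0 * y1) (hw2 : w2 = g.1 1 0 * y1 + g.1 1 1 * y2) (hy2 : 0 < y2)
    (hw : 0 < w2) (hs : s * w2 = -w1) : 0 < g.1 0 0 + g.1 1 0 * s ∧ mob g s * y2 = -y1 := by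
  have hd := det1 g
  rw [h01] at hd
  have h1 : (g.1 0 0 + g.1 1 0 * s) * w2 = y2 := by
    linear_combination g.1 1 0 * hs + g.1 0 0 * hw2 - g.1 1 0 * hw1 + y2 * hd
  have h2 : 0 < g.1 0 0 + g.1 1 0 * s := by
    by_contra h
    push Not at h
    nlinarith
  refine ⟨h2, ?_⟩
  unfold mob
  rw [div_mul_eq_mul_div, div_eq_iff (by positivity)]
  have h3 : y2 = (g.1 0 0 + g.1 1 0 * s) * w2 := h1.symm
  rw [h3]
  linear_combination (g.1 0 0 + g.1 1 0 * s) * hs - (g.1 0 0 + g.1 1 0 * s) * hw1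

/-- the first vector component of the image -/
def a1 (g : SL) (x y : ℝ) : ℝ := g.1 0 0 * x + g.1 0 1 * y
def a2 (g : SL) (x y : ℝ) : ℝ := g.1 1 0 * x + g.1 1 1 * y

theorem a1_mul (g h : SL) (x y : ℝ) : a1 (g * h) x y = a1 g (a1 h x y) (a2 h x y) := by
  unfold a1 a2; rw [mul00, mul01]; ring
theorem a2_mul (g h : SL) (x y : ℝ) : a2 (g * h) x y = a2 g (a1 h x y) (a2 h x y) := by
  unfold a1 a2; rw [mul10, mul11]; ring

variable {P : Portal T}

theorem low (hJ : C_J) {p : (D → ℝ) × ℝ} (hp : p ∈ P.Teich) (d : D) (j : ℕ) {x y : ℝ}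
    (hx : 0 ≤ x) (hy : 0 < y) : 0 ≤ a1 (Portal.turns (T := T) p.1 d j) x y ∧
      0 < a2 (Portal.turns (T := T) p.1 d j) x y := by
  obtain ⟨h1, h2, h3, h4, h5⟩ := (hJ T P p hp).1 d j
  unfold a1 a2
  rw [h1]
  constructor
  · have := mul_nonneg h2.le hx
    linarith
  · have := mul_nonneg h4 hx
    have := mul_pos h3 hy
    linarith

theorem strict (hJ : C_J) {p : (D → ℝ) × ℝ} (hp : p ∈ P.Teich) (d : D) (j : ℕ) {x y : ℝ}
    (hx : 0 ≤ x) (hy : 0 < y) : 0 ≤ a1 (Portal.turns (T := T) p.1 d (j + 1)) x y ∧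
      a1 (Portal.turns (T := T) p.1 d (j + 1)) x y < a2 (Portal.turns (T := T) p.1 d (j + 1)) x y := by
  obtain ⟨h1, h2⟩ := low (T := T) (P := P) hJ hp (T.rho d) j hx hy
  rw [turns_succ', a1_mul, a2_mul]
  generalize a1 (Portal.turns (T := T) p.1 (T.rho d) j) x y = z1 at *
  generalize a2 (Portal.turns (T := T) p.1 (T.rho d) j) x y = z2 at *
  unfold a1 a2
  rw [step00, step01, step10, step11]
  have e1 := exp_pos (-(p.1 (T.sg (T.sg d))) / 2)
  have e2 := exp_pos ((p.1 (T.sg (T.sg d))) / 2)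
  constructor
  · have := mul_nonneg e1.le h1
    linarith
  · have := mul_pos e2 h2
    linarith

/-- The orbit of a dart, case `m ≤ 0`. -/
theorem orbit_neg (hJ : C_J) {p : (D → ℝ) × ℝ} (hp : p ∈ P.Teich) (d : D) {x1 x2 s : ℝ}
    (hx1 : 0 ≤ x1) (hx2 : 0 < x2)
    (hs : s * a2 (Portal.rot (T := T) p.1 d) x1 x2 = -a1 (Portal.rot (T := T) p.1 d) x1 x2)
    (j : ℕ) (hj : j < Function.minimalPeriod T.rho d) :
    0 < (Portal.turns (T := T) p.1 d j).1 0 0 + (Portal.turns (T := T) p.1 d j).1 1 0 * s ∧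
      -1 < mob (Portal.turns (T := T) p.1 d j) s ∧ mob (Portal.turns (T := T) p.1 d j) s ≤ 0 := by
  obtain ⟨k, hk⟩ : ∃ k, Function.minimalPeriod T.rho d = j + (k + 1) :=
    ⟨Function.minimalPeriod T.rho d - j - 1, by omega⟩
  have hr : Portal.rot (T := T) p.1 d = Portal.turns (T := T) p.1 d j *
      Portal.turns (T := T) p.1 (T.rho^[j] d) (k + 1) := by
    unfold Portal.rot
    rw [hk, turns_add]
  obtain ⟨z1, z2⟩ := strict (T := T) (P := P) hJ hp (T.rho^[j] d) k hx1 hx2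
  have hw0 := low (T := T) (P := P) hJ hp d (Function.minimalPeriod T.rho d) hx1 hx2
  have hw1 : 0 < a2 (Portal.rot (T := T) p.1 d) x1 x2 := hw0.2
  rw [hr, a1_mul, a2_mul] at hs
  rw [hr, a2_mul] at hw1
  generalize a1 (Portal.turns (T := T) p.1 (T.rho^[j] d) (k + 1)) x1 x2 = y1 at *
  generalize a2 (Portal.turns (T := T) p.1 (T.rho^[j] d) (k + 1)) x1 x2 = y2 at *
  have hy2 : 0 < y2 := by linarith
  obtain ⟨h1, h2, h3, h4, h5⟩ := (hJ T P p hp).1 d j
  obtain ⟨q1, q2⟩ := mob_vec (s := s) h1 h2 (w1 := a1 (Portal.turns (T := T) p.1 d j) y1 y2)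
    (w2 := a2 (Portal.turns (T := T) p.1 d j) y1 y2) (by unfold a1; rw [h1]; ring) rfl hy2 hw1 hs
  refine ⟨q1, ?_, ?_⟩
  · by_contra h
    push Not at h
    nlinarith
  · by_contra h
    push Not at h
    nlinarith

/-- The orbit of a dart, case `m ≥ 0`. -/
theorem orbit_pos (hJ : C_J) {p : (D → ℝ) × ℝ} (hp : p ∈ P.Teich) (d : D) {s : ℝ}
    (hs : 0 ≤ s) (j : ℕ) :
    0 < (Portal.turns (T := T) p.1 d j).1 0 0 + (Portal.turns (T := T) p.1 d j).1 1 0 * s ∧
      0 ≤ mob (Portal.turns (T := T) p.1 d j) s := by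
  obtain ⟨h1, h2, h3, h4, h5⟩ := (hJ T P p hp).1 d j
  have h6 := mul_nonneg h4 hs
  have h7 : 0 < (Portal.turns (T := T) p.1 d j).1 0 0 +
    (Portal.turns (T := T) p.1 d j).1 1 0 * s := by linarith
  refine ⟨h7, ?_⟩
  unfold mob
  exact div_nonneg hs (mul_pos h2 h7).le

/-! ### The products of the strands -/

theorem tr_comm (g h : SL) : tr (g * h) = tr (h * g) := by
  unfold tr; rw [mul00, mul11, mul00, mul11]; ring

theorem zpow_nn {g : SL} (hg : Pp g) {n : ℤ} (hn : 0 ≤ n) : Qx (g ^ n) := by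
  obtain ⟨k, rfl⟩ := Int.eq_ofNat_of_zero_le hn
  rw [zpow_natCast]
  exact Qx.pow (Or.inr hg) k

theorem Qpos (hcomb : C_comb) (htr : C_tr) (hpos : C_pos) (t : PTD P) {p : (D → ℝ) × ℝ}
    (hp : p ∈ P.Teich) (hm : ∀ w, 0 ≤ t.m w) (n : ℕ) (hn : n ≤ t.a) :
    Qx (P.J p * t.Pd p P.v n * (P.J p)⁻¹) := by
  induction n with
  | zero =>
      have : P.J p * t.Pd p P.v 0 * (P.J p)⁻¹ = 1 := by
        simp [PTD.Pd]
      rw [this]
      exact Or.inl rfl
  | succ n ih =>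
      have h1 : P.J p * t.Pd p P.v (n + 1) * (P.J p)⁻¹ =
          (P.J p * t.Pd p P.v n * (P.J p)⁻¹) *
            (P.J p * t.str p (P.v, n) * (P.J p)⁻¹) ^ t.m (P.v, n) := by
        rw [Run7.h99.DG.Bd.Pd_succ, conj_zpow]
        group
      rw [h1]
      have h2 := Run7.h99.DG.Bd.Zpos hcomb htr hpos t hp (show n < t.a by omega)
      exact (ih (by omega)).mul (zpow_nn ⟨(h2 0 0).le, h2 0 1, (h2 1 0).le, (h2 1 1).le⟩ (hm _))

theorem Qneg (hpos : C_pos) (t : PTD P) {p : (D → ℝ) × ℝ}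
    (hp : p ∈ P.Teich) (hm : ∀ w, t.m w ≤ 0) (n : ℕ) (hn : n ≤ t.a) :
    Qx (t.Pd p P.v n)⁻¹ := by
  induction n with
  | zero =>
      have : (t.Pd p P.v 0)⁻¹ = 1 := by
        simp [PTD.Pd]
      rw [this]
      exact Or.inl rfl
  | succ n ih =>
      have h1 : (t.Pd p P.v (n + 1))⁻¹ =
          t.str p (P.v, n) ^ (-t.m (P.v, n)) * (t.Pd p P.v n)⁻¹ := by
        rw [Run7.h99.DG.Bd.Pd_succ, _root_.mul_inv_rev, _root_.zpow_neg]
      rw [h1]
      have hk0 : n < T.num t.c P.v := by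
        have := t.hc.2.2
        omega
      have h2 := (hpos T P t p hp P.v n hk0).2.2.2.2
      exact (zpow_nn ⟨(h2 0 0).le, h2 0 1, (h2 1 0).le, (h2 1 1).le⟩
        (by have := hm (P.v, n); omega)).mul (ih (by omega))

theorem J00 (p : (D → ℝ) × ℝ) : (P.J p).1 0 0 = exp (p.2 / 2) := by simp [Portal.J]
theorem J01 (p : (D → ℝ) × ℝ) : (P.J p).1 0 1 = 0 := by simp [Portal.J]
theorem J11 (p : (D → ℝ) × ℝ) : (P.J p).1 1 1 = exp (-p.2 / 2) := by simp [Portal.J]

/-- The main facts. -/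
structure Core (t : PTD P) (p : (D → ℝ) × ℝ) : Prop where
  tr2 : 2 < tr (t.Mp p)
  ne : (t.Mp p).1 0 0 - (t.kap p)⁻¹ ≠ 0
  g0 : 0 < (Portal.rot (T := T) p.1 P.u * P.J p).1 0 0 +
    (Portal.rot (T := T) p.1 P.u * P.J p).1 1 0 * t.xiu p
  ou : ∀ j < Function.minimalPeriod T.rho P.u, 0 < (Portal.turns (T := T) p.1 P.u j).1 0 0 +
      (Portal.turns (T := T) p.1 P.u j).1 1 0 * t.xiu p ∧
      -1 < mob (Portal.turns (T := T) p.1 P.u j) (t.xiu p)
  ov : ∀ j < Function.minimalPeriod T.rho P.v, 0 < (Portal.turns (T := T) p.1 P.v j).1 0 0 +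
      (Portal.turns (T := T) p.1 P.v j).1 1 0 * t.xiv p ∧
      -1 < mob (Portal.turns (T := T) p.1 P.v j) (t.xiv p)

theorem posCase (hJ : C_J) (hcomb : C_comb) (htr : C_tr) (hpos : C_pos) (t : PTD P)
    {p : (D → ℝ) × ℝ} (hp : p ∈ P.Teich) (hm : ∀ w, 0 ≤ t.m w) :
    Core t p ∧ (∀ j, 0 ≤ mob (Portal.turns (T := T) p.1 P.u j) (t.xiu p)) ∧
      ∀ j, 0 ≤ mob (Portal.turns (T := T) p.1 P.v j) (t.xiv p) := by
  have hX := Qpos hcomb htr hpos t hp hm t.a le_rfl
  have hM : t.Mp p = Portal.rot (T := T) p.1 P.u * (P.J p * t.Pd p P.v t.a * (P.J p)⁻¹) := rfl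
  obtain ⟨r00, r11, r10⟩ := (hJ T P p hp).2.1 P.u
  have r01 : (Portal.rot (T := T) p.1 P.u).1 0 1 = 0 :=
    ((hJ T P p hp).1 P.u (Function.minimalPeriod T.rho P.u)).1
  have hl := hp.2.1
  have hlu := hp.2.2.1
  have j10 := (hJ T P p hp).2.2.2.1
  generalize hXX : P.J p * t.Pd p P.v t.a * (P.J p)⁻¹ = X at *
  have hr0 : 1 < (Portal.rot (T := T) p.1 P.u).1 0 0 := by
    rw [r00, hlu, ← Real.exp_zero]
    exact Real.exp_lt_exp.2 (by linarith)
  have hr1 : (Portal.rot (T := T) p.1 P.u).1 1 1 < 1 := by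
    rw [r11, hlu, ← Real.exp_zero]
    exact Real.exp_lt_exp.2 (by linarith)
  have hr11 : 0 < (Portal.rot (T := T) p.1 P.u).1 1 1 := by rw [r11]; exact exp_pos _
  have h2 : 2 < tr (t.Mp p) := by
    rw [hM]
    exact trQ hX r01 (by linarith) hr11 r10 (by linarith)
  obtain ⟨k1, k2⟩ := kap_facts h2
  change 1 < t.kap p at k1
  change t.kap p + (t.kap p)⁻¹ = tr (t.Mp p) at k2
  have k3 : (t.kap p)⁻¹ < 1 := inv_lt_one_of_one_lt₀ k1
  have hκ : t.kap p * (t.kap p)⁻¹ = 1 := mul_inv_cancel₀ (by linarith)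
  have hq0 : 0 < (t.kap p)⁻¹ := by positivity
  obtain ⟨x1, x2, x3, x4, x5⟩ := hX.pos
  have m01 : 0 ≤ (t.Mp p).1 0 1 := by
    rw [hM, mul01, r01]
    have := mul_nonneg (by linarith : (0 : ℝ) ≤ (Portal.rot (T := T) p.1 P.u).1 0 0) x4
    linarith
  have hne : 0 < (t.Mp p).1 0 0 - (t.kap p)⁻¹ := by
    rcases hX with h | h
    · rw [hM, h, mul_one]
      linarith
    · have b0 : 0 < (t.Mp p).1 0 1 := by
        rw [hM, mul01, r01]
        have := mul_pos (by linarith : (0 : ℝ) < (Portal.rot (T := T) p.1 P.u).1 0 0) h.2.1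
        linarith
      have c0 : 0 < (t.Mp p).1 1 0 := by
        rw [hM, mul10]
        have := mul_pos r10 x1
        have := mul_nonneg hr11.le x5
        linarith
      have hd := det1 (t.Mp p)
      unfold tr at k2
      generalize (t.kap p)⁻¹ = q at *
      generalize t.kap p = κ at *
      have hc : ((t.Mp p).1 0 0 - q) * ((t.Mp p).1 1 1 - q) = (t.Mp p).1 0 1 * (t.Mp p).1 1 0 := by
        have : κ = (t.Mp p).1 0 0 + (t.Mp p).1 1 1 - q := by linarith
        subst this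
        linear_combination hd - hκ
      have hbc := mul_pos b0 c0
      by_contra hcon
      push Not at hcon
      have h7 : 0 < (t.Mp p).1 1 1 - q := by linarith
      have := mul_nonneg (neg_nonneg.2 hcon) h7.le
      nlinarith
  have hxi : 0 ≤ t.xiu p := div_nonneg m01 hne.le
  have jp := exp_pos (p.2 / 2)
  have jp' := exp_pos (-p.2 / 2)
  have g0 : 0 < (Portal.rot (T := T) p.1 P.u * P.J p).1 0 0 +
      (Portal.rot (T := T) p.1 P.u * P.J p).1 1 0 * t.xiu p := by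
    rw [mul00, mul10, J00, r01]
    have e1 : 0 < (Portal.rot (T := T) p.1 P.u).1 0 0 * exp (p.2 / 2) := by positivity
    have e2 : 0 < (Portal.rot (T := T) p.1 P.u).1 1 0 * exp (p.2 / 2) +
      (Portal.rot (T := T) p.1 P.u).1 1 1 * (P.J p).1 1 0 := by positivity
    have e3 := mul_nonneg e2.le hxi
    linarith
  have hxv : 0 ≤ t.xiv p := by
    unfold PTD.xiv mob
    refine div_nonneg hxi (mul_nonneg ?_ g0.le)
    rw [mul00, J00, r01]
    have e1 : 0 < (Portal.rot (T := T) p.1 P.u).1 0 0 * exp (p.2 / 2) := by positivity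
    linarith
  refine ⟨⟨h2, hne.ne', g0, fun j _ => ?_, fun j _ => ?_⟩, fun j => ?_, fun j => ?_⟩
  · obtain ⟨a, b⟩ := orbit_pos (T := T) (P := P) hJ hp P.u hxi j
    exact ⟨a, by linarith⟩
  · obtain ⟨a, b⟩ := orbit_pos (T := T) (P := P) hJ hp P.v hxv j
    exact ⟨a, by linarith⟩
  · exact (orbit_pos (T := T) (P := P) hJ hp P.u hxi j).2
  · exact (orbit_pos (T := T) (P := P) hJ hp P.v hxv j).2

theorem negCase (hJ : C_J) (hpos : C_pos) (t : PTD P)
    {p : (D → ℝ) × ℝ} (hp : p ∈ P.Teich) (hm : ∀ w, t.m w ≤ 0) :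
    Core t p ∧ (∀ j < Function.minimalPeriod T.rho P.u,
        mob (Portal.turns (T := T) p.1 P.u j) (t.xiu p) ≤ 0) ∧
      ∀ j < Function.minimalPeriod T.rho P.v,
        mob (Portal.turns (T := T) p.1 P.v j) (t.xiv p) ≤ 0 := by
  have hX := Qneg hpos t hp hm t.a le_rfl
  change Qx (t.B p)⁻¹ at hX
  obtain ⟨r00, r11, r10⟩ := (hJ T P p hp).2.1 P.u
  have r01 : (Portal.rot (T := T) p.1 P.u).1 0 1 = 0 :=
    ((hJ T P p hp).1 P.u (Function.minimalPeriod T.rho P.u)).1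
  obtain ⟨v00, v11, v10⟩ := (hJ T P p hp).2.1 P.v
  have v01 : (Portal.rot (T := T) p.1 P.v).1 0 1 = 0 :=
    ((hJ T P p hp).1 P.v (Function.minimalPeriod T.rho P.v)).1
  have hl := hp.2.1
  have hlu := hp.2.2.1
  have j10 := (hJ T P p hp).2.2.2.1
  have hrel := (hJ T P p hp).2.2.1
  have hr0 : 1 < (Portal.rot (T := T) p.1 P.u).1 0 0 := by
    rw [r00, hlu, ← Real.exp_zero]
    exact Real.exp_lt_exp.2 (by linarith)
  have hv0 : (Portal.rot (T := T) p.1 P.v).1 0 0 < 1 := by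
    rw [v00, ← Real.exp_zero]
    exact Real.exp_lt_exp.2 (by linarith)
  have hv1 : 1 < (Portal.rot (T := T) p.1 P.v).1 1 1 := by
    rw [v11, ← Real.exp_zero]
    exact Real.exp_lt_exp.2 (by linarith)
  have hv00 : 0 < (Portal.rot (T := T) p.1 P.v).1 0 0 := by rw [v00]; exact exp_pos _
  have hMi : (t.Mp p)⁻¹ = P.J p * ((t.B p)⁻¹ * Portal.rot (T := T) p.1 P.v) * (P.J p)⁻¹ := by
    have e1 : t.Mp p = P.J p * (Portal.rot (T := T) p.1 P.v)⁻¹ * t.B p * (P.J p)⁻¹ := by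
      rw [← hrel]; unfold PTD.Mp; group
    rw [e1]; group
  have h2 : 2 < tr (t.Mp p) := by
    rw [← tr_inv, hMi, tr_conj, tr_comm]
    exact trQ hX v01 hv00 (by linarith) v10 (by linarith)
  obtain ⟨k1, k2⟩ := kap_facts h2
  change 1 < t.kap p at k1
  change t.kap p + (t.kap p)⁻¹ = tr (t.Mp p) at k2
  have k3 : (t.kap p)⁻¹ < 1 := inv_lt_one_of_one_lt₀ k1
  have hκ : t.kap p * (t.kap p)⁻¹ = 1 := mul_inv_cancel₀ (by linarith)
  have k4 : t.kap p + (t.kap p)⁻¹ = tr ((t.B p)⁻¹ * Portal.rot (T := T) p.1 P.v) := by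
    rw [k2, ← tr_inv, hMi, tr_conj]
  obtain ⟨x1, x2, x3, x4, x5⟩ := hX.pos
  -- the eigenvector
  set N : SL := (t.B p)⁻¹ * Portal.rot (T := T) p.1 P.v with hN
  have n3 : 0 < N.1 1 0 := by
    rw [hN, mul10]
    have := mul_nonneg x5 hv00.le
    have := mul_pos x2 v10
    linarith
  have n2 : 0 ≤ N.1 0 1 := by
    rw [hN, mul01, v01]
    have := mul_nonneg x4 (by linarith : (0 : ℝ) ≤ (Portal.rot (T := T) p.1 P.v).1 1 1)
    linarith
  have hdN := det1 N
  have hchar : (t.kap p - N.1 0 0) * (t.kap p - N.1 1 1) = N.1 0 1 * N.1 1 0 := by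
    unfold tr at k4
    have : (t.kap p)⁻¹ = N.1 0 0 + N.1 1 1 - t.kap p := by linarith
    rw [this] at hκ
    linear_combination hdN - hκ
  have e1 : 0 ≤ t.kap p - N.1 1 1 := by
    by_contra hcon
    push Not at hcon
    unfold tr at k4
    have h7 : 0 < t.kap p - N.1 0 0 := by linarith
    have := mul_nonneg n2 n3.le
    nlinarith
  have y1 : 0 ≤ a1 (Portal.rot (T := T) p.1 P.v) (t.kap p - N.1 1 1) (N.1 1 0) := by
    unfold a1
    rw [v01]
    have := mul_nonneg hv00.le e1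
    linarith
  have y2 : 0 < a2 (Portal.rot (T := T) p.1 P.v) (t.kap p - N.1 1 1) (N.1 1 0) := by
    unfold a2
    have := mul_nonneg v10.le e1
    have := mul_pos (by linarith : (0 : ℝ) < (Portal.rot (T := T) p.1 P.v).1 1 1) n3
    linarith
  have jp := exp_pos (p.2 / 2)
  have jp' := exp_pos (-p.2 / 2)
  have w2 : 0 < a2 (P.J p) (t.kap p - N.1 1 1) (N.1 1 0) := by
    unfold a2
    rw [J11]
    have := mul_nonneg j10.le e1
    have := mul_pos jp' n3
    linarith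
  -- `w` is an eigenvector of `Mp`
  have nv1 : a1 N (t.kap p - N.1 1 1) (N.1 1 0) = t.kap p * (t.kap p - N.1 1 1) := by
    unfold a1
    linear_combination -hchar
  have nv2 : a2 N (t.kap p - N.1 1 1) (N.1 1 0) = t.kap p * N.1 1 0 := by
    unfold a2
    ring
  have hw0 : (t.Mp p)⁻¹ * P.J p = P.J p * N := by rw [hMi]; group
  have hw1 : a1 (t.Mp p)⁻¹ (a1 (P.J p) (t.kap p - N.1 1 1) (N.1 1 0))
      (a2 (P.J p) (t.kap p - N.1 1 1) (N.1 1 0)) =
      t.kap p * a1 (P.J p) (t.kap p - N.1 1 1) (N.1 1 0) := by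
    rw [← a1_mul, hw0, a1_mul, nv1, nv2]
    unfold a1
    ring
  have hw2 : a2 (t.Mp p)⁻¹ (a1 (P.J p) (t.kap p - N.1 1 1) (N.1 1 0))
      (a2 (P.J p) (t.kap p - N.1 1 1) (N.1 1 0)) =
      t.kap p * a2 (P.J p) (t.kap p - N.1 1 1) (N.1 1 0) := by
    rw [← a2_mul, hw0, a2_mul, nv1, nv2]
    unfold a2
    ring
  set W1 := a1 (P.J p) (t.kap p - N.1 1 1) (N.1 1 0) with hW1
  set W2 := a2 (P.J p) (t.kap p - N.1 1 1) (N.1 1 0) with hW2
  have hact : Act (t.Mp p)⁻¹ (-W1 / W2) (-W1 / W2) (t.kap p) := by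
    unfold a1 at hw1
    unfold a2 at hw2
    constructor
    · field_simp
      linear_combination hw1
    · field_simp
      linear_combination hw2
  have hact2 := Act_inv hact (by linarith)
  rw [inv_inv] at hact2
  have hb : (t.Mp p).1 0 1 = ((t.Mp p).1 0 0 - (t.kap p)⁻¹) * (-W1 / W2) := by
    linear_combination hact2.1
  have hne : (t.Mp p).1 0 0 - (t.kap p)⁻¹ ≠ 0 := by
    intro h0
    rcases hX with h | h
    · have hB : t.B p = 1 := inv_eq_one.1 h
      have : t.Mp p = Portal.rot (T := T) p.1 P.u := by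
        unfold PTD.Mp; rw [hB]; group
      rw [this] at h0
      linarith
    · rw [h0, zero_mul] at hb
      have hB : (t.B p).1 0 1 < 0 := by
        have := h.2.1
        rw [inv01] at this
        linarith
      have : (t.Mp p).1 0 1 < 0 := by
        unfold PTD.Mp
        rw [mul01, r01, mul01, mul01, mul00, inv01, inv11, J01, J00]
        have := mul_pos (mul_pos (by linarith : (0:ℝ) < (Portal.rot (T := T) p.1 P.u).1 0 0) jp) jp
        nlinarith
      linarith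
  have hxi : t.xiu p * W2 = -W1 := by
    have : t.xiu p = -W1 / W2 := by
      unfold PTD.xiu
      rw [div_eq_iff hne, hb]; ring
    rw [this]
    field_simp
  -- vectors
  have hy1 : Portal.rot (T := T) p.1 P.u * P.J p * Portal.rot (T := T) p.1 P.v = P.J p := by
    rw [hrel]; group
  have hxv := mob_vec (g := Portal.rot (T := T) p.1 P.u * P.J p) (s := t.xiu p)
    (y1 := a1 (Portal.rot (T := T) p.1 P.v) (t.kap p - N.1 1 1) (N.1 1 0))
    (y2 := a2 (Portal.rot (T := T) p.1 P.v) (t.kap p - N.1 1 1) (N.1 1 0))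
    (w1 := W1) (w2 := W2)
    (by rw [mul01, r01, J01]; ring)
    (by rw [mul00, r01, J00]; have := mul_pos (by linarith : (0:ℝ) < (Portal.rot (T := T) p.1 P.u).1 0 0) jp; linarith)
    (by
      have : (Portal.rot (T := T) p.1 P.u * P.J p).1 0 1 = 0 := by rw [mul01, r01, J01]; ring
      have h8 : W1 = a1 (Portal.rot (T := T) p.1 P.u * P.J p)
        (a1 (Portal.rot (T := T) p.1 P.v) (t.kap p - N.1 1 1) (N.1 1 0))
        (a2 (Portal.rot (T := T) p.1 P.v) (t.kap p - N.1 1 1) (N.1 1 0)) := by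
        rw [← a1_mul, hy1]
      rw [h8]
      conv_lhs => unfold a1
      rw [this, zero_mul, add_zero]
      rfl)
    (by
      have h8 : W2 = a2 (Portal.rot (T := T) p.1 P.u * P.J p)
        (a1 (Portal.rot (T := T) p.1 P.v) (t.kap p - N.1 1 1) (N.1 1 0))
        (a2 (Portal.rot (T := T) p.1 P.v) (t.kap p - N.1 1 1) (N.1 1 0)) := by
        rw [← a2_mul, hy1]
      rw [h8]
      rfl)
    y2 w2 hxi
  have hyv : t.xiv p * a2 (Portal.rot (T := T) p.1 P.v) (t.kap p - N.1 1 1) (N.1 1 0) =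
      -a1 (Portal.rot (T := T) p.1 P.v) (t.kap p - N.1 1 1) (N.1 1 0) := hxv.2
  have hOv := orbit_neg (T := T) (P := P) hJ hp P.v e1 n3 hyv
  have u1 : 0 ≤ a1 (P.J p) (a1 (Portal.rot (T := T) p.1 P.v) (t.kap p - N.1 1 1) (N.1 1 0))
      (a2 (Portal.rot (T := T) p.1 P.v) (t.kap p - N.1 1 1) (N.1 1 0)) := by
    conv_rhs => unfold a1
    rw [J01, J00, zero_mul, add_zero]
    exact mul_nonneg jp.le y1
  have u2 : 0 < a2 (P.J p) (a1 (Portal.rot (T := T) p.1 P.v) (t.kap p - N.1 1 1) (N.1 1 0))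
      (a2 (Portal.rot (T := T) p.1 P.v) (t.kap p - N.1 1 1) (N.1 1 0)) := by
    have h9 := mul_nonneg j10.le y1
    have h10 := mul_pos jp' y2
    have h11 : a2 (P.J p) (a1 (Portal.rot (T := T) p.1 P.v) (t.kap p - N.1 1 1) (N.1 1 0))
      (a2 (Portal.rot (T := T) p.1 P.v) (t.kap p - N.1 1 1) (N.1 1 0)) =
      (P.J p).1 1 0 * a1 (Portal.rot (T := T) p.1 P.v) (t.kap p - N.1 1 1) (N.1 1 0) +
      exp (-p.2 / 2) * a2 (Portal.rot (T := T) p.1 P.v) (t.kap p - N.1 1 1) (N.1 1 0) := by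
      rw [← J11 (P := P) p]; rfl
    rw [h11]
    linarith
  have q1 : a1 (Portal.rot (T := T) p.1 P.u)
      (a1 (P.J p) (a1 (Portal.rot (T := T) p.1 P.v) (t.kap p - N.1 1 1) (N.1 1 0))
        (a2 (Portal.rot (T := T) p.1 P.v) (t.kap p - N.1 1 1) (N.1 1 0)))
      (a2 (P.J p) (a1 (Portal.rot (T := T) p.1 P.v) (t.kap p - N.1 1 1) (N.1 1 0))
        (a2 (Portal.rot (T := T) p.1 P.v) (t.kap p - N.1 1 1) (N.1 1 0))) = W1 :=
    (a1_mul _ _ _ _).symm.trans ((a1_mul _ _ _ _).symm.trans (by rw [hy1]))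
  have q2 : a2 (Portal.rot (T := T) p.1 P.u)
      (a1 (P.J p) (a1 (Portal.rot (T := T) p.1 P.v) (t.kap p - N.1 1 1) (N.1 1 0))
        (a2 (Portal.rot (T := T) p.1 P.v) (t.kap p - N.1 1 1) (N.1 1 0)))
      (a2 (P.J p) (a1 (Portal.rot (T := T) p.1 P.v) (t.kap p - N.1 1 1) (N.1 1 0))
        (a2 (Portal.rot (T := T) p.1 P.v) (t.kap p - N.1 1 1) (N.1 1 0))) = W2 :=
    (a2_mul _ _ _ _).symm.trans ((a2_mul _ _ _ _).symm.trans (by rw [hy1]))
  have hOu := orbit_neg (T := T) (P := P) hJ hp P.u (s := t.xiu p) u1 u2 (by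
    rw [q1, q2]
    exact hxi)
  refine ⟨⟨h2, hne, hxv.1, fun j hj => ⟨(hOu j hj).1, (hOu j hj).2.1⟩,
    fun j hj => ⟨(hOv j hj).1, (hOv j hj).2.1⟩⟩, fun j hj => (hOu j hj).2.2,
    fun j hj => (hOv j hj).2.2⟩

/-! ### The tails at the darts -/

theorem core (hJ : C_J) (hcomb : C_comb) (htr : C_tr) (hpos : C_pos) (t : PTD P)
    {p : (D → ℝ) × ℝ} (hp : p ∈ P.Teich) : Core t p := by
  rcases t.sgn with h | h
  · exact (posCase hJ hcomb htr hpos t hp h).1
  · exact (negCase hJ hpos t hp h).1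

theorem per_pos (d : D) : 0 < Function.minimalPeriod T.rho d :=
  Function.minimalPeriod_pos_of_mem_periodicPts ((rho_inj T).mem_periodicPts d)

theorem per_eq (d : D) : T.rho^[Function.minimalPeriod T.rho d] d = d :=
  Function.isPeriodicPt_minimalPeriod T.rho d

theorem find_eq {d d' : D} {j : ℕ} (hj : j < Function.minimalPeriod T.rho d)
    (h : ∃ i, T.rho^[i] d = d') (hd : T.rho^[j] d = d') [DecidablePred fun i => T.rho^[i] d = d'] :
    Nat.find h = j := by
  have h1 := Nat.find_spec h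
  have h2 : Nat.find h ≤ j := Nat.find_min' h hd
  exact Function.iterate_injOn_Iio_minimalPeriod (Set.mem_Iio.2 (lt_of_le_of_lt h2 hj))
    (Set.mem_Iio.2 hj) (h1.trans hd.symm)

theorem xi_u (t : PTD P) (p : (D → ℝ) × ℝ) {j : ℕ}
    (hj : j < Function.minimalPeriod T.rho P.u) :
    t.xi p (T.rho^[j] P.u) = mob (Portal.turns (T := T) p.1 P.u j) (t.xiu p) := by
  unfold PTD.xi
  have h : ∃ i, T.rho^[i] P.u = T.rho^[j] P.u := ⟨j, rfl⟩
  rw [dif_pos h, find_eq hj h rfl]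

theorem not_u (P : Portal T) {j : ℕ} (hj : j < Function.minimalPeriod T.rho P.v) :
    ¬ ∃ i, T.rho^[i] P.u = T.rho^[j] P.v := by
  rintro ⟨i, hi⟩
  have h1 : T.rho^[Function.minimalPeriod T.rho P.v - j + i] P.u = P.v := by
    rw [Function.iterate_add_apply, hi, ← Function.iterate_add_apply]
    have : Function.minimalPeriod T.rho P.v - j + j = Function.minimalPeriod T.rho P.v := by omega
    rw [this, per_eq]
  exact P.huv _ h1

theorem xi_v (t : PTD P) (p : (D → ℝ) × ℝ) {j : ℕ}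
    (hj : j < Function.minimalPeriod T.rho P.v) :
    t.xi p (T.rho^[j] P.v) = mob (Portal.turns (T := T) p.1 P.v j) (t.xiv p) := by
  unfold PTD.xi
  have h : ∃ i, T.rho^[i] P.v = T.rho^[j] P.v := ⟨j, rfl⟩
  rw [dif_neg (not_u P hj), dif_pos h, find_eq hj h rfl]

theorem orb_lt {d d' : D} (h : ∃ j, T.rho^[j] d = d') :
    ∃ j < Function.minimalPeriod T.rho d, T.rho^[j] d = d' := by
  obtain ⟨j, hj⟩ := h
  exact ⟨j % Function.minimalPeriod T.rho d, Nat.mod_lt _ (per_pos d), by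
    rw [Function.iterate_mod_minimalPeriod_eq, hj]⟩

theorem xi_0 (t : PTD P) (p : (D → ℝ) × ℝ) {d : D} (h1 : ∀ j, T.rho^[j] d ≠ P.u)
    (h2 : ∀ j, T.rho^[j] d ≠ P.v) : t.xi p d = 0 := by
  have key : ∀ e : D, (∀ j, T.rho^[j] d ≠ e) → ¬ ∃ j, T.rho^[j] e = d := by
    intro e he h
    obtain ⟨j, hj, hd⟩ := orb_lt h
    refine he (Function.minimalPeriod T.rho e - j) ?_
    rw [← hd, ← Function.iterate_add_apply]
    have : Function.minimalPeriod T.rho e - j + j = Function.minimalPeriod T.rho e := by omega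
    rw [this, per_eq]
  unfold PTD.xi
  rw [dif_neg (key _ h1), dif_neg (key _ h2)]

/-- the three kinds of darts -/
theorem trichotomy (P : Portal T) (d : D) :
    (∃ j < Function.minimalPeriod T.rho P.u, T.rho^[j] P.u = d) ∨
    (∃ j < Function.minimalPeriod T.rho P.v, T.rho^[j] P.v = d) ∨
    ((∀ j, T.rho^[j] d ≠ P.u) ∧ ∀ j, T.rho^[j] d ≠ P.v) := by
  by_cases h1 : ∃ j, T.rho^[j] d = P.u
  · left
    obtain ⟨j, hj, hd⟩ := orb_lt h1
    apply orb_lt
    refine ⟨Function.minimalPeriod T.rho d - j, ?_⟩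
    rw [← hd, ← Function.iterate_add_apply]
    have : Function.minimalPeriod T.rho d - j + j = Function.minimalPeriod T.rho d := by omega
    rw [this, per_eq]
  · by_cases h2 : ∃ j, T.rho^[j] d = P.v
    · right; left
      obtain ⟨j, hj, hd⟩ := orb_lt h2
      apply orb_lt
      refine ⟨Function.minimalPeriod T.rho d - j, ?_⟩
      rw [← hd, ← Function.iterate_add_apply]
      have : Function.minimalPeriod T.rho d - j + j = Function.minimalPeriod T.rho d := by omega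
      rw [this, per_eq]
    · right; right
      push Not at h1 h2
      exact ⟨h1, h2⟩

theorem io_of {a b : D} (h : T.io a = b) : a = T.io b := by rw [← h, T.io_io]

theorem eig_of (hJ : C_J) (hR : C_R) (hcomb : C_comb) (htr : C_tr) (hpos : C_pos) : C_eig := by
  intro D _ _ T P t p hp
  have hC := core hJ hcomb htr hpos t hp
  obtain ⟨h2, hne, hg0, hou, hov⟩ := hC
  obtain ⟨k1, k2⟩ := kap_facts h2
  change 1 < t.kap p at k1
  change t.kap p + (t.kap p)⁻¹ = tr (t.Mp p) at k2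
  have k0 : 0 < t.kap p := by linarith
  have hJp := hJ T P p hp
  have pu := per_pos (T := T) P.u
  have pv := per_pos (T := T) P.v
  have xu : t.xi p P.u = t.xiu p := by
    have := xi_u t p pu
    rw [turns_zero, mob_one] at this
    exact this
  have xv : t.xi p P.v = t.xiv p := by
    have := xi_v t p pv
    rw [turns_zero, mob_one] at this
    exact this
  have aM : Act (t.Mp p) (t.xiu p) (t.xiu p) (t.kap p)⁻¹ := Act_eig k1 k2 hne
  have r01 : (Portal.rot (T := T) p.1 P.u).1 0 1 = 0 :=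
    (hJp.1 P.u (Function.minimalPeriod T.rho P.u)).1
  have r00 : 0 < (Portal.rot (T := T) p.1 P.u).1 0 0 :=
    (hJp.1 P.u (Function.minimalPeriod T.rho P.u)).2.1
  have g01 : (Portal.rot (T := T) p.1 P.u * P.J p).1 0 1 = 0 := by
    rw [mul01, r01, J01]; ring
  have g00 : 0 < (Portal.rot (T := T) p.1 P.u * P.J p).1 0 0 := by
    rw [mul00, r01, J00]
    have := mul_pos r00 (exp_pos (p.2 / 2))
    linarith
  have aG : Act (Portal.rot (T := T) p.1 P.u * P.J p) (t.xiv p) (t.xiu p)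
      ((Portal.rot (T := T) p.1 P.u * P.J p).1 0 0 +
        (Portal.rot (T := T) p.1 P.u * P.J p).1 1 0 * t.xiu p)⁻¹ :=
    Act_tri g01 g00.ne' hg0.ne'
  have om0 : 0 < t.om p := div_pos k0 hg0
  have aR : Act (t.RJ p) (t.xiv p) (t.xiu p) (t.om p) := by
    have e1 : t.RJ p = (t.Mp p)⁻¹ * (Portal.rot (T := T) p.1 P.u * P.J p) := by
      unfold PTD.RJ PTD.Mp; group
    have e2 := Act_inv aM (inv_ne_zero k0.ne')
    rw [inv_inv] at e2
    rw [e1]
    unfold PTD.om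
    rw [div_eq_mul_inv]
    exact Act_mul aG e2
  have aV : Act (Portal.rot (T := T) p.1 P.v * (t.B p)⁻¹) (t.xiv p) (t.xiv p) (t.kap p) := by
    have e1 : Portal.rot (T := T) p.1 P.v * (t.B p)⁻¹ = (t.RJ p)⁻¹ * ((t.Mp p)⁻¹ * t.RJ p) := by
      have e3 : t.Mp p = P.J p * (Portal.rot (T := T) p.1 P.v)⁻¹ * t.B p * (P.J p)⁻¹ := by
        rw [← hJp.2.2.1]; unfold PTD.Mp; group
      rw [e3]; unfold PTD.RJ; group
    have e2 := Act_inv aM (inv_ne_zero k0.ne')
    rw [inv_inv] at e2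
    have e4 := Act_mul (Act_mul aR e2) (Act_inv aR om0.ne')
    rw [e1]
    have e5 : (t.om p)⁻¹ * (t.kap p * t.om p) = t.kap p := by
      field_simp
    rwa [e5] at e4
  have tA : ∀ j < Function.minimalPeriod T.rho P.u, Act (Portal.turns (T := T) p.1 P.u j)
      (t.xi p (T.rho^[j] P.u)) (t.xiu p) ((Portal.turns (T := T) p.1 P.u j).1 0 0 +
        (Portal.turns (T := T) p.1 P.u j).1 1 0 * t.xiu p)⁻¹ := by
    intro j hj
    rw [xi_u t p hj]
    have h := hJp.1 P.u j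
    exact Act_tri h.1 h.2.1.ne' (hou j hj).1.ne'
  have tV : ∀ j < Function.minimalPeriod T.rho P.v, Act (Portal.turns (T := T) p.1 P.v j)
      (t.xi p (T.rho^[j] P.v)) (t.xiv p) ((Portal.turns (T := T) p.1 P.v j).1 0 0 +
        (Portal.turns (T := T) p.1 P.v j).1 1 0 * t.xiv p)⁻¹ := by
    intro j hj
    rw [xi_v t p hj]
    have h := hJp.1 P.v j
    exact Act_tri h.1 h.2.1.ne' (hov j hj).1.ne'
  have hio := hp.1
  obtain ⟨-, -, R3, R4, R5⟩ := hR T P t p hio
  have rhod : ∀ d : D, T.rho d = T.io (T.sg (T.sg d)) := fun _ => rfl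
  have lt' : ∀ d, (-1 : ℝ) < t.xi p d := by
    intro d
    rcases trichotomy P d with ⟨j, hj, rfl⟩ | ⟨j, hj, rfl⟩ | ⟨q1, q2⟩
    · rw [xi_u t p hj]; exact (hou j hj).2
    · rw [xi_v t p hj]; exact (hov j hj).2
    · rw [xi_0 t p q1 q2]; norm_num
  have rot6 : ∀ d, ∃ r, 0 < r ∧ Act (t.Rs p d * t.Rs p (T.sg d) * t.Ri p (T.sg (T.sg d)))
      (t.xi p (T.rho d)) (t.xi p d) r := by
    intro d
    rcases trichotomy P d with ⟨j, hj, rfl⟩ | ⟨j, hj, rfl⟩ | ⟨q1, q2⟩
    · have a1 := Act_inv (tA j hj) (inv_ne_zero (hou j hj).1.ne')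
      rcases Nat.lt_or_ge (j + 1) (Function.minimalPeriod T.rho P.u) with hj1 | hj1
      · have n1 : T.sg (T.sg (T.rho^[j] P.u)) ≠ T.io P.u := by
          intro h
          have h' : T.rho^[j + 1] P.u = P.u := by
            rw [Function.iterate_succ_apply', rhod, h, T.io_io]
          have := Function.iterate_injOn_Iio_minimalPeriod (f := T.rho) (x := P.u)
            (Set.mem_Iio.2 hj1) (Set.mem_Iio.2 pu) (by simpa using h')
          omega
        have n2 : T.sg (T.sg (T.rho^[j] P.u)) ≠ T.io P.v := by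
          intro h
          have h' : T.rho^[j + 1] P.u = P.v := by
            rw [Function.iterate_succ_apply', rhod, h, T.io_io]
          exact P.huv _ h'
        have a2 := tA (j + 1) hj1
        rw [R3 _ n1 n2]
        have e1 : step false (p.1 (T.sg (T.sg (T.rho^[j] P.u)))) =
            (Portal.turns (T := T) p.1 P.u j)⁻¹ * Portal.turns (T := T) p.1 P.u (j + 1) := by
          rw [turns_succ]; group
        rw [e1]
        rw [Function.iterate_succ_apply'] at a2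
        refine ⟨_, ?_, Act_mul a2 a1⟩
        have := (hou j hj).1
        have := (hou (j + 1) hj1).1
        positivity
      · have hj2 : j + 1 = Function.minimalPeriod T.rho P.u := by omega
        have h' : T.rho (T.rho^[j] P.u) = P.u :=
          (Function.iterate_succ_apply' T.rho j P.u).symm.trans
            (by rw [Nat.succ_eq_add_one, hj2, per_eq])
        have n1 : T.sg (T.sg (T.rho^[j] P.u)) = T.io P.u := io_of (T := T) h'
        rw [R4 _ n1, h', xu]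
        have e1 : step false (p.1 (T.sg (T.sg (T.rho^[j] P.u)))) *
            (P.J p * t.B p * (P.J p)⁻¹) = (Portal.turns (T := T) p.1 P.u j)⁻¹ * t.Mp p := by
          have e2 : Portal.rot (T := T) p.1 P.u = Portal.turns (T := T) p.1 P.u j *
              step false (p.1 (T.sg (T.sg (T.rho^[j] P.u)))) := by
            rw [← turns_succ, hj2]; rfl
          unfold PTD.Mp
          rw [e2]; group
        rw [e1]
        refine ⟨_, ?_, Act_mul aM a1⟩
        have := (hou j hj).1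
        positivity
    · have a1 := Act_inv (tV j hj) (inv_ne_zero (hov j hj).1.ne')
      have n1 : T.sg (T.sg (T.rho^[j] P.v)) ≠ T.io P.u := by
        intro h
        have h' : T.rho^[j + 1] P.v = P.u := by
          rw [Function.iterate_succ_apply', rhod, h, T.io_io]
        rcases Nat.lt_or_ge (j + 1) (Function.minimalPeriod T.rho P.v) with hj1 | hj1
        · exact not_u P hj1 ⟨0, h'.symm⟩
        · have hj2 : j + 1 = Function.minimalPeriod T.rho P.v := by omega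
          rw [hj2, per_eq] at h'
          exact P.huv 0 h'.symm
      rcases Nat.lt_or_ge (j + 1) (Function.minimalPeriod T.rho P.v) with hj1 | hj1
      · have n2 : T.sg (T.sg (T.rho^[j] P.v)) ≠ T.io P.v := by
          intro h
          have h' : T.rho^[j + 1] P.v = P.v := by
            rw [Function.iterate_succ_apply', rhod, h, T.io_io]
          have := Function.iterate_injOn_Iio_minimalPeriod (f := T.rho) (x := P.v)
            (Set.mem_Iio.2 hj1) (Set.mem_Iio.2 pv) (by simpa using h')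
          omega
        have a2 := tV (j + 1) hj1
        rw [R3 _ n1 n2]
        have e1 : step false (p.1 (T.sg (T.sg (T.rho^[j] P.v)))) =
            (Portal.turns (T := T) p.1 P.v j)⁻¹ * Portal.turns (T := T) p.1 P.v (j + 1) := by
          rw [turns_succ]; group
        rw [e1]
        rw [Function.iterate_succ_apply'] at a2
        refine ⟨_, ?_, Act_mul a2 a1⟩
        have := (hov j hj).1
        have := (hov (j + 1) hj1).1
        positivity
      · have hj2 : j + 1 = Function.minimalPeriod T.rho P.v := by omega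
        have h' : T.rho (T.rho^[j] P.v) = P.v :=
          (Function.iterate_succ_apply' T.rho j P.v).symm.trans
            (by rw [Nat.succ_eq_add_one, hj2, per_eq])
        have n2 : T.sg (T.sg (T.rho^[j] P.v)) = T.io P.v := io_of (T := T) h'
        rw [R5 _ n2, h', xv]
        have e1 : step false (p.1 (T.sg (T.sg (T.rho^[j] P.v)))) * (t.B p)⁻¹ =
            (Portal.turns (T := T) p.1 P.v j)⁻¹ *
              (Portal.rot (T := T) p.1 P.v * (t.B p)⁻¹) := by
          have e2 : Portal.rot (T := T) p.1 P.v = Portal.turns (T := T) p.1 P.v j *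
              step false (p.1 (T.sg (T.sg (T.rho^[j] P.v)))) := by
            rw [← turns_succ, hj2]; rfl
          rw [e2]; group
        rw [e1]
        refine ⟨_, ?_, Act_mul aV a1⟩
        have := (hov j hj).1
        positivity
    · have n1 : T.sg (T.sg d) ≠ T.io P.u := by
        intro h
        exact q1 1 (by rw [Function.iterate_one, rhod, h, T.io_io])
      have n2 : T.sg (T.sg d) ≠ T.io P.v := by
        intro h
        exact q2 1 (by rw [Function.iterate_one, rhod, h, T.io_io])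
      have x1 : t.xi p (T.rho d) = 0 := by
        refine xi_0 t p (fun j => ?_) fun j => ?_
        · rw [← Function.iterate_succ_apply]; exact q1 _
        · rw [← Function.iterate_succ_apply]; exact q2 _
      rw [R3 _ n1 n2, x1, xi_0 t p q1 q2]
      refine ⟨exp (p.1 (T.sg (T.sg d)) / 2), exp_pos _, ?_, ?_⟩
      · rw [step00, step01]; ring
      · rw [step10, step11]; ring
  refine ⟨h2, k1, hne, xu, xv, lt', ?_, ?_, om0, ?_, ?_, rot6, ?_, fun d q1 q2 => xi_0 t p q1 q2,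
    hg0, fun j hj => (hou j hj).1, fun j hj => (hov j hj).1⟩
  · intro hm d
    obtain ⟨-, s1, s2⟩ := posCase hJ hcomb htr hpos t hp hm
    rcases trichotomy P d with ⟨j, hj, rfl⟩ | ⟨j, hj, rfl⟩ | ⟨q1, q2⟩
    · rw [xi_u t p hj]; exact s1 j
    · rw [xi_v t p hj]; exact s2 j
    · rw [xi_0 t p q1 q2]
  · intro hm d
    obtain ⟨-, s1, s2⟩ := negCase hJ hpos t hp hm
    rcases trichotomy P d with ⟨j, hj, rfl⟩ | ⟨j, hj, rfl⟩ | ⟨q1, q2⟩
    · rw [xi_u t p hj]; exact s1 j hj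
    · rw [xi_v t p hj]; exact s2 j hj
    · rw [xi_0 t p q1 q2]
  · rw [xu]; exact aM
  · rw [xu, xv]; exact aR
  · intro d hd1 hd2
    obtain ⟨r, hr, hA⟩ := rot6 (T.sg d)
    have R3' := R3 (T.sg d) (by rw [T.sg3]; exact hd1) (by rw [T.sg3]; exact hd2)
    rw [T.sg3 d] at R3' hA
    rw [R3'] at hA
    have e1 : T.rho (T.sg d) = T.io d := by rw [rhod, T.sg3]
    rw [e1] at hA
    obtain ⟨b1, b2⟩ := hA
    rw [step00, step01] at b1
    rw [step10, step11] at b2
    have e2 : exp (-(p.1 d)) * exp (p.1 d / 2) = exp (-(p.1 d) / 2) := by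
      rw [← exp_add]; ring_nf
    have e3 : exp (p.1 d / 2) ≠ 0 := (exp_pos _).ne'
    apply mul_left_cancel₀ e3
    rw [← b2] at b1
    linear_combination (t.xi p (T.io d) * (1 + t.xi p (T.sg d))) * e2 - b1

end Run7.h568.DG.EigOf811
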