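import Pool.Agent.Run7.h568.DG.Iface

open Real Matrix Filter Topology

noncomputable section

namespace Run7.h568.DG

theorem rpow_super {a b k : ℝ} (ha : 0 ≤ a) (hb : 0 ≤ b) (hk : 1 ≤ k) :
    a ^ k + b ^ k ≤ (a + b) ^ k := Real.add_rpow_le_rpow_add ha hb hk

theorem cosh_scale (k r : ℝ) (hk : 1 ≤ k) : 2 * cosh (k * r) ≤ (2 * cosh r) ^ k := by
  have h := rpow_super (exp_pos r).le (exp_pos (-r)).le hk
  rw [← Real.exp_mul, ← Real.exp_mul] at h
  rw [Real.cosh_eq, Real.cosh_eq]
  have e1 : k * r = r * k := mul_comm _ _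
  have e2 : -(k * r) = -r * k := by ring
  rw [e1] at *
  have e3 : 2 * ((exp r + exp (-r)) / 2) = exp r + exp (-r) := by ring
  rw [e3]
  have e4 : -(r * k) = -r * k := by ring
  rw [e4]
  linarith

theorem sinh_scale (k u : ℝ) (hk : 1 ≤ k) (hu : 0 < u) : (2 * sinh u) ^ k ≤ 2 * sinh (k * u) := by
  have hs : 0 ≤ 2 * sinh u := by have := Real.sinh_pos_iff.2 hu; linarith
  have h := rpow_super hs (exp_pos (-u)).le hk
  have e0 : 2 * sinh u + exp (-u) = exp u := by rw [Real.sinh_eq]; ring
  rw [e0, ← Real.exp_mul, ← Real.exp_mul] at h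
  rw [Real.sinh_eq (k * u)]
  have e1 : k * u = u * k := mul_comm _ _
  have e2 : -(k * u) = -u * k := by ring
  rw [e2, e1]
  linarith

theorem sinh_rec (L : ℝ) (hL : 0 < L) (n : ℕ) :
    sinh (((n + 1 : ℕ) : ℝ) * L / 2) / sinh (L / 2)
      = exp (n * L / 2) + exp (-(L / 2)) * (sinh (n * L / 2) / sinh (L / 2)) := by
  have hs : 0 < sinh (L / 2) := Real.sinh_pos_iff.2 (by linarith)
  rw [div_eq_iff hs.ne', add_mul, mul_assoc, div_mul_cancel₀ _ hs.ne']
  have : ((n + 1 : ℕ) : ℝ) * L / 2 = n * L / 2 + L / 2 := by push_cast; ring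
  rw [this, Real.sinh_eq, Real.sinh_eq, Real.sinh_eq]
  have e1 : exp (-(n * L / 2 + L / 2)) = exp (-(n * L / 2)) * exp (-(L / 2)) := by
    rw [← exp_add]; congr 1; ring
  have e2 : exp (n * L / 2 + L / 2) = exp (n * L / 2) * exp (L / 2) := by rw [← exp_add]
  rw [e1, e2]
  ring

theorem ineq : S_ineq := by
  intro k hk l hl
  have hs : 0 < sinh (l / 2) := Real.sinh_pos_iff.2 (by linarith)
  have hk0 : 0 < k := by linarith
  have hs' : 0 < sinh (k * l / 2) := Real.sinh_pos_iff.2 (by positivity)
  have hss : (2 * sinh (l / 2)) ^ k ≤ 2 * sinh (k * l / 2) := by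
    have := sinh_scale k (l / 2) hk (by linarith)
    rwa [show k * (l / 2) = k * l / 2 by ring] at this
  refine ⟨fun r => ?_, fun n => ?_⟩
  · have h1 := cosh_scale k r hk
    have hc : 0 < cosh r := cosh_pos r
    have e1 : cosh (k * r) / sinh (k * l / 2) = (2 * cosh (k * r)) / (2 * sinh (k * l / 2)) := by
      field_simp
    have e2 : cosh r / sinh (l / 2) = (2 * cosh r) / (2 * sinh (l / 2)) := by field_simp
    rw [e1, e2, Real.div_rpow (by positivity) (by positivity)]
    exact div_le_div₀ (by positivity) h1 (by positivity) hss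
  · set a : ℕ → ℝ := fun n => sinh (n * l / 2) / sinh (l / 2) with ha
    set a' : ℕ → ℝ := fun n => sinh (n * (k * l) / 2) / sinh (k * l / 2) with ha'
    have r1 : ∀ n, a (n + 1) = exp (n * l / 2) + exp (-(l / 2)) * a n := by
      intro n
      exact sinh_rec l hl n
    have r2 : ∀ n, a' (n + 1) = exp (n * (k * l) / 2) + exp (-(k * l / 2)) * a' n := by
      intro n
      exact sinh_rec (k * l) (by positivity) n
    have pos : ∀ n, 0 ≤ a n := by
      intro n
      simp only [ha]
      have : 0 ≤ sinh (n * l / 2) := Real.sinh_nonneg_iff.2 (by positivity)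
      positivity
    have main : ∀ n, a' n ≤ (a n) ^ k := by
      intro n
      induction n with
      | zero =>
        simp only [ha, ha']
        simp
        rw [Real.zero_rpow hk0.ne']
      | succ n ih =>
        rw [r1, r2]
        have h1 := rpow_super (exp_pos (n * l / 2)).le
          (mul_nonneg (exp_pos (-(l / 2))).le (pos n)) hk
        have h2 : exp (n * l / 2) ^ k = exp (n * (k * l) / 2) := by
          rw [← Real.exp_mul]; congr 1; ring
        have h3 : (exp (-(l / 2)) * a n) ^ k = exp (-(k * l / 2)) * (a n) ^ k := by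
          rw [Real.mul_rpow (exp_pos _).le (pos n), ← Real.exp_mul]
          congr 2; ring
        rw [h2, h3] at h1
        have h4 : exp (-(k * l / 2)) * a' n ≤ exp (-(k * l / 2)) * (a n) ^ k :=
          mul_le_mul_of_nonneg_left ih (exp_pos _).le
        linarith
    exact main n

end Run7.h568.DG
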