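import Pool.Agent.Run7.h568.DG.Defs

/-!
# Every punctured surface other than the thrice punctured sphere has such a triangulation
-/

noncomputable section

namespace Run7.h568.DG

variable {D : Type} [Fintype D] [DecidableEq D]

/-- Number of punctures: number of orbits of `rho`. -/
def Tri.punctures (T : Tri D) : ℕ := (Set.range fun d => {e | ∃ j, T.rho^[j] d = e}).ncard

/-- For every genus `g` and number `n ≥ 1` of punctures with `3 g - 3 + n ≥ 1` there is an ideal
triangulation containing an annulus of two triangles; the Euler characteristic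
`n - card D / 2 + card D / 3 = 2 - 2 g` says that `card D = 12 g + 6 n - 12`.
PROOF. Start with the annulus with `b1` glued to `b2` (`g = n = 1`, `D = Fin 6`, `decide`) or with
`b1`, `b2` glued to self-folded triangles (`g = 0`, `n = 4`, `D = Fin 12`, `decide`).  Then
open the edge `{b1, io b1}` = `{b, a}` and insert
(P) two triangles `(a', s1, s2)`, `(b', t1, t2)` with `io : a ↔ a', b ↔ b', s1 ↔ t2, s2 ↔ t1`: one
more puncture, 6 more darts;
(H) a handle: the hexagon with sides `a', b', x, y, x', y'` (`io : a ↔ a', b ↔ b', x ↔ x',
y ↔ y'`) cut into 4 triangles: genus + 1, 12 more darts, no new orbit.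
The orbits of the new `rho` on `D ⊕ Fin 6` or `D ⊕ Fin 12`: the first return map to `D` is the old
`rho`, every new dart lies on an orbit through `D`, except one orbit (the new puncture) in (P). -/
def S_surf : Prop := ∀ g n : ℕ, 1 ≤ n → 4 ≤ 3 * g + n →
  ∃ (D : Type) (_ : Fintype D) (_ : DecidableEq D) (T : Tri D),
    Nonempty (Annulus T) ∧ T.punctures = n ∧ Fintype.card D + 12 = 12 * g + 6 * n

end Run7.h568.DG
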