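import Pool.Agent.Run7.h568.DG.CDefs
import Pool.Agent.Run7.h568.DG.Iface2
import Pool.Agent.Run7.h568.DG.Cob

/-! # Existence of portals -/

noncomputable section

namespace Run7.h568.DG

theorem orbit_symm' {D : Type} [Fintype D] [DecidableEq D] (T : Tri D) {a b : D}
    (h : ∃ j, T.rho^[j] a = b) : ∃ j, T.rho^[j] b = a := by
  obtain ⟨j, rfl⟩ := h
  have hp := rho_pos T a
  set p := Function.minimalPeriod T.rho a with hpdef
  have hper : T.rho^[p * j] a = a := by
    have := (Function.isPeriodicPt_minimalPeriod T.rho a).mul_const j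
    exact this
  refine ⟨p * j - j, ?_⟩
  rw [← Function.iterate_add_apply]
  have : p * j - j + j = p * j := Nat.sub_add_cancel (Nat.le_mul_of_pos_left j hp)
  rw [this, hper]

theorem portal_of_two {D : Type} [Fintype D] [DecidableEq D] (T : Tri D)
    (h : 2 ≤ T.punctures) : Nonempty (Portal T) := by
  have h1 : 1 < (Set.range fun d => {e | ∃ j, T.rho^[j] d = e}).ncard := h
  obtain ⟨X, hX, Y, hY, hXY⟩ := (Set.one_lt_ncard (Set.toFinite _)).1 h1
  obtain ⟨a, rfl⟩ := hX
  obtain ⟨b, rfl⟩ := hY
  have hab : ∀ j, T.rho^[j] a ≠ b := by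
    intro j hj
    apply hXY
    ext e
    constructor
    · rintro ⟨k, hk⟩
      obtain ⟨i, hi⟩ := orbit_symm' T ⟨j, hj⟩
      exact ⟨k + i, by rw [Function.iterate_add_apply, hi, hk]⟩
    · rintro ⟨k, hk⟩
      exact ⟨k + j, by rw [Function.iterate_add_apply, hj, hk]⟩
  by_cases hb : b = T.io a
  · by_cases hr : T.rho a = a
    · by_cases hs : T.rho b = b
      · exfalso
        have e1 : T.sg (T.sg a) = T.io a := by
          have := congrArg T.io hr
          simpa [Tri.rho, T.io_io] using this
        have e2 : T.sg (T.sg b) = T.io b := by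
          have := congrArg T.io hs
          simpa [Tri.rho, T.io_io] using this
        rw [hb, T.io_io, ← e1] at e2
        rw [T.sg3] at e2
        exact T.sg_ne a e2
      · refine ⟨⟨a, T.rho b, fun j hj => ?_, fun h => hs ?_⟩⟩
        · obtain ⟨i, hi⟩ := orbit_symm' T ⟨1, (rfl : T.rho^[1] b = T.rho b)⟩
          exact hab (i + j) (by rw [Function.iterate_add_apply, hj]; exact hi)
        · rw [h, hb]
    · refine ⟨⟨T.rho a, b, fun j hj => hab (j + 1) ?_, fun h => hr ?_⟩⟩
      · rw [Function.iterate_succ_apply]; exact hj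
      · rw [hb] at h
        exact (T.io.injective h).symm
  · exact ⟨⟨a, b, hab, hb⟩⟩

/-- Every surface of genus `g ≥ 1` with `n` punctures, `3 g + n ≥ 5`, is obtained from a
triangulated surface of genus `g - 1` with `n + 2` punctures by gluing two of them. -/
def S_surfP : Prop := ∀ g n : ℕ, 1 ≤ g → 5 ≤ 3 * g + n →
  ∃ (D : Type) (_ : Fintype D) (_ : DecidableEq D) (T : Tri D),
    Nonempty (Portal T) ∧ T.punctures = n + 2 ∧ Fintype.card D + 12 = 12 * (g - 1) + 6 * (n + 2)

theorem surfP (h : S_surf) : S_surfP := by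
  intro g n hg hgn
  obtain ⟨D, i1, i2, T, -, h2, h3⟩ := h (g - 1) (n + 2) (by omega) (by omega)
  exact ⟨D, i1, i2, T, portal_of_two T (by omega), h2, h3⟩

end Run7.h568.DG
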