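import Pool.Agent.Run7.h568.DG.Cob

open Real Matrix Filter Topology

noncomputable section

namespace Run7.h568.DG

theorem twT (hH : S_H00) (hcob : S_cob) : S_twT := by
  intro D _ _ T t x hx
  have h1 := hx.1
  have hL : ∀ d, t.Lam x (T.io d) = t.Lam x d := by
    intro d
    simp only [TD.Lam, (hH T t x h1 d).2]
  have hio : ∀ d, t.tw x (T.io d) = t.tw x d := by
    intro d
    simp only [TD.tw, T.io_io, h1]
    ring
  obtain ⟨-, q, hq⟩ := (hcob T x).1 hx
  refine (hcob T _).2 ⟨hio, fun d => q d +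
    (t.Lam x d + t.Lam x (T.sg (T.sg d)) - t.Lam x (T.sg d)), fun d => ?_⟩
  simp only [TD.tw, hq d, T.sg3, hL]
  ring

end Run7.h568.DG
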