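import Pool.Agent.Run7.h568.DG.Main
import Pool.Agent.Run7.h568.DG.CMain
import Pool.Agent.Run7.h568.DG.Cob
import Pool.Agent.Run7.h568.DG.TwT
import Pool.Agent.Run7.h568.DG.Ineq
import Pool.Agent.Run7.h568.DG.Portals
import Pool.Agent.Run7.h109.DG_H
import Pool.Agent.Run7.h109.DG_str
import Pool.Agent.Run7.h53.DG_H00
import Pool.Agent.Run7.h171.DG_K
import Pool.Agent.Run7.h171.DG_dir
import Pool.Agent.Run7.h239.DG.Kfun
import Pool.Agent.Run7.h113.DG.Asym
import Pool.Agent.Run7.h544.DG.Core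
import Pool.Agent.Run7.h544.DG.Tr
import Pool.Agent.Run7.h24.DG_exc
import Pool.Agent.Run7.h483.DG.Gauge
import Pool.Agent.Run7.h483.DG.Tele
import Pool.Agent.Run7.h929.DG.Geo
import Pool.Agent.Run7.h929.DG.Twc
import Pool.Agent.Run7.h300.DG.Inv
import Pool.Agent.Run7.h317.DG.Same
import Pool.Agent.Run7.h646.DG_scal
import Pool.Agent.Run7.h56.DG_surf
import Pool.Agent.Run7.h595.DG.Word
import Pool.Agent.Run7.h708.DG.CH
import Pool.Agent.Run7.h55.DG.CJ
import Pool.Agent.Run7.h55.DG.Comb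
import Pool.Agent.Run7.h55.DG.Uniq
import Pool.Agent.Run7.h595.DG.CR
import Pool.Agent.Run7.h595.DG.CTwT
import Pool.Agent.Run7.h113.DG.CAsym
import Pool.Agent.Run7.h99.DG.Bd
import Pool.Agent.Run7.h99.DG.Twc
import Pool.Agent.Run7.h544.DG.CDir
import Pool.Agent.Run7.h568.DG.EigB
import Pool.Agent.Run7.h730.DG.CGauge
import Pool.Agent.Run7.h269.DG.CGeo
import Pool.Agent.Run7.h269.DG.CLet
import Pool.Agent.Run7.h269.DG.CStr
import Pool.Agent.Run7.h984.DG.Inv
import Pool.Agent.Run7.h398.DG.La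
import Pool.Agent.Run7.h896.DG.CLoop
import Pool.Agent.Run7.h896.DG.CSame
import Pool.Agent.Run7.h896.DG.CScal
import Pool.Agent.Run7.h834.DG_mat
import Pool.Agent.Run7.h975.DG.Ne
import Pool.Agent.Run7.h111.DG.CPos
import Pool.Agent.Run7.h939.DG.CTele

/-! # Dense Thurston geodesics: all pieces together -/

namespace Run7.h568.DG

theorem final_K : S_K := Run7.h171.DG.K cob
theorem final_H : S_H := H str
theorem final_H00 : S_H00 := Run7.h53.DG.H00 final_H Run7.h544.DG.pos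
theorem final_gauge : S_gauge := Run7.h483.DG.gauge final_H final_H00
theorem final_tele : S_tele := Run7.h483.DG.tele str final_H
theorem final_loop : S_loop := Run7.h483.DG.loop final_tele
theorem final_word : S_word := Run7.h595.DG.t_word ineq Run7.h24.DG.exc final_K
theorem final_scal : S_scal :=
  Run7.h646.DG.scal final_word (Run7.h544.DG.inner final_K) Run7.h544.DG.tr_gt
theorem final_geo : S_geo := Pool.Agent.Run7.h929.DG.geo final_scal
  (Run7.h544.DG.core final_K) Run7.h544.DG.tr_gt final_K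

theorem final_annulus {D : Type} [Fintype D] [DecidableEq D] (T : Tri D)
    (hA : Nonempty (Annulus T)) :
    ∃ G : ℝ → T.Teich, (∀ s t, s ≤ t → T.dTh (G s) (G t) = t - s) ∧
      ∀ O : Set T.Teich, IsOpen O → O.Nonempty → ∃ t, ∃ x ∈ O, T.SameModuli (G t) x :=
  main final_K final_geo Ksurj Kasymp (Run7.h171.DG.dir cob)
    (Run7.h113.DG.asym str Run7.h544.DG.pos)
    (Run7.h317.DG.same final_gauge final_loop) (Run7.h300.DG.inv final_gauge final_loop)
    (twT final_H00 cob) (Pool.Agent.Run7.h929.DG.twc final_H00) T hA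

theorem final_surf : S_surf := Run7.h56.DG.surf
theorem final_surfP : S_surfP := surfP final_surf

theorem fC_tr : C_tr := Run7.h834.DG.tr Run7.h55.DG.cj
theorem fC_mat : C_mat := Run7.h834.DG.mat Run7.h55.DG.cj ineq
theorem fC_str : C_str := Run7.h269.DG.t_str Run7.h55.DG.comb
theorem fC_H : C_H := Run7.h708.DG.t_CH fC_str
theorem fC_R : C_R := Run7.h595.DG.t_CR fC_H
theorem fC_pos : C_pos := Run7.h111.DG.c_pos Run7.h55.DG.comb Run7.h269.DG.t_let fC_tr
theorem fC_tele : C_tele := Run7.h939.DG.tele Run7.h269.DG.t_let fC_str fC_H fC_R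
theorem fC_eig : C_eig :=
  EigOf811.eig_of Run7.h55.DG.cj fC_R Run7.h55.DG.comb fC_tr fC_pos
theorem fC_la : C_la := Run7.h398.DG.la fC_eig fC_pos
theorem fC_gauge : C_gauge := Run7.h730.DG.gauge fC_R fC_eig fC_la
theorem fC_twT : C_twT := Run7.h595.DG.t_CtwT fC_gauge fC_R fC_eig Run7.h55.DG.cj
theorem fC_loop : C_loop := Run7.h896.DG.loop Run7.h55.DG.comb Run7.h269.DG.t_let fC_tele
theorem fC_same : C_same :=
  Run7.h896.DG.same Run7.h55.DG.comb Run7.h269.DG.t_let fC_gauge fC_twT fC_loop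
theorem fC_inv : C_inv := Run7.h984.DG.inv fC_gauge fC_twT fC_loop Run7.h55.DG.uniq fC_eig fC_R
  Run7.h55.DG.cj
theorem fC_scal : C_scal := Run7.h896.DG.scal fC_mat fC_tr
theorem fC_geo : C_geo := Run7.h269.DG.t_geo fC_scal fC_tr fC_mat
theorem fC_bd : C_bd :=
  Run7.h99.DG.Bd.C_bd_of Run7.h55.DG.cj Run7.h55.DG.comb fC_tr fC_pos fC_eig
theorem fC_asym : C_asym := Run7.h113.DG.Casym Run7.h55.DG.comb fC_pos fC_bd fC_eig fC_str
  Run7.h55.DG.cj
theorem fC_twc : C_twc := Run7.h99.DG.C_twc_of Run7.h55.DG.cj fC_eig fC_la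

theorem final_portal {D : Type} [Fintype D] [DecidableEq D] (T : Tri D) (P : Portal T) :
    ∃ G : ℝ → P.Teich, (∀ s t, s ≤ t → P.dTh (G s) (G t) = t - s) ∧
      ∀ O : Set P.Teich, IsOpen O → O.Nonempty → ∃ t, ∃ x ∈ O, P.SameModuli (G t) x :=
  Cmain Run7.h975.DG.ne fC_mat fC_geo Run7.h544.DG.CDir.dir fC_asym fC_same fC_inv fC_twT
    fC_twc T P

end Run7.h568.DG
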