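import Pool.Agent.Run7.h568.DG.Iface

/-!
# Dense Thurston geodesics on punctured surfaces: assembly (Baire category)
-/

open Real Matrix Filter Topology

noncomputable section

namespace Run7.h568.DG

variable {D : Type} [Fintype D] [DecidableEq D]

theorem approach (hdir : S_dir) (hasym : S_asym) (T : Tri D) (x y : D → ℝ) (hx : x ∈ T.Teich)
    (hy : y ∈ T.Teich) (ε R : ℝ) (hε : 0 < ε) :
    ∃ t : TD T, ∃ r : ℝ, R < r ∧ 0 < r ∧ ∀ d, |t.tw x d / r - y d| < ε := by
  obtain ⟨c, hc, hn, M, hM, hM'⟩ := hdir T y hy (ε / 2) (by linarith)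
  obtain ⟨t, -, -, ht⟩ := hasym T x hx.1 c hc hn
  have h1 : ∀ d, Tendsto (fun n : ℕ => (t n).tw x d / (n * M)) atTop (𝓝 (dirc T c d / M)) := by
    intro d
    have := (ht d).div_const M
    refine this.congr fun n => ?_
    rw [div_div]
  have h2 : ∀ᶠ n : ℕ in atTop, ∀ d, |(t n).tw x d / (n * M) - dirc T c d / M| < ε / 2 := by
    rw [eventually_all]
    intro d
    have := Metric.tendsto_nhds.1 (h1 d) (ε / 2) (by linarith)
    filter_upwards [this] with n hn
    rwa [Real.dist_eq] at hn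
  have h3 : ∀ᶠ n : ℕ in atTop, max R 0 < (n : ℝ) * M := by
    have : Tendsto (fun n : ℕ => (n : ℝ) * M) atTop atTop :=
      (tendsto_natCast_atTop_atTop).atTop_mul_const hM
    exact this.eventually_gt_atTop _
  obtain ⟨n, hn2, hn3⟩ := (h2.and h3).exists
  refine ⟨t n, n * M, (le_max_left _ _).trans_lt hn3, (le_max_right _ _).trans_lt hn3,
    fun d => ?_⟩
  have e1 := abs_lt.1 (hn2 d)
  have e2 := abs_lt.1 (hM' d)
  rw [abs_lt]
  constructor <;> linarith [e1.1, e1.2, e2.1, e2.2]

/-- Translating along `ue`, `uf` does not change `K`. -/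
theorem K_add (hK : S_K) (T : Tri D) (A : Annulus T) (l th a b : ℝ) (y : D → ℝ) :
    A.K l th (y + a • A.ue + b • A.uf) = A.K l th y := by
  obtain ⟨-, -, h1, -, h2, -, h3, -, h4, -⟩ := hK T A
  funext d
  simp only [Annulus.K, Pi.add_apply, Pi.smul_apply, smul_eq_mul, h1, h2, h3, h4]
  ring

theorem K_self (T : Tri D) (A : Annulus T) (l th : ℝ) (y : D → ℝ) (h1 : ae l th = y A.e1)
    (h2 : af l th = y A.f1) : A.K l th y = y := by
  funext d
  simp only [Annulus.K, h1, h2]
  ring

/-- The point at time `s` of the line with parameters `p`. -/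
def line (T : Tri D) (A : Annulus T) (hK : S_K) (p : ℝ × T.Teich) (s : ℝ) : T.Teich :=
  ⟨A.K (exp s) (exp s * p.1) (exp s • (p.2 : D → ℝ)),
    (hK T A).2.2.2.2.2.2.2.2.2.2.1 _ _ _ (T.Teich.smul_mem _ p.2.2)⟩

theorem cosh_ne (x : ℝ) : cosh x ≠ 0 := (cosh_pos x).ne'

theorem line_cont (T : Tri D) (A : Annulus T) (hK : S_K) (s : ℝ) :
    Continuous fun p : ℝ × T.Teich => line T A hK p s := by
  have hs : 0 < sinh (exp s / 2) := Real.sinh_pos_iff.2 (by positivity)
  have c1 : Continuous fun p : ℝ × T.Teich => (p.2 : D → ℝ) :=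
    continuous_subtype_val.comp continuous_snd
  have c2 : ∀ d, Continuous fun p : ℝ × T.Teich => (p.2 : D → ℝ) d := fun d =>
    (continuous_apply d).comp c1
  have c3 : Continuous fun p : ℝ × T.Teich => ae (exp s) (exp s * p.1) := by
    unfold ae
    refine continuous_const.mul (Continuous.log ?_ ?_)
    · exact continuous_const.div (by fun_prop) fun p => cosh_ne _
    · intro p
      exact (div_pos hs (cosh_pos _)).ne'
  have c4 : Continuous fun p : ℝ × T.Teich => af (exp s) (exp s * p.1) := by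
    unfold af
    refine continuous_const.mul (Continuous.log ?_ ?_)
    · exact Continuous.div (by fun_prop) continuous_const fun p => hs.ne'
    · intro p
      exact (div_pos (cosh_pos _) hs).ne'
  refine Continuous.subtype_mk ?_ _
  refine continuous_pi fun d => ?_
  simp only [Annulus.K, Pi.smul_apply, smul_eq_mul]
  exact ((continuous_const.mul (c2 d)).add ((c3.sub (continuous_const.mul (c2 _))).mul
    continuous_const)).add ((c4.sub (continuous_const.mul (c2 _))).mul continuous_const)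

/-- Transitivity. -/
theorem transitive (hK : S_K) (hsurj : S_Ksurj) (hasymp : S_Kasymp) (hdir : S_dir)
    (hasym : S_asym) (hinv : S_inv) (htwT : S_twT) (T : Tri D) (A : Annulus T)
    (Z : T.Teich) (p : ℝ × T.Teich) (ε : ℝ) (hε : 0 < ε) :
    ∃ p' : ℝ × T.Teich, dist p' p < ε ∧ ∃ s : ℝ, ∃ t : TD T,
      t.neg.tw (line T A hK p' s : D → ℝ) = Z := by
  obtain ⟨hue, huf, k1, k2, k3, k4, k5, k6, k7, k8, -⟩ := hK T A
  set th0 := p.1
  set y0 : D → ℝ := (p.2 : D → ℝ) with hy0
  set a := (1 - |th0|) - y0 A.e1 with ha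
  set b := (|th0 + 1| - 1) - y0 A.f1 with hb
  set ys : D → ℝ := y0 + a • A.ue + b • A.uf with hys
  have hysm : ys ∈ T.Teich := T.Teich.add_mem (T.Teich.add_mem p.2.2 (T.Teich.smul_mem _ hue))
    (T.Teich.smul_mem _ huf)
  have hys1 : ys A.e1 = 1 - |th0| := by
    simp only [hys, Pi.add_apply, Pi.smul_apply, smul_eq_mul, k1, k7, ha]; ring
  have hys2 : ys A.f1 = |th0 + 1| - 1 := by
    simp only [hys, Pi.add_apply, Pi.smul_apply, smul_eq_mul, k3, k5, hb]; ring
  have H : ∀ n : ℕ, ∃ t : TD T, ∃ r : ℝ, (n : ℝ) < r ∧ 0 < r ∧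
      ∀ d, |t.tw (Z : D → ℝ) d / r - ys d| < 1 / ((n : ℝ) + 1) := fun n =>
    approach hdir hasym T Z ys Z.2 hysm (1 / ((n : ℝ) + 1)) n (by positivity)
  choose t r hr1 hr0 hr2 using H
  set X : ℕ → D → ℝ := fun n => (t n).tw (Z : D → ℝ) with hX
  have hXm : ∀ n, X n ∈ T.Teich := fun n => htwT T (t n) Z Z.2
  have H2 : ∀ n, ∃ l th : ℝ, 0 < l ∧ ae l th = X n A.e1 ∧ af l th = X n A.f1 := fun n =>
    hsurj _ _
  choose l th hl hl1 hl2 using H2
  have hlim : ∀ d, Tendsto (fun n => X n d / r n) atTop (𝓝 (ys d)) := by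
    intro d
    rw [Metric.tendsto_atTop]
    intro δ hδ
    obtain ⟨N, hN⟩ := exists_nat_one_div_lt hδ
    refine ⟨N, fun n hn => ?_⟩
    rw [Real.dist_eq]
    refine (hr2 n d).trans (lt_of_le_of_lt ?_ hN)
    apply one_div_le_one_div_of_le (by positivity)
    have : (N : ℝ) ≤ n := by exact_mod_cast hn
    linarith
  have hrt : Tendsto r atTop atTop :=
    tendsto_atTop_mono (fun n => (hr1 n).le) tendsto_natCast_atTop_atTop
  obtain ⟨q1, q2⟩ := hasymp l th r th0 hl hrt
    (by simp only [hl1]; rw [← hys1]; exact hlim _) (by simp only [hl2]; rw [← hys2]; exact hlim _)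
  have q3 : Tendsto (fun n => th n / l n) atTop (𝓝 th0) := by
    have := q2.div q1 one_ne_zero
    simp only [div_one] at this
    refine this.congr fun n => ?_
    have := (hr0 n).ne'
    have := (hl n).ne'
    simp only [Pi.div_apply]
    field_simp
  have q4 : ∀ d, Tendsto (fun n => X n d / l n) atTop (𝓝 (ys d)) := by
    intro d
    have := (hlim d).div q1 one_ne_zero
    simp only [div_one] at this
    refine this.congr fun n => ?_
    have := (hr0 n).ne'
    have := (hl n).ne'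
    simp only [Pi.div_apply]
    field_simp
  have hy2m : ∀ n, (l n)⁻¹ • X n + (-a) • A.ue + (-b) • A.uf ∈ T.Teich := fun n =>
    T.Teich.add_mem (T.Teich.add_mem (T.Teich.smul_mem _ (hXm n)) (T.Teich.smul_mem _ hue))
      (T.Teich.smul_mem _ huf)
  set y2 : ℕ → T.Teich := fun n => ⟨_, hy2m n⟩ with hy2
  have q5 : Tendsto y2 atTop (𝓝 p.2) := by
    rw [tendsto_subtype_rng]
    refine tendsto_pi_nhds.2 fun d => ?_
    have : Tendsto (fun n => X n d / l n + (-a) * A.ue d + (-b) * A.uf d) atTop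
        (𝓝 (ys d + (-a) * A.ue d + (-b) * A.uf d)) := ((q4 d).add_const _).add_const _
    have e : ys d + (-a) * A.ue d + (-b) * A.uf d = (p.2 : D → ℝ) d := by
      simp only [hys, Pi.add_apply, Pi.smul_apply, smul_eq_mul, hy0]; ring
    rw [e] at this
    refine this.congr fun n => ?_
    simp only [hy2, Pi.add_apply, Pi.smul_apply, smul_eq_mul]
    rw [div_eq_inv_mul]
  have q6 : Tendsto (fun n => ((th n / l n, y2 n) : ℝ × T.Teich)) atTop (𝓝 p) := by
    have := q3.prodMk_nhds q5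
    simpa using this
  obtain ⟨n, hn⟩ := (Metric.tendsto_nhds.1 q6 ε hε).exists
  refine ⟨_, hn, log (l n), t n, ?_⟩
  have hline : (line T A hK (th n / l n, y2 n) (log (l n)) : D → ℝ) = X n := by
    simp only [line]
    rw [exp_log (hl n)]
    have e1 : l n * (th n / l n) = th n := by
      have := (hl n).ne'
      field_simp
    have e2 : l n • (y2 n : D → ℝ) = X n + (l n * (-a)) • A.ue + (l n * (-b)) • A.uf := by
      have := (hl n).ne'
      funext d
      simp only [hy2, Pi.add_apply, Pi.smul_apply, smul_eq_mul]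
      field_simp
    rw [e1, e2, K_add hK, K_self T A _ _ _ (hl1 n) (hl2 n)]
  rw [hline]
  exact hinv T (t n) Z Z.2.1

theorem main (hK : S_K) (hgeo : S_geo) (hsurj : S_Ksurj) (hasymp : S_Kasymp) (hdir : S_dir)
    (hasym : S_asym) (hsame : S_same) (hinv : S_inv) (htwT : S_twT) (htwc : S_twc) : S_main := by
  intro D _ _ T hA
  obtain ⟨A⟩ := hA
  haveI : CompleteSpace T.Teich := FiniteDimensional.complete ℝ T.Teich
  -- the maps
  let Φ : ℝ → TD T → ℝ × T.Teich → T.Teich := fun s t p =>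
    ⟨t.neg.tw (line T A hK p s : D → ℝ), htwT T t.neg _ (line T A hK p s).2⟩
  have hΦ : ∀ s t, Continuous (Φ s t) := by
    intro s t
    exact Continuous.subtype_mk ((htwc T t.neg).comp (line_cont T A hK s)) _
  let B := TopologicalSpace.countableBasis T.Teich
  have hB := TopologicalSpace.isBasis_countableBasis T.Teich
  have hBc : B.Countable := TopologicalSpace.countable_countableBasis T.Teich
  let O : Set T.Teich → Set (ℝ × T.Teich) := fun b => ⋃ s : ℝ, ⋃ t : TD T, Φ s t ⁻¹' b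
  have hO : ∀ b ∈ B, IsOpen (O b) := fun b hb =>
    isOpen_iUnion fun s => isOpen_iUnion fun t => (hB.isOpen hb).preimage (hΦ s t)
  have hOd : ∀ b ∈ B, Dense (O b) := by
    intro b hb
    obtain ⟨Z, hZ⟩ := TopologicalSpace.nonempty_of_mem_countableBasis hb
    rw [Metric.dense_iff]
    intro p ε hε
    obtain ⟨p', hp', s, t, h⟩ := transitive hK hsurj hasymp hdir hasym hinv htwT T A Z p ε hε
    refine ⟨p', hp', ?_⟩
    refine Set.mem_iUnion.2 ⟨s, Set.mem_iUnion.2 ⟨t, ?_⟩⟩
    have : Φ s t p' = Z := Subtype.ext h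
    simpa [this] using hZ
  have hd : Dense (⋂ b ∈ B, O b) := dense_biInter_of_isOpen hO hBc hOd
  obtain ⟨p, hp⟩ := hd.nonempty
  refine ⟨fun s => line T A hK p s, fun s t hst => ?_, fun U hU hUn => ?_⟩
  · exact hgeo T A p.2 p.2.2 p.1 s t hst
  · obtain ⟨u, hu⟩ := hUn
    obtain ⟨b, hb, hub, hbU⟩ := hB.exists_subset_of_mem_open hu hU
    have := Set.mem_iInter₂.1 hp b hb
    obtain ⟨s, hs⟩ := Set.mem_iUnion.1 this
    obtain ⟨t, ht⟩ := Set.mem_iUnion.1 hs
    refine ⟨s, Φ s t p, hbU ht, ?_⟩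
    exact hsame T t.neg _ (line T A hK p s).2.1

end Run7.h568.DG
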